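import Pool.Agent.X257.AE.BoxTails

/-!
# Pairs in short squares, general exponent
-/

set_option autoImplicit false

open Finset

namespace Pool.Agent.X257.AE.BL

open Pool.Agent.TH841.PM.BADf (Ex mem_Ex normal')
open Pool.Agent.X257.AE.BT (one_d indP_le sum_Ioc_shift)

/-- sums over the squares with side `X` and corners at most `X ^ L` -/
def BoxAvgL (L : ℕ) (F : ℤ × ℤ → ℝ) (p : ℝ) (X0 : ℕ) : Prop := ∀ (X : ℕ) (U V : ℤ), X0 ≤ X →
  |U| ≤ (X : ℤ) ^ L → |V| ≤ (X : ℤ) ^ L →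
    ∑ t ∈ Ioc U (U + X) ×ˢ Ioc V (V + X), F t ≤ p * (X : ℝ) ^ 2

/-- size of the left end -/
theorem base_le {a b : ℤ} {A L : ℕ} (hL : 1 ≤ L) (hA : |a| + |b| + 1 ≤ A) {U v : ℤ} {X : ℕ}
    (hX : 1 ≤ X) (hU : |U| ≤ (X : ℤ) ^ L) (hv : |v| ≤ 2 * (X : ℤ) ^ L) :
    |a * U + b * v - A * X| ≤ ((2 * A * X : ℕ) : ℤ) ^ (L + 1) := by
  have hX1 : (1 : ℤ) ≤ X := by exact_mod_cast hX
  have ha0 := abs_nonneg a
  have hb0 := abs_nonneg b
  have hA1 : (1 : ℤ) ≤ A := by linarith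
  have h1 : |a * U + b * v - A * X| ≤ |a| * |U| + |b| * |v| + A * X := by
    have e1 : |a * U + b * v - A * X| ≤ |a * U + b * v| + |(A : ℤ) * X| := abs_sub _ _
    have e2 : |a * U + b * v| ≤ |a * U| + |b * v| := abs_add_le _ _
    have e3 : |(A : ℤ) * X| = A * X := abs_of_nonneg (by positivity)
    rw [abs_mul] at e2
    rw [abs_mul b v] at e2
    rw [e3] at e1
    linarith
  have h2 : |a| * |U| ≤ A * (X : ℤ) ^ L := mul_le_mul (by linarith) hU (abs_nonneg _) (by linarith)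
  have h3 : |b| * |v| ≤ A * (2 * (X : ℤ) ^ L) :=
    mul_le_mul (by linarith) hv (abs_nonneg _) (by linarith)
  have h4 : (X : ℤ) ≤ (X : ℤ) ^ L := le_self_pow₀ hX1 (by omega)
  have h5 : (A : ℤ) * X ≤ A * (X : ℤ) ^ L := mul_le_mul_of_nonneg_left h4 (by linarith)
  have h6 : (A : ℤ) * (X : ℤ) ^ L ≤ (A : ℤ) ^ (L + 1) * (X : ℤ) ^ (L + 1) := by
    refine mul_le_mul (le_self_pow₀ hA1 (by omega)) (pow_le_pow_right₀ hX1 (by omega))
      (by positivity) (by positivity)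
  push_cast
  have h7 : (2 * (A : ℤ) * X) ^ (L + 1) =
      2 ^ (L + 1) * ((A : ℤ) ^ (L + 1) * (X : ℤ) ^ (L + 1)) := by
    rw [mul_pow, mul_pow]
    ring
  have h9 : (4 : ℤ) ≤ 2 ^ (L + 1) := by
    calc (4 : ℤ) = 2 ^ 2 := by norm_num
      _ ≤ 2 ^ (L + 1) := pow_le_pow_right₀ (by norm_num) (by omega)
  rw [h7]
  have h8 : (0 : ℤ) ≤ (A : ℤ) ^ (L + 1) * (X : ℤ) ^ (L + 1) := by positivity
  have h10 := mul_le_mul_of_nonneg_right h9 h8
  linarith

theorem abs_le_two {V v : ℤ} {X L : ℕ} (hL : 1 ≤ L) (hX : 1 ≤ X) (hV : |V| ≤ (X : ℤ) ^ L)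
    (hv : v ∈ Ioc V (V + X)) : |v| ≤ 2 * (X : ℤ) ^ L := by
  have hX1 : (1 : ℤ) ≤ X := by exact_mod_cast hX
  have h4 : (X : ℤ) ≤ (X : ℤ) ^ L := le_self_pow₀ hX1 (by omega)
  rw [mem_Ioc] at hv
  rw [abs_le] at hV ⊢
  constructor <;> linarith [hV.1, hV.2, hv.1, hv.2]

/-- one linear form -/
theorem card_one {a b : ℤ} {L : ℕ} (hL : 1 ≤ L) (hab : ¬ (a = 0 ∧ b = 0)) {A : ℕ} (hA : |a| + |b| + 1 ≤ A) {δ ε : ℝ}
    {M0 : ℕ} (hM0 : ∀ (N : ℤ) (M : ℕ), M0 ≤ M → |N| ≤ (M : ℤ) ^ (L + 1) →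
      ((Ex Polynomial.X N M δ).card : ℝ) ≤ ε * M) {U V : ℤ} {X : ℕ} (hX : M0 + 1 ≤ X)
    (hU : |U| ≤ (X : ℤ) ^ L) (hV : |V| ≤ (X : ℤ) ^ L) :
    (((Ioc U (U + X) ×ˢ Ioc V (V + X)).filter (fun t => a * t.1 + b * t.2 ≠ 0 ∧
      δ * Real.log (Real.log ((2 * A * X : ℕ) : ℝ)) <
      |((a * t.1 + b * t.2).natAbs.primeFactors.card : ℝ) -
        Real.log (Real.log ((2 * A * X : ℕ) : ℝ))|)).card : ℝ) ≤ X * (ε * (2 * A * X : ℕ)) := by
  classical
  have ha0 := abs_nonneg a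
  have hb0 := abs_nonneg b
  have hA1 : (1 : ℤ) ≤ A := by linarith
  have hA1' : 1 ≤ A := by exact_mod_cast hA1
  have hX1 : 1 ≤ X := by omega
  have hM : M0 ≤ 2 * A * X := by nlinarith
  by_cases ha : a = 0
  · have hb : b ≠ 0 := fun hb => hab ⟨ha, hb⟩
    rw [card_filter, sum_product]
    push_cast
    have h : ∀ x ∈ Ioc U (U + (X : ℤ)), ∑ y ∈ Ioc V (V + (X : ℤ)),
        (if a * (x, y).1 + b * (x, y).2 ≠ 0 ∧ δ * Real.log (Real.log (2 * (A : ℝ) * (X : ℝ))) <
      |((a * (x, y).1 + b * (x, y).2).natAbs.primeFactors.card : ℝ) -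
        Real.log (Real.log (2 * (A : ℝ) * (X : ℝ)))| then (1 : ℝ) else 0) ≤
        ε * (2 * (A : ℝ) * (X : ℝ)) := by
      intro x hx
      rw [← sum_filter, sum_const, nsmul_eq_mul, mul_one]
      have h1 := one_d (a := b) (s := a * x) hb (A := A) (by linarith) V hX1 δ
      have h2 := hM0 (b * V + a * x - A * X) (2 * A * X) hM
        (base_le (a := b) (b := a) hL (by linarith) hX1 hV (abs_le_two hL hX1 hU hx))
      have h3 : ((Ioc V (V + (X : ℤ))).filter (fun y => a * (x, y).1 + b * (x, y).2 ≠ 0 ∧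
          δ * Real.log (Real.log (2 * (A : ℝ) * (X : ℝ))) <
          |((a * (x, y).1 + b * (x, y).2).natAbs.primeFactors.card : ℝ) -
            Real.log (Real.log (2 * (A : ℝ) * (X : ℝ)))|)).card ≤
          (Ex Polynomial.X (b * V + a * x - A * X) (2 * A * X) δ).card := by
        refine le_trans (le_of_eq ?_) h1
        congr 1
        refine filter_congr fun y _ => ?_
        push_cast
        rw [add_comm (a * x) (b * y)]
      have h4 : (((Ioc V (V + (X : ℤ))).filter (fun y => a * (x, y).1 + b * (x, y).2 ≠ 0 ∧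
          δ * Real.log (Real.log (2 * (A : ℝ) * (X : ℝ))) <
          |((a * (x, y).1 + b * (x, y).2).natAbs.primeFactors.card : ℝ) -
            Real.log (Real.log (2 * (A : ℝ) * (X : ℝ)))|)).card : ℝ) ≤
          ((Ex Polynomial.X (b * V + a * x - A * X) (2 * A * X) δ).card : ℝ) := by exact_mod_cast h3
      refine h4.trans (h2.trans (le_of_eq ?_))
      push_cast
      ring
    refine (sum_le_card_nsmul _ _ _ h).trans (le_of_eq ?_)
    rw [Int.card_Ioc, add_sub_cancel_left, Int.toNat_natCast, nsmul_eq_mul]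
  · rw [card_filter, sum_product_right]
    push_cast
    have h : ∀ y ∈ Ioc V (V + (X : ℤ)), ∑ x ∈ Ioc U (U + (X : ℤ)),
        (if a * (x, y).1 + b * (x, y).2 ≠ 0 ∧ δ * Real.log (Real.log (2 * (A : ℝ) * (X : ℝ))) <
      |((a * (x, y).1 + b * (x, y).2).natAbs.primeFactors.card : ℝ) -
        Real.log (Real.log (2 * (A : ℝ) * (X : ℝ)))| then (1 : ℝ) else 0) ≤
        ε * (2 * (A : ℝ) * (X : ℝ)) := by
      intro y hy
      rw [← sum_filter, sum_const, nsmul_eq_mul, mul_one]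
      have h1 := one_d (a := a) (s := b * y) ha (A := A) (by linarith) U hX1 δ
      have h2 := hM0 (a * U + b * y - A * X) (2 * A * X) hM
        (base_le (a := a) (b := b) hL (by linarith) hX1 hU (abs_le_two hL hX1 hV hy))
      have h3 : ((Ioc U (U + (X : ℤ))).filter (fun x => a * (x, y).1 + b * (x, y).2 ≠ 0 ∧
          δ * Real.log (Real.log (2 * (A : ℝ) * (X : ℝ))) <
          |((a * (x, y).1 + b * (x, y).2).natAbs.primeFactors.card : ℝ) -
            Real.log (Real.log (2 * (A : ℝ) * (X : ℝ)))|)).card ≤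
          (Ex Polynomial.X (a * U + b * y - A * X) (2 * A * X) δ).card := by
        refine le_trans (le_of_eq ?_) h1
        congr 1
        refine filter_congr fun x _ => ?_
        push_cast
        rfl
      have h4 : (((Ioc U (U + (X : ℤ))).filter (fun x => a * (x, y).1 + b * (x, y).2 ≠ 0 ∧
          δ * Real.log (Real.log (2 * (A : ℝ) * (X : ℝ))) <
          |((a * (x, y).1 + b * (x, y).2).natAbs.primeFactors.card : ℝ) -
            Real.log (Real.log (2 * (A : ℝ) * (X : ℝ)))|)).card : ℝ) ≤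
          ((Ex Polynomial.X (a * U + b * y - A * X) (2 * A * X) δ).card : ℝ) := by exact_mod_cast h3
      refine h4.trans (h2.trans (le_of_eq ?_))
      push_cast
      ring
    refine (sum_le_card_nsmul _ _ _ h).trans (le_of_eq ?_)
    rw [Int.card_Ioc, add_sub_cancel_left, Int.toNat_natCast, nsmul_eq_mul]

open Pool.Agent.TH344.BF Pool.Agent.TH344.BF.BadBAux Pool.Agent.TH344.DT Pool.Agent.W262.RK
  Pool.Agent.W307.RT

variable {J : Type} [Fintype J] [DecidableEq J]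

/-- the pairs of weight less than one are rare in short squares -/
theorem bad_sq {L : ℕ} (hL : 1 ≤ L) (α β : J → ℤ) (hαβ : ∀ j, ¬ (α j = 0 ∧ β j = 0)) (T : Finset (J → ℝ))
    (hT1 : ∀ t ∈ T, ∀ j, 0 < t j) (hT2 : ∀ t ∈ T, 1 < ∏ j, t j) (ε : ℝ) (hε : 0 < ε) :
    ∃ X0 : ℕ, BoxAvgL L (indP {t | (∀ j, fv α β t.1 t.2 j ≠ 0) ∧ rho T (omB α β t) < 1}) ε X0 := by
  classical
  obtain ⟨δ, hδ, hδT⟩ := exists_deltaB T hT2
  set m := Fintype.card J with hm
  set A : ℕ := ∑ j, ((α j).natAbs + (β j).natAbs) + 1 with hA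
  have hA0 : (0 : ℝ) < A := by rw [hA]; positivity
  set ε' : ℝ := ε / (2 * (m + 1) * A) with hε'
  have hε'0 : 0 < ε' := by positivity
  obtain ⟨M0, hM0⟩ := normal' Polynomial.X Polynomial.irreducible_X
    (by rw [Polynomial.natDegree_X]; norm_num) (L + 1) δ ε' hδ hε'0
  refine ⟨M0 + 16, fun X U V hX hU hV => ?_⟩
  have hAj : ∀ j, |α j| + |β j| + 1 ≤ (A : ℤ) := by
    intro j
    have h1 : (α j).natAbs + (β j).natAbs ≤ ∑ j, ((α j).natAbs + (β j).natAbs) :=
      single_le_sum (f := fun j => (α j).natAbs + (β j).natAbs) (fun i _ => Nat.zero_le _)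
        (mem_univ j)
    have h2 : (α j).natAbs + (β j).natAbs + 1 ≤ A := by rw [hA]; omega
    have h3 : (((α j).natAbs + (β j).natAbs + 1 : ℕ) : ℤ) ≤ A := by exact_mod_cast h2
    push_cast at h3
    linarith
  have hLL : 0 < Real.log (Real.log ((2 * A * X : ℕ) : ℝ)) := by
    have h1 : 16 ≤ 2 * A * X := by
      have : 1 ≤ A := by rw [hA]; omega
      nlinarith
    have h2 : (16 : ℝ) ≤ ((2 * A * X : ℕ) : ℝ) := by exact_mod_cast h1
    apply Real.log_pos
    rw [Real.lt_log_iff_exp_lt (by linarith)]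
    have := Real.exp_one_lt_d9
    linarith
  set Λ := Real.log (Real.log ((2 * A * X : ℕ) : ℝ)) with hLdef
  set S : J → Finset (ℤ × ℤ) := fun j => (Ioc U (U + (X : ℤ)) ×ˢ Ioc V (V + (X : ℤ))).filter
    (fun t => α j * t.1 + β j * t.2 ≠ 0 ∧
      δ * Λ < |((α j * t.1 + β j * t.2).natAbs.primeFactors.card : ℝ) - Λ|) with hS
  have hsub : ∀ t ∈ Ioc U (U + (X : ℤ)) ×ˢ Ioc V (V + (X : ℤ)),
      t ∈ {t : ℤ × ℤ | (∀ j, fv α β t.1 t.2 j ≠ 0) ∧ rho T (omB α β t) < 1} →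
      t ∈ univ.biUnion S := by
    rintro t hb ⟨h3, h4⟩
    by_contra hcon
    obtain ⟨t0, ht0, hlt⟩ := rho_lt_one h4
    refine absurd hlt (not_lt.2 (le_of_lt (prod_gtB (hT1 t0 ht0) hLL (hδT t0 ht0) _ ?_)))
    intro j
    by_contra h5
    push Not at h5
    exact hcon (mem_biUnion.2 ⟨j, mem_univ _, mem_filter.2 ⟨hb, h3 j, h5⟩⟩)
  have h1 : (((univ.biUnion S).card : ℕ) : ℝ) ≤ ∑ j, ((S j).card : ℝ) := by
    exact_mod_cast card_biUnion_le
  have h2 : ∀ j ∈ (univ : Finset J), ((S j).card : ℝ) ≤ X * (ε' * (2 * A * X : ℕ)) := fun j _ =>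
    card_one hL (hαβ j) (hAj j) hM0 (by omega) hU hV
  refine (indP_le hsub).trans (h1.trans ((sum_le_card_nsmul _ _ _ h2).trans ?_))
  rw [card_univ, nsmul_eq_mul, ← hm]
  push_cast
  have hm0 : (0 : ℝ) ≤ m := Nat.cast_nonneg _
  have h3 : (m : ℝ) * (X * (ε' * (2 * A * X))) = (m * (ε' * (2 * A))) * (X : ℝ) ^ 2 := by ring
  rw [h3]
  refine mul_le_mul_of_nonneg_right ?_ (by positivity)
  have h4 : (m : ℝ) * (ε' * (2 * A)) = ε * (m / (m + 1)) := by
    rw [hε']
    field_simp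
  rw [h4]
  have h5 : (m : ℝ) / (m + 1) ≤ 1 := by
    rw [div_le_one (by positivity)]
    linarith
  nlinarith


section tails

open Pool.Agent.W307.SE Pool.Agent.TH344.JG Pool.Agent.TH344.SG Pool.Agent.TH344.GT

variable {n : ℕ}

/-- the weighted moments over short squares -/
theorem box_w {L : ℕ} (hL : 1 ≤ L) (F : Fam n) {k : ℕ} (hk : 1 ≤ k) :
    ∃ T : Finset (Fin 3 × Fin n → ℝ), (∀ t ∈ T, ∀ j, 0 < t j) ∧ (∀ t ∈ T, 1 < ∏ j, t j) ∧
      ∃ C : ℝ, 0 ≤ C ∧ BoxAvgL L (WBl F.l F.m F.a k T) C 1 := by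
  classical
  have hA := avgb
  have hM := mafk
  obtain ⟨l, m, a, n0, hn, hm, ha, hl, hF⟩ := F
  dsimp only
  obtain ⟨q, hq⟩ := exists_q l (ne_zero_of l hl)
  set α : Fin 3 × Fin n → ℤ := fun j => (l j).1 + (q : ℤ) * (l j).2 with hα
  set β : Fin 3 × Fin n → ℤ := fun j => (l j).2 with hβ
  have hcls : ∀ j, cl n j ≠ 3 := by
    intro j
    unfold cl
    exact (Fin.castSucc_lt_last j.1).ne
  have hres : ∀ j j', j ≠ j' → Res α β j j' ≠ 0 := by
    intro j j' hj
    have h1 := hl j j' hj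
    unfold Res
    intro h2
    apply h1
    rw [hα, hβ] at h2
    linear_combination h2
  have hcard : ∀ k : Fin 3, (fc (cl n) k).card = n := by
    intro k
    rw [fc_cl, card_image_of_injective _ (fun i j h => (Prod.mk.inj h).2), card_univ,
      Fintype.card_fin]
  have hkap : ∀ j, kapM (cl n) a m α β j ≠ 0 := by
    intro j
    unfold kapM
    refine mul_ne_zero ?_ (mul_ne_zero (ha _) (prod_ne_zero_iff.2 fun l' hl' => ?_))
    · unfold sgM
      split_ifs <;> norm_num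
    · apply pow_ne_zero
      apply hres
      intro h
      subst h
      have h1 := (mem_filter.1 hl').2
      unfold cl at h1
      rcases j with ⟨k, i⟩
      have h2 : k = cpM k.castSucc := Fin.castSucc_injective _ h1
      revert h2
      unfold cpM
      fin_cases k <;> simp
  obtain ⟨T, hT1, hT2, hT3⟩ := mafk_cl hM n0 hk (kapM (cl n) a m α β) hkap
  obtain ⟨C, hC0, hC⟩ := hA (Fin 3 × Fin n) (cl n) a m α β hcls ha (fun j => (hm j).pos) hq hres
    hkap (fun k => by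
      rw [Finset.even_sum_iff_even_card_odd, filter_true_of_mem (fun j _ => hm j), hcard]
      exact hn) (fun j => Or.inl (hm j)) (fun u v => by
        rw [hα, hβ, FM_cl, FM_cl, FM_cl]; exact hF _ _) k T hT1 hT3 (L + 1)
  refine ⟨T, hT1, hT2, C * (q + 1) ^ 2, by positivity, fun X U V hX hU hV => ?_⟩
  set X' := (q + 1) * X with hX'
  set V' := V - q * U - q * X with hV'
  have hXX' : X ≤ X' := by rw [hX']; nlinarith
  have h1 : ∑ t ∈ Ioc U (U + X) ×ˢ Ioc V (V + X), WBl l m a k T t ≤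
      ∑ s ∈ Ioc U (U + X') ×ˢ Ioc V' (V' + X'), WB (cl n) a m α β k T s := by
    have h2 : ∀ t : ℤ × ℤ, WBl l m a k T t = WB (cl n) a m α β k T (t.1, t.2 - q * t.1) := by
      intro t
      rw [← WBl_eq]
      congr 1
      exact Prod.ext rfl (by ring)
    calc ∑ t ∈ Ioc U (U + X) ×ˢ Ioc V (V + X), WBl l m a k T t
        = ∑ t ∈ Ioc U (U + X) ×ˢ Ioc V (V + X), WB (cl n) a m α β k T (t.1, t.2 - q * t.1) :=
          sum_congr rfl fun t _ => h2 t
      _ = ∑ s ∈ (Ioc U (U + (X : ℤ)) ×ˢ Ioc V (V + (X : ℤ))).image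
            (fun t : ℤ × ℤ => (t.1, t.2 - q * t.1)), WB (cl n) a m α β k T s := by
          rw [sum_image]
          intro t _ t' _ h
          obtain ⟨h3, h4⟩ := Prod.mk.inj h
          rw [h3] at h4
          exact Prod.ext h3 (by linarith)
      _ ≤ _ := by
          apply sum_le_sum_of_subset_of_nonneg
          · intro s hs
            rw [mem_image] at hs
            obtain ⟨t, ht, rfl⟩ := hs
            rw [mem_product, mem_Ioc, mem_Ioc] at ht ⊢
            obtain ⟨⟨a1, a2⟩, a3, a4⟩ := ht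
            dsimp only
            have h5 : (q : ℤ) * t.1 ≤ q * (U + X) :=
              mul_le_mul_of_nonneg_left a2 (Int.natCast_nonneg q)
            have h6 : (q : ℤ) * U ≤ q * t.1 :=
              mul_le_mul_of_nonneg_left a1.le (Int.natCast_nonneg q)
            have h7 : ((X' : ℕ) : ℤ) = q * X + X := by rw [hX']; push_cast; ring
            have h8 : (0 : ℤ) ≤ q * X := by positivity
            refine ⟨⟨a1, by rw [h7]; linarith⟩, ?_, ?_⟩
            · rw [hV']; nlinarith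
            · rw [hV', h7]; linarith
          · intro s _ _
            unfold WB
            split_ifs
            · exact mul_nonneg (by positivity) (rho_nonneg hT1 _)
            · exact le_rfl
  have hX1 : (1 : ℤ) ≤ X := by exact_mod_cast hX
  have hq0 : (0 : ℤ) ≤ q := Int.natCast_nonneg q
  have hpow : (X : ℤ) ^ L ≤ (X' : ℤ) ^ (L + 1) := by
    have h5 : (X : ℤ) ≤ X' := by exact_mod_cast hXX'
    calc (X : ℤ) ^ L ≤ (X : ℤ) ^ (L + 1) := pow_le_pow_right₀ hX1 (by omega)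
      _ ≤ _ := pow_le_pow_left₀ (by linarith) h5 (L + 1)
  have hU' : U.natAbs ≤ X' ^ (L + 1) := by
    have h5 := hU.trans hpow
    rw [Int.abs_eq_natAbs] at h5
    exact_mod_cast h5
  have hV'' : V'.natAbs ≤ X' ^ (L + 1) := by
    have h4 : (X : ℤ) ≤ (X : ℤ) ^ L := le_self_pow₀ hX1 (by omega)
    have h5 : |V'| ≤ (2 * q + 1) * (X : ℤ) ^ L := by
      have e1 : |V'| ≤ |V| + |(q : ℤ) * U| + |(q : ℤ) * X| := by
        rw [hV']
        have := abs_sub (V - q * U) ((q : ℤ) * X)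
        have := abs_sub V ((q : ℤ) * U)
        linarith
      rw [abs_mul, abs_mul, Nat.abs_cast, Nat.abs_cast] at e1
      have e2 : (q : ℤ) * |U| ≤ q * (X : ℤ) ^ L := mul_le_mul_of_nonneg_left hU hq0
      have e3 : (q : ℤ) * X ≤ q * (X : ℤ) ^ L := mul_le_mul_of_nonneg_left h4 hq0
      linarith
    have h6 : (2 * q + 1 : ℤ) * (X : ℤ) ^ L ≤ (X' : ℤ) ^ (L + 1) := by
      have e1 : ((X' : ℕ) : ℤ) ^ (L + 1) = (q + 1) ^ (L + 1) * (X : ℤ) ^ (L + 1) := by
        rw [hX', Nat.cast_mul, mul_pow]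
        push_cast
        rfl
      rw [e1]
      have e2 : (2 * q + 1 : ℤ) ≤ (q + 1) ^ (L + 1) := by
        have e3 : (2 * q + 1 : ℤ) ≤ (q + 1) ^ 2 := by nlinarith
        exact e3.trans (pow_le_pow_right₀ (by linarith) (by omega))
      exact mul_le_mul e2 (pow_le_pow_right₀ hX1 (by omega)) (by positivity) (by positivity)
    have h7 := h5.trans h6
    rw [Int.abs_eq_natAbs] at h7
    exact_mod_cast h7
  have h3 := hC U V' X' (by omega) hU' hV''
  rw [sum_Ioc_shift (WB (cl n) a m α β k T)] at h1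
  refine h1.trans (h3.trans (le_of_eq ?_))
  rw [hX']
  push_cast
  ring

end tails

end Pool.Agent.X257.AE.BL
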