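import Pool.Agent.X257.AE.Core

/-!
# Logarithmic density, and sparse sequences of levels
-/

set_option autoImplicit false

open Finset MeasureTheory Filter Topology

namespace Pool.Agent.X257.AE

/-- the blocks `(2 ^ (2 k + e), 2 ^ (2 k + e + 1)]` with the weights `1 / i` -/
noncomputable def logBlocks (e : ℕ) : Blocks where
  a k := 2 ^ (2 * k + e) / 2
  T k := Ioc (2 ^ (2 * k + e)) (2 ^ (2 * k + e + 1))
  w _ i := 1 / (i : ℝ)
  mono k := Nat.div_le_div_right (Nat.pow_le_pow_right (by norm_num) (by omega))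
  low k i hi := by
    have := (mem_Ioc.1 hi).1
    omega
  high k i hi := by
    have h1 := (mem_Ioc.1 hi).2
    have h2 : 2 ^ (2 * (k + 1) + e) = 2 * 2 ^ (2 * k + e + 1) := by ring
    rw [h2]
    omega
  nonneg k i := by positivity
  sum_le k := by
    set c := 2 ^ (2 * k + e) with hc
    have hc0 : 0 < c := by positivity
    have h1 : ∀ i ∈ Ioc c (2 ^ (2 * k + e + 1)), 1 / (i : ℝ) ≤ 1 / (c : ℝ) := by
      intro i hi
      have h2 := (mem_Ioc.1 hi).1
      exact one_div_le_one_div_of_le (by exact_mod_cast hc0) (by exact_mod_cast h2.le)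
    refine (sum_le_sum h1).trans ?_
    rw [sum_const, Nat.card_Ioc, nsmul_eq_mul]
    have h3 : 2 ^ (2 * k + e + 1) - c = c := by
      rw [pow_succ, ← hc]
      omega
    rw [h3, mul_one_div, div_self]
    exact_mod_cast hc0.ne'

theorem le_a (e k : ℕ) : k ≤ (logBlocks e).a k := by
  change k ≤ 2 ^ (2 * k + e) / 2
  rw [Nat.le_div_iff_mul_le (by norm_num)]
  have h1 : k < 2 ^ k := Nat.lt_two_pow_self
  have h2 : 2 ^ (2 * k) ≤ 2 ^ (2 * k + e) := Nat.pow_le_pow_right (by norm_num) (by omega)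
  have h3 : 2 ^ (2 * k) = 2 ^ k * 2 ^ k := by rw [← pow_add]; congr 1; ring
  rcases Nat.eq_zero_or_pos k with rfl | hk
  · simp
  · have h4 : 2 ≤ 2 ^ k := by
      calc 2 = 2 ^ 1 := (pow_one 2).symm
        _ ≤ 2 ^ k := Nat.pow_le_pow_right (by norm_num) hk
    nlinarith

theorem sum_blocks (f : ℕ → ℝ) (m : ℕ) :
    ∑ k ∈ range m, (∑ i ∈ Ioc (2 ^ (2 * k + 0)) (2 ^ (2 * k + 0 + 1)), f i) +
      ∑ k ∈ range m, (∑ i ∈ Ioc (2 ^ (2 * k + 1)) (2 ^ (2 * k + 1 + 1)), f i) =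
    ∑ i ∈ Ioc 1 (2 ^ (2 * m)), f i := by
  induction m with
  | zero => simp
  | succ m ih =>
    rw [sum_range_succ, sum_range_succ]
    have h1 : 2 ^ (2 * (m + 1)) = 2 ^ (2 * m + 1 + 1) := by ring
    have h2 : (1 : ℕ) ≤ 2 ^ (2 * m) := Nat.one_le_two_pow
    have h3 : 2 ^ (2 * m) ≤ 2 ^ (2 * m + 1) := Nat.pow_le_pow_right (by norm_num) (by omega)
    have h4 : 2 ^ (2 * m + 1) ≤ 2 ^ (2 * m + 1 + 1) := Nat.pow_le_pow_right (by norm_num) (by omega)
    rw [h1, ← sum_Ioc_consecutive f h2 (h3.trans h4), ← ih, ← sum_Ioc_consecutive f h3 h4]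
    simp only [add_zero]
    ring

open Classical in
/-- **The upper logarithmic density is at most `p`.** -/
theorem ae_log {B : Set ℤ} {p : ℝ} {M0 : ℕ} (hB : Dens B p M0) :
    ∀ᵐ α : ℝ, ∀ b : ℕ, 2 ≤ b → ∀ ε : ℝ, 0 < ε → ∀ᶠ x : ℕ in atTop,
      ∑ n ∈ (Icc 1 x).filter (fun n => pre b n α ∈ B), 1 / (n : ℝ) ≤ (p + ε) * Real.log x := by
  have hp := dens_nonneg hB
  filter_upwards [(logBlocks 0).ae_blocks (le_a 0) hB, (logBlocks 1).ae_blocks (le_a 1) hB]
    with α h0 h1 b hb ε hε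
  have h2 := h0 b hb (ε / 8) (by positivity)
  have h3 := h1 b hb (ε / 8) (by positivity)
  obtain ⟨m1, hm1⟩ := (h2.and h3).exists_forall_of_atTop
  have hlog : Tendsto (fun x : ℕ => Real.log (x : ℝ)) atTop atTop :=
    Real.tendsto_log_atTop.comp tendsto_natCast_atTop_atTop
  filter_upwards [hlog.eventually_ge_atTop (2 * (1 + 2 * p + ε) / ε + 1),
    eventually_ge_atTop (2 ^ (2 * m1)), eventually_ge_atTop 2] with x hx1 hx2 hx3
  set m := Nat.log 2 x / 2 + 1 with hm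
  have hmm : m1 ≤ m := by
    have : 2 * m1 ≤ Nat.log 2 x := Nat.le_log_of_pow_le (by norm_num) hx2
    omega
  obtain ⟨h4, h5⟩ := hm1 m hmm
  have hxm : x ≤ 2 ^ (2 * m) := by
    have h6 : x < 2 ^ (Nat.log 2 x + 1) := Nat.lt_pow_succ_log_self (by norm_num) x
    have h7 : 2 ^ (Nat.log 2 x + 1) ≤ 2 ^ (2 * m) := Nat.pow_le_pow_right (by norm_num) (by omega)
    omega
  set F : ℕ → ℝ := fun i => 1 / (i : ℝ) * ind B (pre b i α) with hF
  have hZ := sum_blocks F m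
  have hW := sum_blocks (fun i => 1 / (i : ℝ)) m
  have hF0 : ∀ i, 0 ≤ F i := fun i => mul_nonneg (by positivity) (ind_nonneg _ _)
  have h6 : ∑ n ∈ (Icc 1 x).filter (fun n => pre b n α ∈ B), 1 / (n : ℝ) ≤
      1 + ∑ i ∈ Ioc (1 : ℕ) (2 ^ (2 * m)), F i := by
    have h7 : ∑ n ∈ (Icc 1 x).filter (fun n => pre b n α ∈ B), 1 / (n : ℝ) =
        ∑ n ∈ Icc 1 x, F n := by
      rw [sum_filter]
      refine sum_congr rfl fun n _ => ?_
      simp only [hF, ind]
      split_ifs <;> simp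
    rw [h7]
    have h8 : Icc 1 x ⊆ insert 1 (Ioc (1 : ℕ) (2 ^ (2 * m))) := by
      intro i hi
      rw [mem_Icc] at hi
      rw [mem_insert, mem_Ioc]
      omega
    refine (sum_le_sum_of_subset_of_nonneg h8 fun i _ _ => hF0 i).trans ?_
    rw [sum_insert (by simp)]
    have h9 : F 1 ≤ 1 := by
      simp only [hF, Nat.cast_one, div_one, one_mul]
      exact ind_le _ _
    linarith
  have h7 : ∑ i ∈ Ioc (1 : ℕ) (2 ^ (2 * m)), F i ≤
      p * ∑ i ∈ Ioc (1 : ℕ) (2 ^ (2 * m)), 1 / (i : ℝ) + ε / 4 * m := by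
    rw [← hZ, ← hW, mul_add]
    have h8 : ∑ k ∈ range m, ∑ i ∈ Ioc ((2 : ℕ) ^ (2 * k + 0)) (2 ^ (2 * k + 0 + 1)), F i ≤
        p * ∑ k ∈ range m, ∑ i ∈ Ioc ((2 : ℕ) ^ (2 * k + 0)) (2 ^ (2 * k + 0 + 1)), 1 / (i : ℝ) +
          ε / 8 * m := h4
    have h9 : ∑ k ∈ range m, ∑ i ∈ Ioc ((2 : ℕ) ^ (2 * k + 1)) (2 ^ (2 * k + 1 + 1)), F i ≤
        p * ∑ k ∈ range m, ∑ i ∈ Ioc ((2 : ℕ) ^ (2 * k + 1)) (2 ^ (2 * k + 1 + 1)), 1 / (i : ℝ) +
          ε / 8 * m := h5
    linarith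
  have hx0 : (0 : ℝ) < x := by exact_mod_cast (by omega : 0 < x)
  have hl2 : 0 < Real.log 2 := Real.log_pos (by norm_num)
  have hl2' : Real.log 2 < 0.6931471808 := Real.log_two_lt_d9
  have hl2'' : 0.6931471803 < Real.log 2 := Real.log_two_gt_d9
  have hL : ((Nat.log 2 x : ℕ) : ℝ) * Real.log 2 ≤ Real.log x := by
    have h8 : 2 ^ Nat.log 2 x ≤ x := Nat.pow_log_le_self 2 (by omega)
    have h9 : ((2 : ℝ)) ^ Nat.log 2 x ≤ x := by exact_mod_cast h8
    have h10 := Real.log_le_log (by positivity) h9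
    rwa [Real.log_pow] at h10
  have hm2 : ((2 * m : ℕ) : ℝ) ≤ (Nat.log 2 x : ℝ) + 2 := by
    have : 2 * m ≤ Nat.log 2 x + 2 := by omega
    exact_mod_cast this
  have h8 : ∑ i ∈ Ioc (1 : ℕ) (2 ^ (2 * m)), 1 / (i : ℝ) ≤ Real.log x + 2 := by
    have h9 := harmonic_le_one_add_log (2 ^ (2 * m))
    have h10 : (harmonic (2 ^ (2 * m)) : ℝ) = 1 + ∑ i ∈ Ioc (1 : ℕ) (2 ^ (2 * m)), 1 / (i : ℝ) := by
      rw [harmonic_eq_sum_Icc]
      have h11 : Icc 1 (2 ^ (2 * m)) = insert 1 (Ioc (1 : ℕ) (2 ^ (2 * m))) := by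
        ext i
        have : 1 ≤ 2 ^ (2 * m) := Nat.one_le_two_pow
        rw [mem_insert, mem_Icc, mem_Ioc]
        omega
      rw [h11, sum_insert (by simp)]
      push_cast
      simp [one_div]
    rw [h10] at h9
    have h12 : Real.log ((2 ^ (2 * m) : ℕ) : ℝ) = ((2 * m : ℕ) : ℝ) * Real.log 2 := by
      push_cast
      rw [Real.log_pow]
      push_cast
      ring
    rw [h12] at h9
    have h13 : ((2 * m : ℕ) : ℝ) * Real.log 2 ≤ ((Nat.log 2 x : ℝ) + 2) * Real.log 2 :=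
      mul_le_mul_of_nonneg_right hm2 hl2.le
    nlinarith
  have h9 : (m : ℝ) ≤ Real.log x + 1 := by
    have h10 : (Nat.log 2 x : ℝ) ≤ 2 * Real.log x := by
      have h11 : (0 : ℝ) ≤ (Nat.log 2 x : ℝ) := Nat.cast_nonneg _
      nlinarith
    push_cast at hm2
    linarith
  have h10 : 2 * (1 + 2 * p + ε) ≤ ε * (Real.log x - 1) := by
    have h11 : 2 * (1 + 2 * p + ε) / ε ≤ Real.log x - 1 := by linarith
    rw [div_le_iff₀ hε] at h11
    linarith
  have h11 : p * ∑ i ∈ Ioc (1 : ℕ) (2 ^ (2 * m)), 1 / (i : ℝ) ≤ p * (Real.log x + 2) :=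
    mul_le_mul_of_nonneg_left h8 hp
  have h12 : ε / 4 * (m : ℝ) ≤ ε / 4 * (Real.log x + 1) :=
    mul_le_mul_of_nonneg_left h9 (by positivity)
  nlinarith

/-- the levels `n_0, n_1, ...` with `2 n_k ≤ n_(k + 1)` -/
noncomputable def seqBlocks (n : ℕ → ℕ) (hn : ∀ k, 2 * n k ≤ n (k + 1)) : Blocks where
  a k := Nat.casesOn k (n 0 / 2) n
  T k := {n k}
  w _ _ := 1
  mono k := by
    cases k with
    | zero => exact Nat.div_le_self _ _
    | succ k => have := hn k; change n k ≤ n (k + 1); omega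
  low k i hi := by
    rw [mem_singleton] at hi
    subst hi
    cases k with
    | zero => change 2 * (n 0 / 2) ≤ n 0; omega
    | succ k => exact hn k
  high k i hi := by
    rw [mem_singleton] at hi
    subst hi
    exact le_rfl
  nonneg _ _ := zero_le_one
  sum_le k := by simp

open Classical in
/-- **Sparse sequences of levels**: natural density -/
theorem ae_seq {B : Set ℤ} {p : ℝ} {M0 : ℕ} (hB : Dens B p M0) (n : ℕ → ℕ) (h0 : 1 ≤ n 0)
    (hn : ∀ k, 2 * n k ≤ n (k + 1)) :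
    ∀ᵐ α : ℝ, ∀ b : ℕ, 2 ≤ b → ∀ ε : ℝ, 0 < ε → ∀ᶠ J : ℕ in atTop,
      (((range J).filter (fun k => pre b (n k) α ∈ B)).card : ℝ) ≤ (p + ε) * J := by
  have hpow : ∀ k, 2 ^ k ≤ n k := by
    intro k
    induction k with
    | zero => simpa using h0
    | succ k ih => rw [pow_succ]; have := hn k; omega
  have ha : ∀ k, k ≤ (seqBlocks n hn).a k := by
    intro k
    cases k with
    | zero => exact Nat.zero_le _
    | succ k =>
      change k + 1 ≤ n k
      have h1 : k < 2 ^ k := Nat.lt_two_pow_self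
      have := hpow k
      omega
  filter_upwards [(seqBlocks n hn).ae_blocks ha hB] with α hα b hb ε hε
  filter_upwards [hα b hb ε hε] with J hJ
  have h1 : ∑ k ∈ range J, (seqBlocks n hn).Z b B k α =
      (((range J).filter (fun k => pre b (n k) α ∈ B)).card : ℝ) := by
    rw [card_filter]
    push_cast
    refine sum_congr rfl fun k _ => ?_
    change ∑ i ∈ {n k}, (1 : ℝ) * ind B (pre b i α) = _
    rw [sum_singleton, one_mul]
    rfl
  have h2 : ∑ k ∈ range J, (seqBlocks n hn).W k = J := by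
    have h3 : ∀ k ∈ range J, (seqBlocks n hn).W k = 1 := by
      intro k _
      change ∑ i ∈ {n k}, (1 : ℝ) = 1
      simp
    rw [sum_congr rfl h3]
    simp
  rw [h1, h2] at hJ
  linarith

end Pool.Agent.X257.AE
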