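import Pool.Agent.Results.MP_157626_nt.TwistedPencilTails
import Pool.Agent.X257.AE.Log

/-!
# Pencils of elliptic curves with full 2-torsion: data, and the tails as a density
-/

set_option autoImplicit false

open Finset Polynomial Filter MeasureTheory

namespace Pool.Agent.X257.AE

instance countable_poly : Countable ℤ[X] := by
  have h : Function.Injective (fun p : ℤ[X] =>
      (⟨p.natDegree, fun i : Fin (p.natDegree + 1) => p.coeff i⟩ : Σ n : ℕ, (Fin (n + 1) → ℤ))) := by
    intro p q h
    simp only [Sigma.mk.injEq] at h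
    obtain ⟨h1, h2⟩ := h
    ext i
    by_cases hi : i < p.natDegree + 1
    · have h3 : ∀ (n m : ℕ) (f : Fin (n + 1) → ℤ) (g : Fin (m + 1) → ℤ), n = m → HEq f g →
          ∀ (h : i < n + 1) (h' : i < m + 1), f ⟨i, h⟩ = g ⟨i, h'⟩ := by
        rintro n m f g rfl hfg h h'
        rw [eq_of_heq hfg]
      exact h3 _ _ _ _ h1 h2 hi (by omega)
    · rw [coeff_eq_zero_of_natDegree_lt (by omega), coeff_eq_zero_of_natDegree_lt (by omega)]
  exact h.countable

end Pool.Agent.X257.AE
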