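import Pool.Agent.X257.AE.Mean

/-!
# Functions of bounded mean: single values, and the means of the square roots
-/

set_option autoImplicit false

open Finset MeasureTheory Filter Topology

namespace Pool.Agent.X257.AE

theorem av_le {b : ℕ} (hb : 2 ≤ b) {K : ℤ} {f : ℤ → ℝ} {p : ℝ} {M0 : ℕ} (hB : Avg f p M0) {n : ℕ}
    (hn : 2 * (M0 + K.natAbs + 2) ≤ n) : av K b n f ≤ p := by
  have h1 := fcond_av hb hn le_rfl hB le_rfl (fun _ => (1 : ℝ)) (fun _ => zero_le_one)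
  rw [av_one (by omega), mul_one] at h1
  refine le_trans (le_of_eq ?_) h1
  congr 1
  funext u
  simp

/-- **Single values.** -/
theorem ae_point {f : ℤ → ℝ} (hf : ∀ u, 0 ≤ f u) {p : ℝ} {M0 : ℕ} (hB : Avg f p M0)
    (y : ℕ → ℝ) (hy : ∀ n, 1 ≤ n → 0 < y n) (hs : Summable (fun n => 1 / y n)) :
    ∀ᵐ α : ℝ, ∀ b : ℕ, 2 ≤ b → ∀ᶠ n : ℕ in atTop, f (pre b n α) ≤ y n := by
  classical
  have h1 : ∀ᵐ α : ℝ, ∀ b : ℕ, 2 ≤ b → ∀ K : ℤ, α ∈ Set.Ico (K : ℝ) (K + 1) →
      ∀ᶠ n : ℕ in atTop, f (pre b n α) ≤ y n := by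
    rw [ae_all_iff]
    intro b
    by_cases hb : 2 ≤ b
    swap
    · exact Eventually.of_forall fun α h => absurd h hb
    simp only [hb, forall_true_left]
    rw [ae_all_iff]
    intro K
    set m := 2 * (M0 + K.natAbs + 2) with hm
    set s : ℕ → Set ℝ := fun n => if n < m then ∅ else
      {α : ℝ | α ∈ Set.Ico (K : ℝ) (K + 1) ∧ y n < f (pre b n α)} with hsdef
    have hp := avg_nonneg hf hB
    have hmeas : ∀ n, volume (s n) ≤ ENNReal.ofReal (p * |1 / y n|) := by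
      intro n
      by_cases hn : n < m
      · have : s n = ∅ := if_pos hn
        rw [this, measure_empty]
        exact zero_le
      · have h2 : s n = {α : ℝ | α ∈ Set.Ico (K : ℝ) (K + 1) ∧ y n < f (pre b n α)} := if_neg hn
        push Not at hn
        have hyn : 0 < y n := hy n (by omega)
        rw [h2]
        refine (vol_le (by omega) n K (fun u => y n < f u)).trans (ENNReal.ofReal_le_ofReal ?_)
        have h3 := av_le hb hB hn
        unfold av at h3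
        have hbr : (0 : ℝ) < (b : ℝ) ^ n := by positivity
        have h4 : (((box K b n).filter (fun u => y n < f u)).card : ℝ) * y n ≤
            ∑ u ∈ box K b n, f u := by
          rw [← nsmul_eq_mul]
          refine le_trans (card_nsmul_le_sum _ _ _ fun u hu => (mem_filter.1 hu).2.le) ?_
          exact sum_le_sum_of_subset_of_nonneg (filter_subset _ _) fun u _ _ => hf u
        have h5 : ((((box K b n).filter (fun u => y n < f u)).card : ℝ) / (b : ℝ) ^ n) * y n ≤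
            p := by
          refine le_trans ?_ h3
          rw [div_mul_eq_mul_div]
          exact div_le_div_of_nonneg_right h4 hbr.le
        rw [← le_div_iff₀ hyn] at h5
        rw [abs_of_pos (by positivity), mul_one_div]
        exact h5
    have hsum : ∑' n, volume (s n) ≠ ⊤ := by
      have hsm : Summable (fun n : ℕ => p * |1 / y n|) := (hs.abs).mul_left p
      refine ne_top_of_le_ne_top (hsm.tsum_ofReal_ne_top) ?_
      exact ENNReal.tsum_le_tsum hmeas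
    filter_upwards [ae_eventually_notMem hsum] with α hα hK
    filter_upwards [hα, eventually_ge_atTop m] with n hn hnm
    by_contra hc
    push Not at hc
    apply hn
    have h2 : s n = {α : ℝ | α ∈ Set.Ico (K : ℝ) (K + 1) ∧ y n < f (pre b n α)} :=
      if_neg (by omega)
    rw [h2]
    exact ⟨hK, hc⟩
  filter_upwards [h1] with α hα b hb
  exact hα b hb ⌊α⌋ ⟨Int.floor_le α, Int.lt_floor_add_one α⟩

/-- single values at most `n ^ (1 + ε)` -/
theorem ae_point_rpow {f : ℤ → ℝ} (hf : ∀ u, 0 ≤ f u) {p : ℝ} {M0 : ℕ} (hB : Avg f p M0) :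
    ∀ᵐ α : ℝ, ∀ b : ℕ, 2 ≤ b → ∀ ε : ℝ, 0 < ε → ∀ᶠ n : ℕ in atTop,
      f (pre b n α) ≤ (n : ℝ) ^ (1 + ε) := by
  have h1 : ∀ᵐ α : ℝ, ∀ j : ℕ, ∀ b : ℕ, 2 ≤ b → ∀ᶠ n : ℕ in atTop,
      f (pre b n α) ≤ (n : ℝ) ^ (1 + 1 / ((j : ℝ) + 1)) := by
    rw [ae_all_iff]
    intro j
    refine ae_point hf hB _ (fun n hn => ?_) ?_
    · have : (0 : ℝ) < n := by exact_mod_cast hn
      positivity
    · refine Real.summable_one_div_nat_rpow.2 ?_
      have : (0 : ℝ) < 1 / ((j : ℝ) + 1) := by positivity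
      linarith
  filter_upwards [h1] with α hα b hb ε hε
  obtain ⟨j, hj⟩ := exists_nat_one_div_lt hε
  filter_upwards [hα j b hb, eventually_ge_atTop 1] with n hn hn1
  refine hn.trans (Real.rpow_le_rpow_of_exponent_le (by exact_mod_cast hn1) ?_)
  linarith

/-- the means of the square roots -/
theorem avg_sqrt {g : ℤ → ℝ} (hg : ∀ u, 0 ≤ g u) {p : ℝ} {M0 : ℕ} (hB : Avg g p M0) :
    Avg (fun u => Real.sqrt (g u)) (1 + p) M0 := by
  intro N M hM hN
  have h1 := hB N M hM hN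
  have h2 : ∀ t ∈ Ioc N (N + M), Real.sqrt (g t) ≤ 1 + g t := by
    intro t _
    rw [Real.sqrt_le_left (by linarith [hg t])]
    nlinarith [hg t]
  refine (sum_le_sum h2).trans ?_
  rw [sum_add_distrib, sum_const, Int.card_Ioc, nsmul_eq_mul, mul_one]
  have h3 : ((N + M - N).toNat : ℝ) = M := by
    rw [add_sub_cancel_left, Int.toNat_natCast]
  rw [h3]
  linarith

theorem avg_sqrt_sq {g : ℤ → ℝ} (hg : ∀ u, 0 ≤ g u) {p : ℝ} {M0 : ℕ} (hB : Avg g p M0) :
    Avg (fun u => Real.sqrt (g u) ^ 2) p M0 := by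
  intro N M hM hN
  refine le_trans (le_of_eq ?_) (hB N M hM hN)
  exact sum_congr rfl fun t _ => Real.sq_sqrt (hg t)

/-- logarithmic means of the square roots -/
theorem ae_sqrt {g : ℤ → ℝ} (hg : ∀ u, 0 ≤ g u) {p : ℝ} {M0 : ℕ} (hB : Avg g p M0) :
    ∀ᵐ α : ℝ, ∀ b : ℕ, 2 ≤ b → ∀ ε : ℝ, 0 < ε → ∀ᶠ x : ℕ in atTop,
      ∑ n ∈ Icc 1 x, Real.sqrt (g (pre b n α)) / (n : ℝ) ≤ (1 + p + ε) * Real.log x :=
  ae_flog (f := fun u => Real.sqrt (g u)) (fun u => Real.sqrt_nonneg _) (avg_sqrt hg hB)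
    (avg_sqrt_sq hg hB)

/-- means of the square roots along a sparse sequence of levels -/
theorem ae_sqrt_seq {g : ℤ → ℝ} (hg : ∀ u, 0 ≤ g u) {p : ℝ} {M0 : ℕ} (hB : Avg g p M0)
    (n : ℕ → ℕ) (h0 : 1 ≤ n 0) (hn : ∀ k, 2 * n k ≤ n (k + 1)) :
    ∀ᵐ α : ℝ, ∀ b : ℕ, 2 ≤ b → ∀ ε : ℝ, 0 < ε → ∀ᶠ J : ℕ in atTop,
      ∑ j ∈ range J, Real.sqrt (g (pre b (n j) α)) ≤ (1 + p + ε) * J :=
  ae_fseq (f := fun u => Real.sqrt (g u)) (fun u => Real.sqrt_nonneg _) (avg_sqrt hg hB)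
    (avg_sqrt_sq hg hB) n h0 hn

end Pool.Agent.X257.AE
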