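import Pool.Agent.X257.AE.Rat

/-!
# The good rational approximations of almost every real number
-/

set_option autoImplicit false

open Finset MeasureTheory Filter Topology

namespace Pool.Agent.X257.AE

theorem mem_Pr_of {α : ℝ} {c j : ℕ} {u v : ℤ} (h : IsCoprime u v) (h1 : (2 : ℤ) ^ j < v)
    (h2 : v ≤ 2 ^ (j + 1)) (h3 : |α - u / v| ≤ c / (v : ℝ) ^ 2) :
    (u, v) ∈ Pr c j (pre 4 j α) := by
  refine mem_Pr.2 ⟨⟨h1, h2⟩, h, ?_⟩
  set w := pre 4 j α with hw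
  have hv : (0 : ℝ) < v := by
    have : (0 : ℤ) < v := lt_trans (by positivity) h1
    exact_mod_cast this
  have hvj : (2 : ℝ) ^ j ≤ v := by exact_mod_cast h1.le
  have h4 : |α * (4 : ℝ) ^ j - w| ≤ 1 := by
    have e1 : (w : ℝ) ≤ α * (4 : ℝ) ^ j := by
      have := Int.floor_le (α * ((4 : ℕ) : ℝ) ^ j)
      push_cast at this
      exact this
    have e2 : α * (4 : ℝ) ^ j < w + 1 := by
      have := Int.lt_floor_add_one (α * ((4 : ℕ) : ℝ) ^ j)
      push_cast at this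
      exact this
    rw [abs_le]
    constructor <;> linarith
  have h5 : |(4 : ℝ) ^ j * u - w * v| ≤ (c + 1) * v := by
    have e1 : (4 : ℝ) ^ j * u - w * v = -(4 ^ j * v * (α - u / v)) + (α * 4 ^ j - w) * v := by
      field_simp
      ring
    rw [e1]
    refine (abs_add_le _ _).trans ?_
    rw [abs_neg, abs_mul ((4 : ℝ) ^ j * v) _, abs_of_pos (by positivity : (0 : ℝ) < 4 ^ j * v),
      abs_mul (α * 4 ^ j - w) _, abs_of_pos hv]
    have h6 : (4 : ℝ) ^ j * v * |α - u / v| ≤ c * v := by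
      calc (4 : ℝ) ^ j * v * |α - u / v| ≤ 4 ^ j * v * (c / (v : ℝ) ^ 2) :=
            mul_le_mul_of_nonneg_left h3 (by positivity)
        _ = 4 ^ j * c / v := by field_simp
        _ ≤ c * v := by
          rw [div_le_iff₀ hv]
          have h7 : (4 : ℝ) ^ j ≤ v * v := by
            have : (4 : ℝ) ^ j = 2 ^ j * 2 ^ j := by rw [← mul_pow]; norm_num
            rw [this]
            exact mul_le_mul hvj hvj (by positivity) hv.le
          have h8 : (0 : ℝ) ≤ c := Nat.cast_nonneg c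
          nlinarith
    have h7 : |α * 4 ^ j - w| * (v : ℝ) ≤ 1 * v := mul_le_mul_of_nonneg_right h4 hv.le
    linarith
  have h6 : ((|4 ^ j * u - w * v| : ℤ) : ℝ) ≤ (((c + 1) * v : ℤ) : ℝ) := by
    push_cast
    exact h5
  exact_mod_cast h6

theorem Cond.mono_fun {b : ℕ} {K : ℤ} {R : ℕ} {f g : ℕ → ℤ → ℝ} {p : ℝ} {m0 : ℕ}
    (h : Cond b K R f p m0) {A : ℝ} (hA : 0 ≤ A) (hg : ∀ i w, g i w ≤ A * f i w) :
    Cond b K R g (A * p) m0 := by
  intro m i h1 h2 v hv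
  refine (sum_le_sum fun w _ => hg i w).trans ?_
  rw [← mul_sum, mul_assoc]
  exact mul_le_mul_of_nonneg_left (h m i h1 h2 v hv) hA

theorem Cond.mono_lev {b : ℕ} {K : ℤ} {R : ℕ} {f : ℕ → ℤ → ℝ} {p : ℝ} {m0 m1 : ℕ}
    (h : Cond b K R f p m0) (hm : m0 ≤ m1) : Cond b K R f p m1 :=
  fun m i h1 h2 v hv => h m i (hm.trans h1) h2 v hv

theorem boxAvg_sqrt {F : ℤ × ℤ → ℝ} (hF : ∀ t, 0 ≤ F t) {p : ℝ} {X0 : ℕ} (hB : BoxAvg F p X0) :
    BoxAvg (fun t => Real.sqrt (F t)) (1 + p) X0 := by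
  intro X U V hX hU hV
  have h1 := hB X U V hX hU hV
  have h2 : ∀ t ∈ Ioc U (U + X) ×ˢ Ioc V (V + X), Real.sqrt (F t) ≤ 1 + F t := by
    intro t _
    rw [Real.sqrt_le_left (by linarith [hF t])]
    nlinarith [hF t]
  refine (sum_le_sum h2).trans ?_
  rw [sum_add_distrib, sum_const, card_product, Int.card_Ioc, Int.card_Ioc, nsmul_eq_mul, mul_one]
  have h3 : ((((U + X - U).toNat * (V + X - V).toNat : ℕ)) : ℝ) = (X : ℝ) ^ 2 := by
    rw [add_sub_cancel_left, add_sub_cancel_left, Int.toNat_natCast]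
    push_cast
    ring
  rw [h3]
  linarith

theorem ae_approx {F : ℤ × ℤ → ℝ} (hF : ∀ t, 0 ≤ F t) {p : ℝ} (hp : 0 ≤ p) {X0 : ℕ}
    (hB : BoxAvg F p X0) (K : ℤ) (c : ℕ) :
    ∃ C : ℝ, 0 ≤ C ∧ ∀ᵐ α : ℝ, α ∈ Set.Ico (K : ℝ) (K + 1) →
      (∀ᶠ J : ℕ in atTop, ∑ j ∈ Icc 1 J,
        lf (fun t => Real.sqrt (F t)) c j (pre 4 j α) / (j : ℝ) ≤ C * Real.log J) ∧
      ∀ ε : ℝ, 0 < ε → ∀ᶠ j : ℕ in atTop, lf F c j (pre 4 j α) ≤ (j : ℝ) ^ (1 + ε) := by
  obtain ⟨p1, hp1, m1, h1⟩ := cond_lf (fun t => Real.sqrt_nonneg (F t)) (by positivity : 0 ≤ 1 + p)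
    (boxAvg_sqrt hF hB) K c
  obtain ⟨p2, hp2, m2, h2⟩ := cond_lf hF hp hB K c
  have h3 : Cond 4 K 4 (fun j w => lf (fun t => Real.sqrt (F t)) c j w ^ 2) ((8 * c + 9 : ℝ) * p2) m2 := by
    refine h2.mono_fun (by positivity) fun j w => ?_
    refine (lf_sq_le c j w).trans (le_of_eq ?_)
    congr 1
    unfold lf
    exact sum_congr rfl fun t _ => Real.sq_sqrt (hF t)
  refine ⟨2 * (p1 + 1), by positivity, ?_⟩
  have h4 := ae_lev (f := lf (fun t => Real.sqrt (F t)) c)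
    (fun j w => lf_nonneg (fun t => Real.sqrt_nonneg (F t)) c j w) (by norm_num : 2 ≤ 4) hp1
    (by positivity) (h1.mono_lev (le_max_left m1 m2)) (h3.mono_lev (le_max_right m1 m2))
  have h5 : ∀ᵐ α : ℝ, ∀ r : ℕ, α ∈ Set.Ico (K : ℝ) (K + 1) → ∀ᶠ j : ℕ in atTop,
      lf F c j (pre 4 j α) ≤ (j : ℝ) ^ (1 + 1 / ((r : ℝ) + 1)) := by
    rw [ae_all_iff]
    intro r
    refine ae_lev_point (f := lf F c) (fun j w => lf_nonneg hF c j w) (by norm_num) hp2 h2 _
      (fun n hn => ?_) ?_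
    · have : (0 : ℝ) < n := by exact_mod_cast hn
      positivity
    · refine Real.summable_one_div_nat_rpow.2 ?_
      have : (0 : ℝ) < 1 / ((r : ℝ) + 1) := by positivity
      linarith
  filter_upwards [h4, h5] with α hα hα' hK
  refine ⟨hα hK, fun ε hε => ?_⟩
  obtain ⟨r, hr⟩ := exists_nat_one_div_lt hε
  filter_upwards [hα' r hK, eventually_ge_atTop 1] with n hn hn1
  refine hn.trans (Real.rpow_le_rpow_of_exponent_le (by exact_mod_cast hn1) ?_)
  linarith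

/-- the rational numbers `t` with denominator `v`, `2 ≤ v ≤ Q`, and `|α - t| ≤ c / v²` -/
def Ap (α : ℝ) (c Q : ℕ) : Set ℚ :=
  {t | 2 ≤ t.den ∧ t.den ≤ Q ∧ |α - t| ≤ c / (t.den : ℝ) ^ 2}

/-- numerator and denominator -/
def nd (t : ℚ) : ℤ × ℤ := (t.num, (t.den : ℤ))

theorem nd_inj : Function.Injective nd := by
  intro t t' h
  unfold nd at h
  rw [Prod.mk.injEq] at h
  exact Rat.ext h.1 (by exact_mod_cast h.2)

theorem nd_mem {α : ℝ} {c : ℕ} {t : ℚ} (h1 : 2 ≤ t.den) (h2 : |α - t| ≤ c / (t.den : ℝ) ^ 2) :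
    ∃ j : ℕ, 2 ^ j < t.den ∧ t.den ≤ 2 ^ (j + 1) ∧ nd t ∈ Pr c j (pre 4 j α) := by
  set j := Nat.log 2 (t.den - 1) with hj
  have h3 : 2 ^ j ≤ t.den - 1 := Nat.pow_log_le_self 2 (by omega)
  have h4 : t.den - 1 < 2 ^ (j + 1) := Nat.lt_pow_succ_log_self (by norm_num) _
  refine ⟨j, by omega, by omega, mem_Pr_of ?_ ?_ ?_ ?_⟩
  · rw [Int.isCoprime_iff_gcd_eq_one]
    exact t.reduced
  · have : 2 ^ j < t.den := by omega
    exact_mod_cast this
  · have : t.den ≤ 2 ^ (j + 1) := by omega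
    exact_mod_cast this
  · have h5 : ((t.num : ℝ)) / ((t.den : ℤ) : ℝ) = (t : ℝ) := by
      rw [Int.cast_natCast]
      exact_mod_cast Rat.num_div_den t
    rw [h5, Int.cast_natCast]
    exact h2

theorem sum_ap_le {G : ℤ × ℤ → ℝ} (hG : ∀ t, 0 ≤ G t) (α : ℝ) (c : ℕ) {Q J : ℕ}
    (hQ : Q < 2 ^ (J + 1)) :
    ∑ᶠ t ∈ Ap α c Q, G (nd t) / Real.log t.den ≤
      (lf G c 0 (pre 4 0 α) + ∑ j ∈ Icc 1 J, lf G c j (pre 4 j α) / (j : ℝ)) / Real.log 2 := by
  classical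
  set T : Finset (ℤ × ℤ) := (range (J + 1)).biUnion (fun j => Pr c j (pre 4 j α)) with hT
  have hl2 : 0 < Real.log 2 := Real.log_pos (by norm_num)
  have hmaps : ∀ t ∈ Ap α c Q, nd t ∈ T := by
    rintro t ⟨h1, h2, h3⟩
    obtain ⟨j, h4, h5, h6⟩ := nd_mem h1 h3
    rw [hT, mem_biUnion]
    refine ⟨j, ?_, h6⟩
    rw [mem_range]
    have : 2 ^ j < 2 ^ (J + 1) := by omega
    exact (Nat.pow_lt_pow_iff_right (by norm_num)).1 this
  have hfin : (Ap α c Q).Finite :=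
    Set.Finite.of_injOn (f := nd) (t := (T : Set (ℤ × ℤ))) (fun t ht => mem_coe.2 (hmaps t ht))
      nd_inj.injOn T.finite_toSet
  rw [finsum_mem_eq_finite_toFinset_sum _ hfin]
  set g : ℤ × ℤ → ℝ := fun x => G x / Real.log (x.2 : ℝ) with hg
  have hg0 : ∀ x, 0 ≤ g x := fun x => div_nonneg (hG x) (Real.log_intCast_nonneg x.2)
  have h1 : ∑ t ∈ hfin.toFinset, G (nd t) / Real.log t.den = ∑ x ∈ hfin.toFinset.image nd, g x := by
    rw [sum_image nd_inj.injOn]
    refine sum_congr rfl fun t _ => ?_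
    rw [hg]
    unfold nd
    simp
  rw [h1]
  have h2 : ∑ x ∈ hfin.toFinset.image nd, g x ≤ ∑ x ∈ T, g x := by
    refine sum_le_sum_of_subset_of_nonneg (fun x hx => ?_) fun x _ _ => hg0 x
    obtain ⟨t, ht, rfl⟩ := mem_image.1 hx
    exact hmaps t (hfin.mem_toFinset.1 ht)
  refine h2.trans ((sum_biUnion_le' _ _ hg0).trans ?_)
  have h3 : range (J + 1) = insert 0 (Icc 1 J) := by
    ext i
    rw [mem_range, mem_insert, mem_Icc]
    omega
  rw [h3, sum_insert (by simp), add_div, sum_div]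
  refine add_le_add ?_ (sum_le_sum fun j hj => ?_)
  · unfold lf
    rw [sum_div]
    refine sum_le_sum fun x hx => ?_
    obtain ⟨⟨h4, h5⟩, -⟩ := mem_Pr.1 hx
    have h6 : x.2 = 2 := by
      norm_num at h4 h5
      omega
    rw [hg]
    simp only
    rw [h6]
    norm_num
  · have hj1 : 1 ≤ j := (mem_Icc.1 hj).1
    have hjr : (0 : ℝ) < j := by exact_mod_cast hj1
    unfold lf
    rw [sum_div, sum_div]
    refine sum_le_sum fun x hx => ?_
    obtain ⟨⟨h4, h5⟩, -⟩ := mem_Pr.1 hx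
    rw [div_div]
    refine div_le_div_of_nonneg_left (hG x) (by positivity) ?_
    have h6 : (2 : ℝ) ^ j ≤ x.2 := by exact_mod_cast h4.le
    have h7 := Real.log_le_log (by positivity) h6
    rwa [Real.log_pow] at h7

/-- **The rational approximations.** -/
theorem ae_ap {F : ℤ × ℤ → ℝ} (hF : ∀ t, 0 ≤ F t) {p : ℝ} (hp : 0 ≤ p) {X0 : ℕ}
    (hB : BoxAvg F p X0) (K : ℤ) (c : ℕ) :
    ∃ C : ℝ, 0 ≤ C ∧ ∀ᵐ α : ℝ, α ∈ Set.Ico (K : ℝ) (K + 1) →
      (∀ᶠ Q : ℕ in atTop, ∑ᶠ t ∈ Ap α c Q, Real.sqrt (F (nd t)) / Real.log t.den ≤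
        C * Real.log (Real.log Q)) ∧
      ∀ ε : ℝ, 0 < ε → ∃ Q : ℕ, ∀ t : ℚ, Q ≤ t.den → |α - t| ≤ c / (t.den : ℝ) ^ 2 →
        F (nd t) ≤ (Real.log t.den) ^ (1 + ε) := by
  obtain ⟨C, hC, h⟩ := ae_approx hF hp hB K c
  refine ⟨2 * C + 1, by positivity, ?_⟩
  have hl2 : 0 < Real.log 2 := Real.log_pos (by norm_num)
  have hl2'' : 0.6931471803 < Real.log 2 := Real.log_two_gt_d9
  have hl2' : Real.log 2 < 0.6931471808 := Real.log_two_lt_d9
  filter_upwards [h] with α hα hK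
  obtain ⟨h1, h2⟩ := hα hK
  constructor
  · obtain ⟨J0, hJ0⟩ := h1.exists_forall_of_atTop
    have hlog : Tendsto (fun x : ℕ => Real.log (Real.log (x : ℝ))) atTop atTop :=
      Real.tendsto_log_atTop.comp (Real.tendsto_log_atTop.comp tendsto_natCast_atTop_atTop)
    set A := lf (fun t => Real.sqrt (F t)) c 0 (pre 4 0 α) with hA
    have hA0 : 0 ≤ A := lf_nonneg (fun t => Real.sqrt_nonneg (F t)) c 0 _
    filter_upwards [hlog.eventually_ge_atTop (2 * A + 2 * C), eventually_ge_atTop (2 ^ (J0 + 1))]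
      with Q hQ1 hQ2
    set J := Nat.log 2 Q with hJ
    have hQ0 : Q ≠ 0 := by
      have : 0 < 2 ^ (J0 + 1) := by positivity
      omega
    have hJJ : J0 + 1 ≤ J := Nat.le_log_of_pow_le (by norm_num) hQ2
    have h3 := sum_ap_le (G := fun t => Real.sqrt (F t)) (fun t => Real.sqrt_nonneg (F t)) α c
      (Nat.lt_pow_succ_log_self (by norm_num) Q : Q < 2 ^ (Nat.log 2 Q + 1))
    have h4 := hJ0 J (by omega)
    refine h3.trans ?_
    rw [div_le_iff₀ hl2]
    have hJr : (0 : ℝ) < J := by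
      have : 0 < J := by omega
      exact_mod_cast this
    have h5 : (J : ℝ) * Real.log 2 ≤ Real.log Q := by
      have h8 : 2 ^ Nat.log 2 Q ≤ Q := Nat.pow_log_le_self 2 hQ0
      have h9 : ((2 : ℝ)) ^ Nat.log 2 Q ≤ Q := by exact_mod_cast h8
      have h10 := Real.log_le_log (by positivity) h9
      rwa [Real.log_pow] at h10
    have h6 : Real.log J ≤ Real.log (Real.log Q) + 1 := by
      have h7 := Real.log_le_log (by positivity) h5
      rw [Real.log_mul hJr.ne' hl2.ne'] at h7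
      have h8 : -1 ≤ Real.log (Real.log 2) := by
        have h9 : Real.exp (-1) ≤ Real.log 2 := by
          have h10 := Real.exp_neg_one_lt_d9
          linarith
        have h10 := Real.log_le_log (Real.exp_pos _) h9
        rwa [Real.log_exp] at h10
      linarith
    have h7 : A + ∑ j ∈ Icc 1 J, lf (fun t => Real.sqrt (F t)) c j (pre 4 j α) / (j : ℝ) ≤
        A + C * (Real.log (Real.log Q) + 1) := by
      have := mul_le_mul_of_nonneg_left h6 hC
      linarith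
    refine h7.trans ?_
    set L := Real.log (Real.log Q) with hL
    have h8 : (2 * C + 1) * L * Real.log 2 ≥ (2 * C + 1) * L * 0.69 := by
      refine mul_le_mul_of_nonneg_left (by linarith) ?_
      have : 0 ≤ L := by linarith
      positivity
    have hL0 : 0 ≤ L := by linarith
    nlinarith [mul_nonneg hC hL0]
  · intro ε hε
    obtain ⟨j0, hj0⟩ := (h2 (ε / 2) (by positivity)).exists_forall_of_atTop
    have hlim : Tendsto (fun x : ℕ => (Real.log (x : ℝ)) ^ (ε / 2)) atTop atTop :=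
      (tendsto_rpow_atTop (by positivity)).comp
        (Real.tendsto_log_atTop.comp tendsto_natCast_atTop_atTop)
    obtain ⟨Q1, hQ1⟩ := (hlim.eventually_ge_atTop ((2 : ℝ) ^ (1 + ε / 2))).exists_forall_of_atTop
    have hp2 : 0 < 2 ^ j0 := by positivity
    refine ⟨Q1 + 2 ^ (j0 + 1) + 3, fun t ht1 ht2 => ?_⟩
    obtain ⟨j, h3, h4, h5⟩ := nd_mem (by omega : 2 ≤ t.den) ht2
    have hj : j0 ≤ j := by
      have : 2 ^ (j0 + 1) < 2 ^ (j + 1) := by omega
      have := (Nat.pow_lt_pow_iff_right (by norm_num)).1 this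
      omega
    have h6 : F (nd t) ≤ lf F c j (pre 4 j α) :=
      single_le_sum (f := F) (fun x _ => hF x) h5
    refine h6.trans ((hj0 j hj).trans ?_)
    have hden : (2 : ℝ) ^ j ≤ t.den := by exact_mod_cast h3.le
    have h7 := Real.log_le_log (by positivity) hden
    rw [Real.log_pow] at h7
    have hd3 : (3 : ℝ) ≤ t.den := by
      have : 3 ≤ t.den := by omega
      exact_mod_cast this
    have hlp : 0 < Real.log t.den := Real.log_pos (by linarith)
    have h8 : (j : ℝ) ≤ 2 * Real.log t.den := by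
      have : (0 : ℝ) ≤ j := Nat.cast_nonneg j
      nlinarith
    have h9 : (j : ℝ) ^ (1 + ε / 2) ≤ (2 * Real.log t.den) ^ (1 + ε / 2) :=
      Real.rpow_le_rpow (Nat.cast_nonneg j) h8 (by positivity)
    refine h9.trans ?_
    rw [Real.mul_rpow (by norm_num) hlp.le]
    have h10 : (Real.log t.den) ^ (1 + ε) =
        (Real.log t.den) ^ (ε / 2) * (Real.log t.den) ^ (1 + ε / 2) := by
      rw [← Real.rpow_add hlp]
      congr 1
      ring
    rw [h10]
    exact mul_le_mul_of_nonneg_right (hQ1 t.den (by omega)) (by positivity)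

end Pool.Agent.X257.AE
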