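import Pool.Agent.X257.AE.Fun

/-!
# Logarithmic means, all the moments, and the consequence for the single values
-/

set_option autoImplicit false

open Finset MeasureTheory Filter Topology

namespace Pool.Agent.X257.AE

/-- bounded logarithmic means of all the moments give `f ≤ n ^ ε` -/
theorem point_le {F : ℕ → ℝ} (hF : ∀ n, 0 ≤ F n) (C : ℕ → ℝ)
    (h : ∀ k : ℕ, 1 ≤ k → ∀ ε : ℝ, 0 < ε → ∀ᶠ x : ℕ in atTop,
      ∑ n ∈ Icc 1 x, F n ^ k / (n : ℝ) ≤ (C k + ε) * Real.log x) {ε : ℝ} (hε : 0 < ε) :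
    ∀ᶠ n : ℕ in atTop, F n ≤ (n : ℝ) ^ ε := by
  obtain ⟨k, hk⟩ := exists_nat_gt (3 / ε)
  have hk1 : 1 ≤ k := by
    rcases Nat.eq_zero_or_pos k with rfl | h1
    · exfalso
      have : 0 < 3 / ε := by positivity
      simp at hk
      linarith
    · exact h1
  have hC : ∀ᶠ n : ℕ in atTop, C k + 1 ≤ (n : ℝ) := by
    obtain ⟨m, hm⟩ := exists_nat_gt (C k + 1)
    filter_upwards [eventually_ge_atTop m] with n hn
    have : (m : ℝ) ≤ n := by exact_mod_cast hn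
    linarith
  filter_upwards [h k hk1 1 one_pos, eventually_ge_atTop 1, hC] with n h1 h2 h3
  have hn : (0 : ℝ) < n := by exact_mod_cast h2
  have hn1 : (1 : ℝ) ≤ n := by exact_mod_cast h2
  have h4 : F n ^ k / (n : ℝ) ≤ (C k + 1) * Real.log n := by
    refine le_trans ?_ h1
    exact single_le_sum (f := fun m : ℕ => F m ^ k / (m : ℝ))
      (fun m _ => div_nonneg (pow_nonneg (hF m) k) (Nat.cast_nonneg m)) (mem_Icc.2 ⟨h2, le_rfl⟩)
  have h5 : Real.log n ≤ n := (Real.log_le_sub_one_of_pos hn).trans (by linarith)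
  have h6 : 0 ≤ Real.log n := Real.log_natCast_nonneg n
  rw [div_le_iff₀ hn] at h4
  have h7 : F n ^ k ≤ (n : ℝ) ^ (3 : ℕ) := by
    refine h4.trans ?_
    calc (C k + 1) * Real.log n * n ≤ n * n * n := by
          apply mul_le_mul_of_nonneg_right _ hn.le
          calc (C k + 1) * Real.log n ≤ n * Real.log n := mul_le_mul_of_nonneg_right h3 h6
            _ ≤ n * n := mul_le_mul_of_nonneg_left h5 hn.le
      _ = (n : ℝ) ^ 3 := by ring
  have h8 : (n : ℝ) ^ (3 : ℕ) ≤ ((n : ℝ) ^ ε) ^ k := by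
    rw [← Real.rpow_natCast, ← Real.rpow_natCast, ← Real.rpow_mul hn.le]
    refine Real.rpow_le_rpow_of_exponent_le hn1 ?_
    rw [div_lt_iff₀ hε] at hk
    push_cast
    linarith
  exact le_of_pow_le_pow_left₀ (by omega) (by positivity) (h7.trans h8)

/-- all the moments -/
theorem ae_moments {f : ℤ → ℝ} (hf : ∀ u, 0 ≤ f u) (C : ℕ → ℝ) {M0 : ℕ}
    (h : ∀ k, 1 ≤ k → Avg (fun u => f u ^ k) (C k) M0) :
    ∀ᵐ α : ℝ, ∀ b : ℕ, 2 ≤ b → (∀ k : ℕ, 1 ≤ k → ∀ ε : ℝ, 0 < ε → ∀ᶠ x : ℕ in atTop,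
      ∑ n ∈ Icc 1 x, f (pre b n α) ^ k / (n : ℝ) ≤ (C k + ε) * Real.log x) ∧
      ∀ ε : ℝ, 0 < ε → ∀ᶠ n : ℕ in atTop, f (pre b n α) ≤ (n : ℝ) ^ ε := by
  have h1 : ∀ᵐ α : ℝ, ∀ k : ℕ, 1 ≤ k → ∀ b : ℕ, 2 ≤ b → ∀ ε : ℝ, 0 < ε → ∀ᶠ x : ℕ in atTop,
      ∑ n ∈ Icc 1 x, f (pre b n α) ^ k / (n : ℝ) ≤ (C k + ε) * Real.log x := by
    rw [ae_all_iff]
    intro k
    by_cases hk : 1 ≤ k
    · simp only [hk, forall_true_left]
      refine ae_flog (f := fun u => f u ^ k) (fun u => pow_nonneg (hf u) k) (h k hk)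
        (q := C (k * 2)) (M0 := M0) ?_
      have h2 := h (k * 2) (by omega)
      simp only [pow_mul] at h2
      exact h2
    · exact Eventually.of_forall fun α h => absurd h hk
  filter_upwards [h1] with α hα b hb
  refine ⟨fun k hk => hα k hk b hb, fun ε hε => ?_⟩
  exact point_le (F := fun n => f (pre b n α)) (fun n => hf _) C (fun k hk => hα k hk b hb) hε

/-- all the moments, along a sparse sequence of levels -/
theorem ae_moments_seq {f : ℤ → ℝ} (hf : ∀ u, 0 ≤ f u) (C : ℕ → ℝ) {M0 : ℕ}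
    (h : ∀ k, 1 ≤ k → Avg (fun u => f u ^ k) (C k) M0) (n : ℕ → ℕ) (h0 : 1 ≤ n 0)
    (hn : ∀ k, 2 * n k ≤ n (k + 1)) :
    ∀ᵐ α : ℝ, ∀ b : ℕ, 2 ≤ b → ∀ k : ℕ, 1 ≤ k → ∀ ε : ℝ, 0 < ε → ∀ᶠ J : ℕ in atTop,
      ∑ j ∈ range J, f (pre b (n j) α) ^ k ≤ (C k + ε) * J := by
  have h1 : ∀ᵐ α : ℝ, ∀ k : ℕ, 1 ≤ k → ∀ b : ℕ, 2 ≤ b → ∀ ε : ℝ, 0 < ε → ∀ᶠ J : ℕ in atTop,
      ∑ j ∈ range J, f (pre b (n j) α) ^ k ≤ (C k + ε) * J := by
    rw [ae_all_iff]
    intro k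
    by_cases hk : 1 ≤ k
    · simp only [hk, forall_true_left]
      refine ae_fseq (f := fun u => f u ^ k) (fun u => pow_nonneg (hf u) k) (h k hk)
        (q := C (k * 2)) (M0 := M0) ?_ n h0 hn
      have h2 := h (k * 2) (by omega)
      simp only [pow_mul] at h2
      exact h2
    · exact Eventually.of_forall fun α h => absurd h hk
  filter_upwards [h1] with α hα b hb k hk
  exact hα k hk b hb

end Pool.Agent.X257.AE
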