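import Pool.Agent.X257.AE.BoxBad

/-!
# Weighted moments over short squares for the families given by split binary forms
-/

set_option autoImplicit false

open Finset

namespace Pool.Agent.X257.AE.BT

open Pool.Agent.W262.RK Pool.Agent.W307.RT Pool.Agent.W307.SE Pool.Agent.TH344.DT
  Pool.Agent.TH344.JG Pool.Agent.TH344.BF Pool.Agent.TH344.SG Pool.Agent.TH344.GT

theorem sum_Ioc_shift (f : ℤ × ℤ → ℝ) (U V : ℤ) (X : ℕ) :
    ∑ t ∈ Ioc U (U + X) ×ˢ Ioc V (V + X), f t = ∑ t ∈ Icc 1 X ×ˢ Icc 1 X,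
      f (U + ((t : ℕ × ℕ).1 : ℤ), V + (t.2 : ℤ)) := by
  symm
  apply sum_bij (fun (t : ℕ × ℕ) _ => (U + (t.1 : ℤ), V + (t.2 : ℤ)))
  · intro t ht
    rw [mem_product, mem_Icc, mem_Icc] at ht
    rw [mem_product, mem_Ioc, mem_Ioc]
    dsimp only
    omega
  · intro t _ t' _ h
    obtain ⟨h1, h2⟩ := Prod.mk.inj h
    exact Prod.ext (by omega) (by omega)
  · intro t ht
    rw [mem_product, mem_Ioc, mem_Ioc] at ht
    refine ⟨((t.1 - U).toNat, (t.2 - V).toNat), ?_, ?_⟩
    · rw [mem_product, mem_Icc, mem_Icc]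
      dsimp only
      omega
    · apply Prod.ext
      · dsimp only
        omega
      · dsimp only
        omega
  · intro t _
    rfl

variable {n : ℕ}

/-- the weighted moments over short squares -/
theorem box_w (F : Fam n) {k : ℕ} (hk : 1 ≤ k) :
    ∃ T : Finset (Fin 3 × Fin n → ℝ), (∀ t ∈ T, ∀ j, 0 < t j) ∧ (∀ t ∈ T, 1 < ∏ j, t j) ∧
      ∃ C : ℝ, 0 ≤ C ∧ BoxAvg (WBl F.l F.m F.a k T) C 1 := by
  classical
  have hA := avgb
  have hM := mafk
  obtain ⟨l, m, a, n0, hn, hm, ha, hl, hF⟩ := F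
  dsimp only
  obtain ⟨q, hq⟩ := exists_q l (ne_zero_of l hl)
  set α : Fin 3 × Fin n → ℤ := fun j => (l j).1 + (q : ℤ) * (l j).2 with hα
  set β : Fin 3 × Fin n → ℤ := fun j => (l j).2 with hβ
  have hcls : ∀ j, cl n j ≠ 3 := by
    intro j
    unfold cl
    exact (Fin.castSucc_lt_last j.1).ne
  have hres : ∀ j j', j ≠ j' → Res α β j j' ≠ 0 := by
    intro j j' hj
    have h1 := hl j j' hj
    unfold Res
    intro h2
    apply h1
    rw [hα, hβ] at h2
    linear_combination h2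
  have hcard : ∀ k : Fin 3, (fc (cl n) k).card = n := by
    intro k
    rw [fc_cl, card_image_of_injective _ (fun i j h => (Prod.mk.inj h).2), card_univ,
      Fintype.card_fin]
  have hkap : ∀ j, kapM (cl n) a m α β j ≠ 0 := by
    intro j
    unfold kapM
    refine mul_ne_zero ?_ (mul_ne_zero (ha _) (prod_ne_zero_iff.2 fun l' hl' => ?_))
    · unfold sgM
      split_ifs <;> norm_num
    · apply pow_ne_zero
      apply hres
      intro h
      subst h
      have h1 := (mem_filter.1 hl').2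
      unfold cl at h1
      rcases j with ⟨k, i⟩
      have h2 : k = cpM k.castSucc := Fin.castSucc_injective _ h1
      revert h2
      unfold cpM
      fin_cases k <;> simp
  obtain ⟨T, hT1, hT2, hT3⟩ := mafk_cl hM n0 hk (kapM (cl n) a m α β) hkap
  obtain ⟨C, hC0, hC⟩ := hA (Fin 3 × Fin n) (cl n) a m α β hcls ha (fun j => (hm j).pos) hq hres
    hkap (fun k => by
      rw [Finset.even_sum_iff_even_card_odd, filter_true_of_mem (fun j _ => hm j), hcard]
      exact hn) (fun j => Or.inl (hm j)) (fun u v => by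
        rw [hα, hβ, FM_cl, FM_cl, FM_cl]; exact hF _ _) k T hT1 hT3 5
  refine ⟨T, hT1, hT2, C * (q + 1) ^ 2, by positivity, fun X U V hX hU hV => ?_⟩
  set X' := (q + 1) * X with hX'
  set V' := V - q * U - q * X with hV'
  have hXX' : X ≤ X' := by rw [hX']; nlinarith
  have h1 : ∑ t ∈ Ioc U (U + X) ×ˢ Ioc V (V + X), WBl l m a k T t ≤
      ∑ s ∈ Ioc U (U + X') ×ˢ Ioc V' (V' + X'), WB (cl n) a m α β k T s := by
    have h2 : ∀ t : ℤ × ℤ, WBl l m a k T t = WB (cl n) a m α β k T (t.1, t.2 - q * t.1) := by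
      intro t
      rw [← WBl_eq]
      congr 1
      exact Prod.ext rfl (by ring)
    calc ∑ t ∈ Ioc U (U + X) ×ˢ Ioc V (V + X), WBl l m a k T t
        = ∑ t ∈ Ioc U (U + X) ×ˢ Ioc V (V + X), WB (cl n) a m α β k T (t.1, t.2 - q * t.1) :=
          sum_congr rfl fun t _ => h2 t
      _ = ∑ s ∈ (Ioc U (U + (X : ℤ)) ×ˢ Ioc V (V + (X : ℤ))).image
            (fun t : ℤ × ℤ => (t.1, t.2 - q * t.1)), WB (cl n) a m α β k T s := by
          rw [sum_image]
          intro t _ t' _ h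
          obtain ⟨h3, h4⟩ := Prod.mk.inj h
          rw [h3] at h4
          exact Prod.ext h3 (by linarith)
      _ ≤ _ := by
          apply sum_le_sum_of_subset_of_nonneg
          · intro s hs
            rw [mem_image] at hs
            obtain ⟨t, ht, rfl⟩ := hs
            rw [mem_product, mem_Ioc, mem_Ioc] at ht ⊢
            obtain ⟨⟨a1, a2⟩, a3, a4⟩ := ht
            dsimp only
            have h5 : (q : ℤ) * t.1 ≤ q * (U + X) :=
              mul_le_mul_of_nonneg_left a2 (Int.natCast_nonneg q)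
            have h6 : (q : ℤ) * U ≤ q * t.1 :=
              mul_le_mul_of_nonneg_left a1.le (Int.natCast_nonneg q)
            have h7 : ((X' : ℕ) : ℤ) = q * X + X := by rw [hX']; push_cast; ring
            have h8 : (0 : ℤ) ≤ q * X := by positivity
            refine ⟨⟨a1, by rw [h7]; linarith⟩, ?_, ?_⟩
            · rw [hV']; nlinarith
            · rw [hV', h7]; linarith
          · intro s _ _
            unfold WB
            split_ifs
            · exact mul_nonneg (by positivity) (rho_nonneg hT1 _)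
            · exact le_rfl
  have hX1 : (1 : ℤ) ≤ X := by exact_mod_cast hX
  have hq0 : (0 : ℤ) ≤ q := Int.natCast_nonneg q
  have hpow : (X : ℤ) ^ 4 ≤ (X' : ℤ) ^ 5 := by
    have h5 : (X : ℤ) ≤ X' := by exact_mod_cast hXX'
    calc (X : ℤ) ^ 4 ≤ (X : ℤ) ^ 5 := pow_le_pow_right₀ hX1 (by norm_num)
      _ ≤ _ := pow_le_pow_left₀ (by linarith) h5 5
  have hU' : U.natAbs ≤ X' ^ 5 := by
    have h5 := hU.trans hpow
    rw [Int.abs_eq_natAbs] at h5
    exact_mod_cast h5
  have hV'' : V'.natAbs ≤ X' ^ 5 := by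
    have h4 : (X : ℤ) ≤ (X : ℤ) ^ 4 := le_self_pow₀ hX1 (by norm_num)
    have h5 : |V'| ≤ (2 * q + 1) * (X : ℤ) ^ 4 := by
      have e1 : |V'| ≤ |V| + |(q : ℤ) * U| + |(q : ℤ) * X| := by
        rw [hV']
        have := abs_sub (V - q * U) ((q : ℤ) * X)
        have := abs_sub V ((q : ℤ) * U)
        linarith
      rw [abs_mul, abs_mul, Nat.abs_cast, Nat.abs_cast] at e1
      have e2 : (q : ℤ) * |U| ≤ q * (X : ℤ) ^ 4 := mul_le_mul_of_nonneg_left hU hq0
      have e3 : (q : ℤ) * X ≤ q * (X : ℤ) ^ 4 := mul_le_mul_of_nonneg_left h4 hq0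
      linarith
    have h6 : (2 * q + 1 : ℤ) * (X : ℤ) ^ 4 ≤ (X' : ℤ) ^ 5 := by
      have e1 : ((X' : ℕ) : ℤ) ^ 5 = (q + 1) ^ 5 * (X : ℤ) ^ 5 := by rw [hX']; push_cast; ring
      rw [e1]
      have e2 : (2 * q + 1 : ℤ) ≤ (q + 1) ^ 5 := by
        have e3 : (2 * q + 1 : ℤ) ≤ (q + 1) ^ 2 := by nlinarith
        exact e3.trans (pow_le_pow_right₀ (by linarith) (by norm_num))
      exact mul_le_mul e2 (pow_le_pow_right₀ hX1 (by norm_num)) (by positivity) (by positivity)
    have h7 := h5.trans h6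
    rw [Int.abs_eq_natAbs] at h7
    exact_mod_cast h7
  have h3 := hC U V' X' (by omega) hU' hV''
  rw [sum_Ioc_shift (WB (cl n) a m α β k T)] at h1
  refine h1.trans (h3.trans (le_of_eq ?_))
  rw [hX']
  push_cast
  ring

end Pool.Agent.X257.AE.BT
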