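import Mathlib
import Pool.Agent.W307.RT.Tors

/-!
# The universal curve with torsion group `Z/2 x Z/6`
-/

set_option autoImplicit false

namespace Pool.Agent.X257.AE.T26

open WeierstrassCurve.Affine

/-- the curve `y² = x (x - A) (x - B)` -/
def W (A B : ℤ) : WeierstrassCurve ℚ := ⟨0, -((A : ℚ) + B), 0, (A : ℚ) * B, 0⟩

lemma nonsing {A B : ℤ} (hA : A ≠ 0) (hB : B ≠ 0) (hAB : A ≠ B) {x y : ℚ}
    (h : y ^ 2 = x * (x - A) * (x - B)) : (W A B).toAffine.Nonsingular x y := by
  rw [WeierstrassCurve.Affine.nonsingular_iff, WeierstrassCurve.Affine.equation_iff]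
  refine ⟨?_, ?_⟩
  · simp only [W]
    linear_combination h
  · simp only [W]
    by_contra hcon
    push Not at hcon
    obtain ⟨h1, h2⟩ := hcon
    have hA' : (A : ℚ) ≠ 0 := by exact_mod_cast hA
    have hB' : (B : ℚ) ≠ 0 := by exact_mod_cast hB
    have hAB' : (A : ℚ) - B ≠ 0 := sub_ne_zero.2 (by exact_mod_cast hAB)
    have hy : y = 0 := by linarith
    have h3 : 3 * x ^ 2 - 2 * ((A : ℚ) + B) * x + A * B = 0 := by linarith
    rw [hy] at h
    have h4 : x * (x - A) * (x - B) = 0 := by rw [← h]; ring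
    rcases mul_eq_zero.1 h4 with h5 | h5
    · rcases mul_eq_zero.1 h5 with h6 | h6
      · rw [h6] at h3
        exact mul_ne_zero hA' hB' (by linarith)
      · have h7 : x = A := by linarith
        rw [h7] at h3
        exact mul_ne_zero hA' hAB' (by linear_combination h3)
    · have h7 : x = B := by linarith
      rw [h7] at h3
      exact mul_ne_zero hB' hAB' (by linear_combination -h3)

lemma two_tors {A B : ℤ} {x : ℚ} (h : (W A B).toAffine.Nonsingular x 0) :
    addOrderOf (Point.some x 0 h) = 2 := by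
  have : Fact (Nat.Prime 2) := ⟨Nat.prime_two⟩
  apply addOrderOf_eq_prime
  · rw [two_nsmul]
    apply Point.add_self_of_Y_eq
    simp [W, negY]
  · exact Point.some_ne_zero h

lemma three_tors {A B : ℤ} {x y l : ℚ} (h : (W A B).toAffine.Nonsingular x y) (hy : y ≠ 0)
    (hl : 2 * l * y = 3 * x ^ 2 - 2 * (A + B) * x + A * B) (hl2 : l ^ 2 = 3 * x - (A + B)) :
    addOrderOf (Point.some x y h) = 3 := by
  have : Fact (Nat.Prime 3) := ⟨Nat.prime_three⟩
  have hy' : y ≠ (W A B).toAffine.negY x y := by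
    simp only [W, negY]
    intro hcon
    apply hy
    linarith
  have hs : (W A B).toAffine.slope x x y y = l := by
    rw [slope_of_Y_ne rfl hy']
    simp only [W, negY]
    rw [div_eq_iff (by intro hcon; apply hy; linarith)]
    linear_combination -hl
  have hadd := Point.add_self_of_Y_ne (h₁ := h) hy'
  have hX : x = (W A B).toAffine.addX x x ((W A B).toAffine.slope x x y y) := by
    rw [hs]
    simp only [W, addX]
    linear_combination -hl2
  have h2 : Point.some x y h + Point.some x y h = -Point.some x y h := by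
    rcases (Point.X_eq_iff (h₁ := h)
      (h₂ := nonsingular_add h h fun hxy => hy' hxy.right)).1 hX with h3 | h3
    · exfalso
      rw [← hadd] at h3
      have h4 : Point.some x y h = 0 := by
        have := congrArg (fun P => P - Point.some x y h) h3
        simpa using this.symm
      exact Point.some_ne_zero h h4
    · rw [← hadd] at h3
      have h5 := congrArg Neg.neg h3
      rw [neg_neg] at h5
      exact h5.symm
  apply addOrderOf_eq_prime
  · rw [show (3 : ℕ) = 2 + 1 by norm_num, add_nsmul, two_nsmul, h2, one_nsmul]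
    simp
  · exact Point.some_ne_zero h

/-- **the torsion** -/
theorem tors26 {a b A B : ℤ} (hAa : A = -(a ^ 3 * (a + 2 * b))) (hBb : B = -(b ^ 3 * (2 * a + b)))
    (hA : A ≠ 0) (hB : B ≠ 0) (hAB : A ≠ B) :
    ∃ f : ZMod 2 × ZMod 6 →+ (W A B).toAffine.Point, Function.Injective f := by
  rw [← Pool.Agent.W307.RT.tors_iff]
  have ha : (a : ℚ) ≠ 0 := by
    intro h
    have h' : a = 0 := by exact_mod_cast h
    apply hA
    rw [hAa, h']
    ring
  have hb : (b : ℚ) ≠ 0 := by
    intro h
    have h' : b = 0 := by exact_mod_cast h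
    apply hB
    rw [hBb, h']
    ring
  have hab : (a : ℚ) + b ≠ 0 := by
    intro h
    have h' : a = -b := by
      have : a + b = 0 := by exact_mod_cast h
      linarith
    apply hAB
    rw [hAa, hBb, h']
    ring
  have hAq : (A : ℚ) = -(a ^ 3 * (a + 2 * b)) := by rw [hAa]; push_cast; ring
  have hBq : (B : ℚ) = -(b ^ 3 * (2 * a + b)) := by rw [hBb]; push_cast; ring
  have n1 : (W A B).toAffine.Nonsingular 0 0 := nonsing hA hB hAB (by ring)
  have n2 : (W A B).toAffine.Nonsingular (A : ℚ) 0 := nonsing hA hB hAB (by ring)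
  have n3 : (W A B).toAffine.Nonsingular ((a : ℚ) ^ 2 * b ^ 2) ((a : ℚ) ^ 2 * b ^ 2 * (a + b) ^ 2) :=
    nonsing hA hB hAB (by rw [hAq, hBq]; ring)
  have o1 := two_tors n1
  have o2 := two_tors n2
  have o3 := three_tors (l := (a : ℚ) ^ 2 + a * b + b ^ 2) n3 (by positivity) (by
    rw [hAq, hBq]; ring) (by rw [hAq, hBq]; ring)
  set T2 := Point.some 0 0 n1 with hT2
  set Q := Point.some (A : ℚ) 0 n2 with hQ
  set T3 := Point.some ((a : ℚ) ^ 2 * b ^ 2) ((a : ℚ) ^ 2 * b ^ 2 * (a + b) ^ 2) n3 with hT3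
  refine ⟨T3 + T2, Q, ?_, o2, ?_⟩
  · rw [(AddCommute.all T3 T2).addOrderOf_add_eq_mul_addOrderOf_of_coprime (by
      rw [o1, o3]; norm_num), o1, o3]
  · intro hmem
    rw [AddSubgroup.mem_zmultiples_iff] at hmem
    obtain ⟨k, hk⟩ := hmem
    have h3 : (3 : ℤ) • T3 = 0 := by
      have := addOrderOf_nsmul_eq_zero T3
      rw [o3] at this
      exact_mod_cast this
    have h2 : (2 : ℤ) • T2 = 0 := by
      have := addOrderOf_nsmul_eq_zero T2
      rw [o1] at this
      exact_mod_cast this
    have hQ2 : (2 : ℤ) • Q = 0 := by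
      have := addOrderOf_nsmul_eq_zero Q
      rw [o2] at this
      exact_mod_cast this
    have h4 : Q = k • T2 := by
      have a1 : Q = (3 : ℤ) • Q := by
        rw [show (3 : ℤ) = 2 + 1 by norm_num, add_zsmul, hQ2, one_zsmul, zero_add]
      have a2 : (3 : ℤ) • (k • (T3 + T2)) = k • T2 := by
        rw [zsmul_add, zsmul_add, zsmul_comm, h3, zsmul_zero, zero_add, zsmul_comm]
        rw [show (3 : ℤ) = 2 + 1 by norm_num, add_zsmul, h2, one_zsmul, zero_add]
      rw [a1, ← hk, a2]
    have hne : Q ≠ T2 := by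
      rw [hQ, hT2]
      intro hcon
      rw [Point.some.injEq] at hcon
      apply hA
      exact_mod_cast hcon.1
    have hQ0 : Q ≠ 0 := Point.some_ne_zero _
    rcases Int.even_or_odd' k with ⟨j, hj | hj⟩
    · apply hQ0
      rw [h4, hj, mul_comm, mul_zsmul, h2, zsmul_zero]
    · apply hne
      rw [h4, hj, add_zsmul, mul_comm, mul_zsmul, h2, zsmul_zero, one_zsmul, zero_add]

end Pool.Agent.X257.AE.T26
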