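import Pool.Agent.X257.AE.Log

/-!
# Sets of density zero in short intervals
-/

set_option autoImplicit false

open Finset MeasureTheory Filter Topology

namespace Pool.Agent.X257.AE

open Classical in
theorem ae_log_zero {B : Set ℤ} (hB : ∀ ε : ℝ, 0 < ε → ∃ M0 : ℕ, Dens B ε M0) :
    ∀ᵐ α : ℝ, ∀ b : ℕ, 2 ≤ b → ∀ ε : ℝ, 0 < ε → ∀ᶠ x : ℕ in atTop,
      ∑ n ∈ (Icc 1 x).filter (fun n => pre b n α ∈ B), 1 / (n : ℝ) ≤ ε * Real.log x := by
  have h1 : ∀ᵐ α : ℝ, ∀ j : ℕ, ∀ b : ℕ, 2 ≤ b → ∀ ε : ℝ, 0 < ε → ∀ᶠ x : ℕ in atTop,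
      ∑ n ∈ (Icc 1 x).filter (fun n => pre b n α ∈ B), 1 / (n : ℝ) ≤
        (1 / ((j : ℝ) + 1) + ε) * Real.log x := by
    rw [ae_all_iff]
    intro j
    obtain ⟨M0, hM0⟩ := hB (1 / ((j : ℝ) + 1)) (by positivity)
    exact ae_log hM0
  filter_upwards [h1] with α hα b hb ε hε
  obtain ⟨j, hj⟩ := exists_nat_one_div_lt (show (0 : ℝ) < ε / 2 by positivity)
  filter_upwards [hα j b hb (ε / 2) (by positivity)] with x hx
  refine hx.trans (mul_le_mul_of_nonneg_right ?_ (Real.log_natCast_nonneg x))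
  linarith

open Classical in
theorem ae_seq_zero {B : Set ℤ} (hB : ∀ ε : ℝ, 0 < ε → ∃ M0 : ℕ, Dens B ε M0) (n : ℕ → ℕ)
    (h0 : 1 ≤ n 0) (hn : ∀ k, 2 * n k ≤ n (k + 1)) :
    ∀ᵐ α : ℝ, ∀ b : ℕ, 2 ≤ b → ∀ ε : ℝ, 0 < ε → ∀ᶠ J : ℕ in atTop,
      (((range J).filter (fun k => pre b (n k) α ∈ B)).card : ℝ) ≤ ε * J := by
  have h1 : ∀ᵐ α : ℝ, ∀ j : ℕ, ∀ b : ℕ, 2 ≤ b → ∀ ε : ℝ, 0 < ε → ∀ᶠ J : ℕ in atTop,
      (((range J).filter (fun k => pre b (n k) α ∈ B)).card : ℝ) ≤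
        (1 / ((j : ℝ) + 1) + ε) * J := by
    rw [ae_all_iff]
    intro j
    obtain ⟨M0, hM0⟩ := hB (1 / ((j : ℝ) + 1)) (by positivity)
    exact ae_seq hM0 n h0 hn
  filter_upwards [h1] with α hα b hb ε hε
  obtain ⟨j, hj⟩ := exists_nat_one_div_lt (show (0 : ℝ) < ε / 2 by positivity)
  filter_upwards [hα j b hb (ε / 2) (by positivity)] with x hx
  refine hx.trans (mul_le_mul_of_nonneg_right ?_ (Nat.cast_nonneg x))
  linarith

open Classical in
theorem logzero_mono {S T : ℕ → Prop} (h : ∀ᶠ n in atTop, S n → T n)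
    (hT : ∀ ε : ℝ, 0 < ε → ∀ᶠ x : ℕ in atTop,
      ∑ n ∈ (Icc 1 x).filter T, 1 / (n : ℝ) ≤ ε * Real.log x) {ε : ℝ} (hε : 0 < ε) :
    ∀ᶠ x : ℕ in atTop, ∑ n ∈ (Icc 1 x).filter S, 1 / (n : ℝ) ≤ ε * Real.log x := by
  obtain ⟨n0, hn0⟩ := h.exists_forall_of_atTop
  have hlog : Tendsto (fun x : ℕ => Real.log (x : ℝ)) atTop atTop :=
    Real.tendsto_log_atTop.comp tendsto_natCast_atTop_atTop
  filter_upwards [hT (ε / 2) (by positivity), hlog.eventually_ge_atTop (2 * n0 / ε)] with x h1 h2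
  rw [div_le_iff₀ hε] at h2
  have h3 : (Icc 1 x).filter S ⊆ range n0 ∪ (Icc 1 x).filter T := by
    intro i hi
    rw [mem_filter] at hi
    rw [mem_union, mem_range, mem_filter]
    rcases lt_or_ge i n0 with h4 | h4
    · exact Or.inl h4
    · exact Or.inr ⟨hi.1, hn0 i h4 hi.2⟩
  have h5 : ∑ n ∈ (Icc 1 x).filter S, 1 / (n : ℝ) ≤
      ∑ n ∈ range n0, 1 / (n : ℝ) + ∑ n ∈ (Icc 1 x).filter T, 1 / (n : ℝ) := by
    refine (sum_le_sum_of_subset_of_nonneg h3 fun _ _ _ => by positivity).trans ?_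
    rw [← sum_union_inter]
    have : 0 ≤ ∑ n ∈ range n0 ∩ (Icc 1 x).filter T, 1 / (n : ℝ) :=
      sum_nonneg fun _ _ => by positivity
    linarith
  have h6 : ∑ n ∈ range n0, 1 / (n : ℝ) ≤ n0 := by
    have h7 : ∀ n ∈ range n0, 1 / (n : ℝ) ≤ 1 := by
      intro n _
      rcases Nat.eq_zero_or_pos n with rfl | hn
      · simp
      · rw [div_le_one (by exact_mod_cast hn)]
        exact_mod_cast hn
    refine (sum_le_sum h7).trans ?_
    simp
  linarith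

open Classical in
theorem zero_mono {S T : ℕ → Prop} (h : ∀ᶠ n in atTop, S n → T n)
    (hT : ∀ ε : ℝ, 0 < ε → ∀ᶠ x : ℕ in atTop,
      (((range x).filter T).card : ℝ) ≤ ε * x) {ε : ℝ} (hε : 0 < ε) :
    ∀ᶠ x : ℕ in atTop, (((range x).filter S).card : ℝ) ≤ ε * x := by
  obtain ⟨n0, hn0⟩ := h.exists_forall_of_atTop
  have hlog : Tendsto (fun x : ℕ => (x : ℝ)) atTop atTop := tendsto_natCast_atTop_atTop
  filter_upwards [hT (ε / 2) (by positivity), hlog.eventually_ge_atTop (2 * n0 / ε)] with x h1 h2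
  rw [div_le_iff₀ hε] at h2
  have h3 : (range x).filter S ⊆ range n0 ∪ (range x).filter T := by
    intro i hi
    rw [mem_filter] at hi
    rw [mem_union, mem_range, mem_filter]
    rcases lt_or_ge i n0 with h4 | h4
    · exact Or.inl h4
    · exact Or.inr ⟨hi.1, hn0 i h4 hi.2⟩
  have h5 : ((range x).filter S).card ≤ n0 + ((range x).filter T).card := by
    refine (card_le_card h3).trans ((card_union_le _ _).trans ?_)
    rw [card_range]
  have h6 : (((range x).filter S).card : ℝ) ≤ n0 + ((range x).filter T).card := by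
    exact_mod_cast h5
  linarith

/-- the size of the prefix -/
theorem log_pre_ge {α : ℝ} (hα : α ≠ 0) {b : ℕ} (hb : 2 ≤ b) : ∀ᶠ n : ℕ in atTop,
    Real.log 2 / 2 * n ≤ Real.log (2 + |(pre b n α : ℝ)|) := by
  have hl2 : 0 < Real.log 2 := Real.log_pos (by norm_num)
  have hα' : 0 < |α| := abs_pos.2 hα
  have hlin : ∀ᶠ n : ℕ in atTop, -Real.log |α| ≤ Real.log 2 / 2 * n := by
    obtain ⟨m, hm⟩ := exists_nat_gt (-Real.log |α| / (Real.log 2 / 2))
    filter_upwards [eventually_ge_atTop m] with n hn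
    rw [div_lt_iff₀ (by positivity)] at hm
    have : (m : ℝ) ≤ n := by exact_mod_cast hn
    nlinarith
  filter_upwards [hlin] with n hn
  have hbr : (0 : ℝ) < (b : ℝ) ^ n := by positivity
  have h1 : |α| * (b : ℝ) ^ n ≤ 2 + |(pre b n α : ℝ)| := by
    have h2 : |α * (b : ℝ) ^ n - pre b n α| ≤ 1 := by
      unfold pre
      rw [abs_le]
      constructor
      · linarith [Int.floor_le (α * (b : ℝ) ^ n)]
      · linarith [Int.lt_floor_add_one (α * (b : ℝ) ^ n)]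
    have h3 : |α| * (b : ℝ) ^ n = |α * (b : ℝ) ^ n| := by
      rw [abs_mul, abs_of_pos hbr]
    rw [h3]
    have h4 := abs_sub_abs_le_abs_sub (α * (b : ℝ) ^ n) (pre b n α : ℝ)
    linarith
  have h5 := Real.log_le_log (by positivity) h1
  rw [Real.log_mul hα'.ne' hbr.ne', Real.log_pow] at h5
  have h6 : Real.log 2 ≤ Real.log b := Real.log_le_log (by norm_num) (by exact_mod_cast hb)
  have h7 : (n : ℝ) * Real.log 2 ≤ n * Real.log b :=
    mul_le_mul_of_nonneg_left h6 (Nat.cast_nonneg n)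
  linarith

end Pool.Agent.X257.AE
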