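import Pool.Agent.X257.AE.Approx

/-!
# Sets of coprime pairs of density zero in squares, and the good rational approximations
-/

set_option autoImplicit false

open Finset MeasureTheory Filter Topology

namespace Pool.Agent.X257.AE

open Classical in
/-- indicator function -/
noncomputable def indP (B : Set (ℤ × ℤ)) (t : ℤ × ℤ) : ℝ := if t ∈ B then 1 else 0

theorem indP_nonneg (B : Set (ℤ × ℤ)) (t : ℤ × ℤ) : 0 ≤ indP B t := by
  unfold indP
  split_ifs <;> norm_num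

theorem indP_sq (B : Set (ℤ × ℤ)) (t : ℤ × ℤ) : indP B t ^ 2 = indP B t := by
  unfold indP
  split_ifs <;> norm_num

theorem ae_ap_zero {B : Set (ℤ × ℤ)} (hB : ∀ ε : ℝ, 0 < ε → ∃ X0 : ℕ, BoxAvg (indP B) ε X0)
    (c : ℕ) : ∀ᵐ α : ℝ, ∀ ε : ℝ, 0 < ε → ∀ᶠ Q : ℕ in atTop,
      ∑ᶠ t ∈ Ap α c Q, indP B (nd t) / Real.log t.den ≤ ε * Real.log (Real.log Q) := by
  have hl2 : 0 < Real.log 2 := Real.log_pos (by norm_num)
  have hl2'' : 0.6931471803 < Real.log 2 := Real.log_two_gt_d9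
  have hl2' : Real.log 2 < 0.6931471808 := Real.log_two_lt_d9
  set A : ℤ → ℝ := fun K => (2 * c + 3 : ℝ) * (2 * ((2 * (c + 2) + K.natAbs + 1 : ℕ) : ℝ) + 2)
    with hA
  have hA0 : ∀ K, 0 < A K := fun K => by rw [hA]; positivity
  have h1 : ∀ᵐ α : ℝ, ∀ K : ℤ, ∀ r : ℕ, α ∈ Set.Ico (K : ℝ) (K + 1) → ∀ ε : ℝ, 0 < ε →
      ∀ᶠ x : ℕ in atTop, ∑ i ∈ Icc 1 x, lf (indP B) c i (pre 4 i α) / (i : ℝ) ≤
        (2 * (A K * (1 / ((r : ℝ) + 1))) + 2 * ε) * Real.log x := by
    rw [ae_all_iff]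
    intro K
    rw [ae_all_iff]
    intro r
    obtain ⟨X0, hX0⟩ := hB (1 / ((r : ℝ) + 1)) (by positivity)
    obtain ⟨m0, hm0⟩ := cond_lf_lin (indP_nonneg B) hX0 K c
    have e1 : (2 * c + 3 : ℝ) * ((2 * ((2 * (c + 2) + K.natAbs + 1 : ℕ) : ℝ) + 2) *
        (1 / ((r : ℝ) + 1))) = A K * (1 / ((r : ℝ) + 1)) := by
      rw [hA]
      ring
    rw [e1] at hm0
    have h3 : Cond 4 K 4 (fun j w => lf (indP B) c j w ^ 2)
        ((8 * c + 9 : ℝ) * (A K * (1 / ((r : ℝ) + 1)))) m0 := by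
      refine hm0.mono_fun (by positivity) fun j w => ?_
      refine (lf_sq_le c j w).trans (le_of_eq ?_)
      congr 1
      unfold lf
      exact sum_congr rfl fun t _ => indP_sq B t
    have hAK := hA0 K
    exact ae_lev_eps (f := lf (indP B) c) (fun j w => lf_nonneg (indP_nonneg B) c j w)
      (by norm_num : 2 ≤ 4) (by positivity) (by positivity) hm0 h3
  filter_upwards [h1] with α hα ε hε
  set K := ⌊α⌋ with hK
  obtain ⟨r, hr⟩ := exists_nat_one_div_lt (show (0 : ℝ) < ε / (16 * A K) by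
    have := hA0 K
    positivity)
  have hAr : A K * (1 / ((r : ℝ) + 1)) ≤ ε / 16 := by
    have h2 := mul_le_mul_of_nonneg_left hr.le (hA0 K).le
    refine h2.trans (le_of_eq ?_)
    have := (hA0 K).ne'
    field_simp
  obtain ⟨J0, hJ0⟩ := (hα K r ⟨Int.floor_le α, Int.lt_floor_add_one α⟩ (ε / 16)
    (by positivity)).exists_forall_of_atTop
  have hlog : Tendsto (fun x : ℕ => Real.log (Real.log (x : ℝ))) atTop atTop :=
    Real.tendsto_log_atTop.comp (Real.tendsto_log_atTop.comp tendsto_natCast_atTop_atTop)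
  set A0 := lf (indP B) c 0 (pre 4 0 α) with hA0'
  have hA00 : 0 ≤ A0 := lf_nonneg (indP_nonneg B) c 0 _
  filter_upwards [hlog.eventually_ge_atTop (4 * A0 / ε + 1), eventually_ge_atTop (2 ^ (J0 + 1))]
    with Q hQ1 hQ2
  set J := Nat.log 2 Q with hJ
  have hQ0 : Q ≠ 0 := by
    have : 0 < 2 ^ (J0 + 1) := by positivity
    omega
  have hJJ : J0 + 1 ≤ J := Nat.le_log_of_pow_le (by norm_num) hQ2
  have h3 := sum_ap_le (G := indP B) (indP_nonneg B) α c
    (Nat.lt_pow_succ_log_self (by norm_num) Q : Q < 2 ^ (Nat.log 2 Q + 1))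
  have h4 := hJ0 J (by omega)
  refine h3.trans ?_
  rw [div_le_iff₀ hl2]
  have hJr : (0 : ℝ) < J := by
    have : 0 < J := by omega
    exact_mod_cast this
  have h5 : (J : ℝ) * Real.log 2 ≤ Real.log Q := by
    have h8 : 2 ^ Nat.log 2 Q ≤ Q := Nat.pow_log_le_self 2 hQ0
    have h9 : ((2 : ℝ)) ^ Nat.log 2 Q ≤ Q := by exact_mod_cast h8
    have h10 := Real.log_le_log (by positivity) h9
    rwa [Real.log_pow] at h10
  have h6 : Real.log J ≤ Real.log (Real.log Q) + 1 := by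
    have h7 := Real.log_le_log (by positivity) h5
    rw [Real.log_mul hJr.ne' hl2.ne'] at h7
    have h8 : -1 ≤ Real.log (Real.log 2) := by
      have h9 : Real.exp (-1) ≤ Real.log 2 := by
        have h10 := Real.exp_neg_one_lt_d9
        linarith
      have h10 := Real.log_le_log (Real.exp_pos _) h9
      rwa [Real.log_exp] at h10
    linarith
  have hJ1 : (0 : ℝ) ≤ Real.log J := Real.log_natCast_nonneg J
  set L := Real.log (Real.log Q) with hL
  have h7 : (2 * (A K * (1 / ((r : ℝ) + 1))) + 2 * (ε / 16)) * Real.log J ≤ ε / 4 * (L + 1) := by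
    have h8 : (2 * (A K * (1 / ((r : ℝ) + 1))) + 2 * (ε / 16)) ≤ ε / 4 := by linarith
    exact mul_le_mul h8 h6 hJ1 (by positivity)
  have h8 : A0 + ∑ j ∈ Icc 1 J, lf (indP B) c j (pre 4 j α) / (j : ℝ) ≤ A0 + ε / 4 * (L + 1) := by
    linarith
  refine h8.trans ?_
  have h9 : 4 * A0 ≤ ε * (L - 1) := by
    have h10 : 4 * A0 / ε ≤ L - 1 := by linarith
    rw [div_le_iff₀ hε] at h10
    linarith
  have hL1 : 1 ≤ L := by
    have : 0 ≤ 4 * A0 / ε := by positivity
    linarith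
  have h10 : ε * L * 0.69 ≤ ε * L * Real.log 2 := by
    refine mul_le_mul_of_nonneg_left (by linarith) ?_
    positivity
  nlinarith

end Pool.Agent.X257.AE
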