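import Pool.Agent.TH344.BF.Main
import Pool.Agent.TH841.PM.Bad
import Pool.Agent.X257.AE.ApproxZero

/-!
# Pairs in short squares at which a linear form has an unusual number of prime factors
-/

set_option autoImplicit false

open Finset

namespace Pool.Agent.X257.AE.BT

open Pool.Agent.TH841.PM.BADf (Ex mem_Ex normal')

/-- values of a linear form in one variable with an unusual number of prime factors -/
theorem one_d {a s : ℤ} (ha : a ≠ 0) {A : ℕ} (hA : |a| + 1 ≤ A) (U : ℤ) {X : ℕ} (hX : 1 ≤ X)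
    (δ : ℝ) :
    ((Ioc U (U + X)).filter (fun u => a * u + s ≠ 0 ∧ δ * Real.log (Real.log ((2 * A * X : ℕ) : ℝ)) <
      |((a * u + s).natAbs.primeFactors.card : ℝ) -
        Real.log (Real.log ((2 * A * X : ℕ) : ℝ))|)).card ≤
      (Ex Polynomial.X (a * U + s - A * X) (2 * A * X) δ).card := by
  refine card_le_card_of_injOn (fun u => a * u + s) ?_ ?_
  · intro u hu
    obtain ⟨h1, h2, h3⟩ := mem_filter.1 (mem_coe.1 hu)
    rw [mem_Ioc] at h1
    have h4 : |a * (u - U)| ≤ (A - 1 : ℤ) * X := by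
      rw [abs_mul]
      have h5 : |u - U| ≤ (X : ℤ) := by rw [abs_le]; constructor <;> linarith
      exact mul_le_mul (by linarith) h5 (abs_nonneg _) (by have := abs_nonneg a; linarith)
    rw [abs_le] at h4
    have hX1 : (1 : ℤ) ≤ X := by exact_mod_cast hX
    rw [mem_coe, mem_Ex, mem_Ioc]
    refine ⟨⟨?_, ?_⟩, by rw [Polynomial.eval_X]; exact h2, by rw [Polynomial.eval_X]; exact h3⟩
    · show a * U + s - A * X < a * u + s
      nlinarith [h4.1]
    · show a * u + s ≤ a * U + s - A * X + ((2 * A * X : ℕ) : ℤ)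
      push_cast
      nlinarith [h4.2]
  · intro u _ u' _ h
    have h' : a * u + s = a * u' + s := h
    exact mul_left_cancel₀ ha (add_right_cancel h')

/-- size of the left end -/
theorem base_le {a b : ℤ} {A : ℕ} (hA : |a| + |b| + 1 ≤ A) {U v : ℤ} {X : ℕ} (hX : 1 ≤ X)
    (hU : |U| ≤ (X : ℤ) ^ 4) (hv : |v| ≤ 2 * (X : ℤ) ^ 4) :
    |a * U + b * v - A * X| ≤ ((2 * A * X : ℕ) : ℤ) ^ 5 := by
  have hX1 : (1 : ℤ) ≤ X := by exact_mod_cast hX
  have ha0 := abs_nonneg a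
  have hb0 := abs_nonneg b
  have hA1 : (1 : ℤ) ≤ A := by linarith
  have h1 : |a * U + b * v - A * X| ≤ |a| * |U| + |b| * |v| + A * X := by
    have e1 : |a * U + b * v - A * X| ≤ |a * U + b * v| + |(A : ℤ) * X| := abs_sub _ _
    have e2 : |a * U + b * v| ≤ |a * U| + |b * v| := abs_add_le _ _
    have e3 : |(A : ℤ) * X| = A * X := abs_of_nonneg (by positivity)
    rw [abs_mul] at e2
    rw [abs_mul b v] at e2
    rw [e3] at e1
    linarith
  have h2 : |a| * |U| ≤ A * (X : ℤ) ^ 4 := mul_le_mul (by linarith) hU (abs_nonneg _) (by linarith)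
  have h3 : |b| * |v| ≤ A * (2 * (X : ℤ) ^ 4) :=
    mul_le_mul (by linarith) hv (abs_nonneg _) (by linarith)
  have h4 : (X : ℤ) ≤ (X : ℤ) ^ 4 := le_self_pow₀ hX1 (by norm_num)
  have h5 : (A : ℤ) * X ≤ A * (X : ℤ) ^ 4 := mul_le_mul_of_nonneg_left h4 (by linarith)
  have h6 : (A : ℤ) * (X : ℤ) ^ 4 ≤ (A : ℤ) ^ 5 * (X : ℤ) ^ 5 := by
    refine mul_le_mul (le_self_pow₀ hA1 (by norm_num)) (pow_le_pow_right₀ hX1 (by norm_num))
      (by positivity) (by positivity)
  push_cast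
  have h7 : (2 * (A : ℤ) * X) ^ 5 = 32 * ((A : ℤ) ^ 5 * (X : ℤ) ^ 5) := by ring
  rw [h7]
  have h8 : (0 : ℤ) ≤ (A : ℤ) * (X : ℤ) ^ 4 := by positivity
  linarith

theorem abs_le_two {V v : ℤ} {X : ℕ} (hX : 1 ≤ X) (hV : |V| ≤ (X : ℤ) ^ 4)
    (hv : v ∈ Ioc V (V + X)) : |v| ≤ 2 * (X : ℤ) ^ 4 := by
  have hX1 : (1 : ℤ) ≤ X := by exact_mod_cast hX
  have h4 : (X : ℤ) ≤ (X : ℤ) ^ 4 := le_self_pow₀ hX1 (by norm_num)
  rw [mem_Ioc] at hv
  rw [abs_le] at hV ⊢
  constructor <;> linarith [hV.1, hV.2, hv.1, hv.2]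

/-- one linear form -/
theorem card_one {a b : ℤ} (hab : ¬ (a = 0 ∧ b = 0)) {A : ℕ} (hA : |a| + |b| + 1 ≤ A) {δ ε : ℝ}
    {M0 : ℕ} (hM0 : ∀ (N : ℤ) (M : ℕ), M0 ≤ M → |N| ≤ (M : ℤ) ^ 5 →
      ((Ex Polynomial.X N M δ).card : ℝ) ≤ ε * M) {U V : ℤ} {X : ℕ} (hX : M0 + 1 ≤ X)
    (hU : |U| ≤ (X : ℤ) ^ 4) (hV : |V| ≤ (X : ℤ) ^ 4) :
    (((Ioc U (U + X) ×ˢ Ioc V (V + X)).filter (fun t => a * t.1 + b * t.2 ≠ 0 ∧
      δ * Real.log (Real.log ((2 * A * X : ℕ) : ℝ)) <
      |((a * t.1 + b * t.2).natAbs.primeFactors.card : ℝ) -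
        Real.log (Real.log ((2 * A * X : ℕ) : ℝ))|)).card : ℝ) ≤ X * (ε * (2 * A * X : ℕ)) := by
  classical
  have ha0 := abs_nonneg a
  have hb0 := abs_nonneg b
  have hA1 : (1 : ℤ) ≤ A := by linarith
  have hA1' : 1 ≤ A := by exact_mod_cast hA1
  have hX1 : 1 ≤ X := by omega
  have hM : M0 ≤ 2 * A * X := by nlinarith
  by_cases ha : a = 0
  · have hb : b ≠ 0 := fun hb => hab ⟨ha, hb⟩
    rw [card_filter, sum_product]
    push_cast
    have h : ∀ x ∈ Ioc U (U + (X : ℤ)), ∑ y ∈ Ioc V (V + (X : ℤ)),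
        (if a * (x, y).1 + b * (x, y).2 ≠ 0 ∧ δ * Real.log (Real.log (2 * (A : ℝ) * (X : ℝ))) <
      |((a * (x, y).1 + b * (x, y).2).natAbs.primeFactors.card : ℝ) -
        Real.log (Real.log (2 * (A : ℝ) * (X : ℝ)))| then (1 : ℝ) else 0) ≤
        ε * (2 * (A : ℝ) * (X : ℝ)) := by
      intro x hx
      rw [← sum_filter, sum_const, nsmul_eq_mul, mul_one]
      have h1 := one_d (a := b) (s := a * x) hb (A := A) (by linarith) V hX1 δ
      have h2 := hM0 (b * V + a * x - A * X) (2 * A * X) hM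
        (base_le (a := b) (b := a) (by linarith) hX1 hV (abs_le_two hX1 hU hx))
      have h3 : ((Ioc V (V + (X : ℤ))).filter (fun y => a * (x, y).1 + b * (x, y).2 ≠ 0 ∧
          δ * Real.log (Real.log (2 * (A : ℝ) * (X : ℝ))) <
          |((a * (x, y).1 + b * (x, y).2).natAbs.primeFactors.card : ℝ) -
            Real.log (Real.log (2 * (A : ℝ) * (X : ℝ)))|)).card ≤
          (Ex Polynomial.X (b * V + a * x - A * X) (2 * A * X) δ).card := by
        refine le_trans (le_of_eq ?_) h1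
        congr 1
        refine filter_congr fun y _ => ?_
        push_cast
        rw [add_comm (a * x) (b * y)]
      have h4 : (((Ioc V (V + (X : ℤ))).filter (fun y => a * (x, y).1 + b * (x, y).2 ≠ 0 ∧
          δ * Real.log (Real.log (2 * (A : ℝ) * (X : ℝ))) <
          |((a * (x, y).1 + b * (x, y).2).natAbs.primeFactors.card : ℝ) -
            Real.log (Real.log (2 * (A : ℝ) * (X : ℝ)))|)).card : ℝ) ≤
          ((Ex Polynomial.X (b * V + a * x - A * X) (2 * A * X) δ).card : ℝ) := by exact_mod_cast h3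
      refine h4.trans (h2.trans (le_of_eq ?_))
      push_cast
      ring
    refine (sum_le_card_nsmul _ _ _ h).trans (le_of_eq ?_)
    rw [Int.card_Ioc, add_sub_cancel_left, Int.toNat_natCast, nsmul_eq_mul]
  · rw [card_filter, sum_product_right]
    push_cast
    have h : ∀ y ∈ Ioc V (V + (X : ℤ)), ∑ x ∈ Ioc U (U + (X : ℤ)),
        (if a * (x, y).1 + b * (x, y).2 ≠ 0 ∧ δ * Real.log (Real.log (2 * (A : ℝ) * (X : ℝ))) <
      |((a * (x, y).1 + b * (x, y).2).natAbs.primeFactors.card : ℝ) -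
        Real.log (Real.log (2 * (A : ℝ) * (X : ℝ)))| then (1 : ℝ) else 0) ≤
        ε * (2 * (A : ℝ) * (X : ℝ)) := by
      intro y hy
      rw [← sum_filter, sum_const, nsmul_eq_mul, mul_one]
      have h1 := one_d (a := a) (s := b * y) ha (A := A) (by linarith) U hX1 δ
      have h2 := hM0 (a * U + b * y - A * X) (2 * A * X) hM
        (base_le (a := a) (b := b) (by linarith) hX1 hU (abs_le_two hX1 hV hy))
      have h3 : ((Ioc U (U + (X : ℤ))).filter (fun x => a * (x, y).1 + b * (x, y).2 ≠ 0 ∧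
          δ * Real.log (Real.log (2 * (A : ℝ) * (X : ℝ))) <
          |((a * (x, y).1 + b * (x, y).2).natAbs.primeFactors.card : ℝ) -
            Real.log (Real.log (2 * (A : ℝ) * (X : ℝ)))|)).card ≤
          (Ex Polynomial.X (a * U + b * y - A * X) (2 * A * X) δ).card := by
        refine le_trans (le_of_eq ?_) h1
        congr 1
        refine filter_congr fun x _ => ?_
        push_cast
        rfl
      have h4 : (((Ioc U (U + (X : ℤ))).filter (fun x => a * (x, y).1 + b * (x, y).2 ≠ 0 ∧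
          δ * Real.log (Real.log (2 * (A : ℝ) * (X : ℝ))) <
          |((a * (x, y).1 + b * (x, y).2).natAbs.primeFactors.card : ℝ) -
            Real.log (Real.log (2 * (A : ℝ) * (X : ℝ)))|)).card : ℝ) ≤
          ((Ex Polynomial.X (a * U + b * y - A * X) (2 * A * X) δ).card : ℝ) := by exact_mod_cast h3
      refine h4.trans (h2.trans (le_of_eq ?_))
      push_cast
      ring
    refine (sum_le_card_nsmul _ _ _ h).trans (le_of_eq ?_)
    rw [Int.card_Ioc, add_sub_cancel_left, Int.toNat_natCast, nsmul_eq_mul]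

open Pool.Agent.TH344.BF Pool.Agent.TH344.BF.BadBAux Pool.Agent.TH344.DT Pool.Agent.W262.RK
  Pool.Agent.W307.RT

variable {J : Type} [Fintype J] [DecidableEq J]

theorem indP_le {B : Set (ℤ × ℤ)} {s u : Finset (ℤ × ℤ)} (h : ∀ t ∈ s, t ∈ B → t ∈ u) :
    ∑ t ∈ s, indP B t ≤ (u.card : ℝ) := by
  classical
  have h0 : ∑ t ∈ s, indP B t = ((s.filter (fun t => t ∈ B)).card : ℝ) := by
    unfold indP
    rw [sum_ite]
    simp
  rw [h0]
  exact_mod_cast card_le_card fun t ht => h t (mem_filter.1 ht).1 (mem_filter.1 ht).2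

/-- the pairs of weight less than one are rare in short squares -/
theorem bad_sq (α β : J → ℤ) (hαβ : ∀ j, ¬ (α j = 0 ∧ β j = 0)) (T : Finset (J → ℝ))
    (hT1 : ∀ t ∈ T, ∀ j, 0 < t j) (hT2 : ∀ t ∈ T, 1 < ∏ j, t j) (ε : ℝ) (hε : 0 < ε) :
    ∃ X0 : ℕ, BoxAvg (indP {t | (∀ j, fv α β t.1 t.2 j ≠ 0) ∧ rho T (omB α β t) < 1}) ε X0 := by
  classical
  obtain ⟨δ, hδ, hδT⟩ := exists_deltaB T hT2
  set m := Fintype.card J with hm
  set A : ℕ := ∑ j, ((α j).natAbs + (β j).natAbs) + 1 with hA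
  have hA0 : (0 : ℝ) < A := by rw [hA]; positivity
  set ε' : ℝ := ε / (2 * (m + 1) * A) with hε'
  have hε'0 : 0 < ε' := by positivity
  obtain ⟨M0, hM0⟩ := normal' Polynomial.X Polynomial.irreducible_X
    (by rw [Polynomial.natDegree_X]; norm_num) 5 δ ε' hδ hε'0
  refine ⟨M0 + 16, fun X U V hX hU hV => ?_⟩
  have hAj : ∀ j, |α j| + |β j| + 1 ≤ (A : ℤ) := by
    intro j
    have h1 : (α j).natAbs + (β j).natAbs ≤ ∑ j, ((α j).natAbs + (β j).natAbs) :=
      single_le_sum (f := fun j => (α j).natAbs + (β j).natAbs) (fun i _ => Nat.zero_le _)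
        (mem_univ j)
    have h2 : (α j).natAbs + (β j).natAbs + 1 ≤ A := by rw [hA]; omega
    have h3 : (((α j).natAbs + (β j).natAbs + 1 : ℕ) : ℤ) ≤ A := by exact_mod_cast h2
    push_cast at h3
    linarith
  have hL : 0 < Real.log (Real.log ((2 * A * X : ℕ) : ℝ)) := by
    have h1 : 16 ≤ 2 * A * X := by
      have : 1 ≤ A := by rw [hA]; omega
      nlinarith
    have h2 : (16 : ℝ) ≤ ((2 * A * X : ℕ) : ℝ) := by exact_mod_cast h1
    apply Real.log_pos
    rw [Real.lt_log_iff_exp_lt (by linarith)]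
    have := Real.exp_one_lt_d9
    linarith
  set L := Real.log (Real.log ((2 * A * X : ℕ) : ℝ)) with hLdef
  set S : J → Finset (ℤ × ℤ) := fun j => (Ioc U (U + (X : ℤ)) ×ˢ Ioc V (V + (X : ℤ))).filter
    (fun t => α j * t.1 + β j * t.2 ≠ 0 ∧
      δ * L < |((α j * t.1 + β j * t.2).natAbs.primeFactors.card : ℝ) - L|) with hS
  have hsub : ∀ t ∈ Ioc U (U + (X : ℤ)) ×ˢ Ioc V (V + (X : ℤ)),
      t ∈ {t : ℤ × ℤ | (∀ j, fv α β t.1 t.2 j ≠ 0) ∧ rho T (omB α β t) < 1} →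
      t ∈ univ.biUnion S := by
    rintro t hb ⟨h3, h4⟩
    by_contra hcon
    obtain ⟨t0, ht0, hlt⟩ := rho_lt_one h4
    refine absurd hlt (not_lt.2 (le_of_lt (prod_gtB (hT1 t0 ht0) hL (hδT t0 ht0) _ ?_)))
    intro j
    by_contra h5
    push Not at h5
    exact hcon (mem_biUnion.2 ⟨j, mem_univ _, mem_filter.2 ⟨hb, h3 j, h5⟩⟩)
  have h1 : (((univ.biUnion S).card : ℕ) : ℝ) ≤ ∑ j, ((S j).card : ℝ) := by
    exact_mod_cast card_biUnion_le
  have h2 : ∀ j ∈ (univ : Finset J), ((S j).card : ℝ) ≤ X * (ε' * (2 * A * X : ℕ)) := fun j _ =>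
    card_one (hαβ j) (hAj j) hM0 (by omega) hU hV
  refine (indP_le hsub).trans (h1.trans ((sum_le_card_nsmul _ _ _ h2).trans ?_))
  rw [card_univ, nsmul_eq_mul, ← hm]
  push_cast
  have hm0 : (0 : ℝ) ≤ m := Nat.cast_nonneg _
  have h3 : (m : ℝ) * (X * (ε' * (2 * A * X))) = (m * (ε' * (2 * A))) * (X : ℝ) ^ 2 := by ring
  rw [h3]
  refine mul_le_mul_of_nonneg_right ?_ (by positivity)
  have h4 : (m : ℝ) * (ε' * (2 * A)) = ε * (m / (m + 1)) := by
    rw [hε']
    field_simp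
  rw [h4]
  have h5 : (m : ℝ) / (m + 1) ≤ 1 := by
    rw [div_le_one (by positivity)]
    linarith
  nlinarith

end Pool.Agent.X257.AE.BT
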