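import Mathlib

/-!
# Sets of integers of small density and the numbers `⌊α b ^ n⌋`

Let `B` be a set of integers with at most `p M` elements in every interval `(N, N + M]`,
`|N| ≤ M ^ 3`, `M` large. For almost every real `α` the `n` with `⌊α b ^ n⌋ ∈ B` have an upper
logarithmic density at most `p`.
-/

set_option autoImplicit false

open Finset MeasureTheory Filter Topology

namespace Pool.Agent.X257.AE

/-- `⌊α b ^ n⌋` -/
noncomputable def pre (b n : ℕ) (α : ℝ) : ℤ := ⌊α * (b : ℝ) ^ n⌋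

theorem pre_div {b : ℕ} (hb : 0 < b) {m n : ℕ} (h : m ≤ n) (α : ℝ) :
    pre b m α = pre b n α / ((b : ℤ) ^ (n - m)) := by
  unfold pre
  have hb' : (0 : ℝ) < b := by exact_mod_cast hb
  have h1 : α * (b : ℝ) ^ m = α * (b : ℝ) ^ n / ((b ^ (n - m) : ℕ) : ℝ) := by
    rw [eq_div_iff (by positivity)]
    push_cast
    rw [mul_assoc, ← pow_add, Nat.add_sub_cancel' h]
  rw [h1, Int.floor_div_natCast]
  push_cast
  rfl

/-- the values of `⌊α b ^ n⌋` for `K ≤ α < K + 1` -/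
noncomputable def box (K : ℤ) (b n : ℕ) : Finset ℤ := Ico (K * (b : ℤ) ^ n) ((K + 1) * (b : ℤ) ^ n)

theorem pre_mem {b : ℕ} (hb : 0 < b) (n : ℕ) {K : ℤ} {α : ℝ} (h : α ∈ Set.Ico (K : ℝ) (K + 1)) :
    pre b n α ∈ box K b n := by
  have hb' : (0 : ℝ) < (b : ℝ) ^ n := by positivity
  unfold box pre
  rw [mem_Ico]
  constructor
  · rw [Int.le_floor]
    push_cast
    exact mul_le_mul_of_nonneg_right h.1 hb'.le
  · rw [Int.floor_lt]
    push_cast
    exact mul_lt_mul_of_pos_right h.2 hb'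

open Classical in
theorem vol_le {b : ℕ} (hb : 0 < b) (n : ℕ) (K : ℤ) (Q : ℤ → Prop) :
    volume {α : ℝ | α ∈ Set.Ico (K : ℝ) (K + 1) ∧ Q (pre b n α)} ≤
      ENNReal.ofReal ((((box K b n).filter Q).card : ℝ) / (b : ℝ) ^ n) := by
  have hb' : (0 : ℝ) < (b : ℝ) ^ n := by positivity
  have hsub : {α : ℝ | α ∈ Set.Ico (K : ℝ) (K + 1) ∧ Q (pre b n α)} ⊆
      ⋃ u ∈ (box K b n).filter Q, Set.Ico ((u : ℝ) / (b : ℝ) ^ n) (((u : ℝ) + 1) / (b : ℝ) ^ n) := by
    rintro α ⟨h1, h2⟩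
    rw [Set.mem_iUnion₂]
    refine ⟨pre b n α, mem_filter.2 ⟨pre_mem hb n h1, h2⟩, ?_, ?_⟩
    · rw [div_le_iff₀ hb']
      exact Int.floor_le _
    · rw [lt_div_iff₀ hb']
      exact Int.lt_floor_add_one _
  refine (measure_mono hsub).trans ((measure_biUnion_finset_le _ _).trans ?_)
  have h3 : ∀ u : ℤ, volume (Set.Ico ((u : ℝ) / (b : ℝ) ^ n) (((u : ℝ) + 1) / (b : ℝ) ^ n)) =
      ENNReal.ofReal (1 / (b : ℝ) ^ n) := by
    intro u
    rw [Real.volume_Ico]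
    congr 1
    field_simp
    ring
  simp only [h3]
  rw [sum_const, nsmul_eq_mul, ← ENNReal.ofReal_natCast, ← ENNReal.ofReal_mul (by positivity),
    mul_one_div]

theorem ediv_eq_iff_mem {c : ℤ} (hc : 0 < c) (u v : ℤ) :
    u / c = v ↔ u ∈ Ico (v * c) ((v + 1) * c) := by
  rw [mem_Ico, ← Int.le_ediv_iff_mul_le hc, ← Int.ediv_lt_iff_lt_mul hc]
  omega

theorem sum_box {b : ℕ} (hb : 0 < b) {m n : ℕ} (h : m ≤ n) (K : ℤ) (Φ : ℤ → ℝ) :
    ∑ u ∈ box K b n, Φ u = ∑ v ∈ box K b m,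
      ∑ w ∈ Ico (v * (b : ℤ) ^ (n - m)) ((v + 1) * (b : ℤ) ^ (n - m)), Φ w := by
  have hb' : (0 : ℤ) < b := by exact_mod_cast hb
  have hc : (0 : ℤ) < (b : ℤ) ^ (n - m) := by positivity
  have hn : (b : ℤ) ^ n = (b : ℤ) ^ m * (b : ℤ) ^ (n - m) := by
    rw [← pow_add, Nat.add_sub_cancel' h]
  have hmaps : ∀ u ∈ box K b n, u / (b : ℤ) ^ (n - m) ∈ box K b m := by
    intro u hu
    unfold box at hu ⊢
    rw [mem_Ico] at hu ⊢
    rw [hn] at hu
    constructor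
    · rw [Int.le_ediv_iff_mul_le hc]
      linarith [hu.1]
    · rw [Int.ediv_lt_iff_lt_mul hc]
      linarith [hu.2]
  rw [← sum_fiberwise_of_maps_to hmaps]
  refine sum_congr rfl fun v hv => sum_congr ?_ fun _ _ => rfl
  ext u
  rw [mem_filter, ediv_eq_iff_mem hc]
  constructor
  · exact fun h => h.2
  · intro hu
    refine ⟨?_, hu⟩
    unfold box at hv ⊢
    rw [mem_Ico] at hv hu ⊢
    rw [hn]
    constructor
    · refine le_trans ?_ hu.1
      rw [← mul_assoc]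
      exact mul_le_mul_of_nonneg_right hv.1 hc.le
    · refine lt_of_lt_of_le hu.2 ?_
      rw [← mul_assoc]
      exact mul_le_mul_of_nonneg_right hv.2 hc.le

/-- average over the box -/
noncomputable def av (K : ℤ) (b n : ℕ) (Φ : ℤ → ℝ) : ℝ := (∑ u ∈ box K b n, Φ u) / (b : ℝ) ^ n

theorem av_lift {b : ℕ} (hb : 0 < b) {m n : ℕ} (h : m ≤ n) (K : ℤ) (Ψ : ℤ → ℝ) :
    av K b n (fun u => Ψ (u / (b : ℤ) ^ (n - m))) = av K b m Ψ := by
  have hb' : (0 : ℝ) < b := by exact_mod_cast hb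
  have hbz : (0 : ℤ) < b := by exact_mod_cast hb
  have hc : (0 : ℤ) < (b : ℤ) ^ (n - m) := by positivity
  unfold av
  rw [sum_box hb h]
  have h1 : ∀ v ∈ box K b m, ∑ w ∈ Ico (v * (b : ℤ) ^ (n - m)) ((v + 1) * (b : ℤ) ^ (n - m)),
      Ψ (w / (b : ℤ) ^ (n - m)) = (b : ℝ) ^ (n - m) * Ψ v := by
    intro v _
    rw [sum_congr rfl (fun w hw => by rw [(ediv_eq_iff_mem hc w v).2 hw]), sum_const,
      Int.card_Ico, nsmul_eq_mul]
    congr 1
    have h2 : (v + 1) * (b : ℤ) ^ (n - m) - v * (b : ℤ) ^ (n - m) = ((b ^ (n - m) : ℕ) : ℤ) := by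
      push_cast
      ring
    rw [h2, Int.toNat_natCast]
    push_cast
    rfl
  rw [sum_congr rfl h1, ← mul_sum]
  have h3 : (b : ℝ) ^ n = (b : ℝ) ^ (n - m) * (b : ℝ) ^ m := by
    rw [← pow_add, Nat.sub_add_cancel h]
  rw [h3, mul_div_mul_left _ _ (by positivity)]

open Classical in
/-- indicator function -/
noncomputable def ind (B : Set ℤ) (u : ℤ) : ℝ := if u ∈ B then 1 else 0

theorem ind_nonneg (B : Set ℤ) (u : ℤ) : 0 ≤ ind B u := by
  unfold ind
  split_ifs <;> norm_num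

theorem ind_le (B : Set ℤ) (u : ℤ) : ind B u ≤ 1 := by
  unfold ind
  split_ifs <;> norm_num

open Classical in
/-- `B` has at most `p M` elements in the intervals `(N, N + M]` with `|N| ≤ M ^ 3`, `M ≥ M0` -/
def Dens (B : Set ℤ) (p : ℝ) (M0 : ℕ) : Prop := ∀ (N : ℤ) (M : ℕ), M0 ≤ M → |N| ≤ (M : ℤ) ^ 3 →
  (((Ioc N (N + M)).filter (fun t => t ∈ B)).card : ℝ) ≤ p * M

theorem dens_nonneg {B : Set ℤ} {p : ℝ} {M0 : ℕ} (h : Dens B p M0) : 0 ≤ p := by
  classical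
  have h1 := h 0 (M0 + 1) (by omega) (by simp; positivity)
  by_contra h2
  push Not at h2
  have h3 : p * ((M0 + 1 : ℕ) : ℝ) < 0 := mul_neg_of_neg_of_pos h2 (by positivity)
  have h4 := Nat.cast_nonneg (α := ℝ) (((Ioc (0 : ℤ) (0 + ((M0 + 1 : ℕ) : ℤ))).filter
    (fun t => t ∈ B)).card)
  linarith

/-- the conditional density of `B` at level `i`, given the level `m` -/
theorem cond_card {b : ℕ} (hb : 2 ≤ b) {m i : ℕ} (h : 2 * m ≤ i) {K : ℤ} {B : Set ℤ} {p : ℝ}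
    {M0 : ℕ} (hB : Dens B p M0) (hm : M0 + K.natAbs + 2 ≤ m) {v : ℤ} (hv : v ∈ box K b m) :
    ∑ w ∈ Ico (v * (b : ℤ) ^ (i - m)) ((v + 1) * (b : ℤ) ^ (i - m)), ind B w ≤
      p * (b : ℝ) ^ (i - m) := by
  classical
  set c : ℕ := b ^ (i - m) with hc
  have hcz : (b : ℤ) ^ (i - m) = (c : ℤ) := by rw [hc]; push_cast; rfl
  have hcr : (b : ℝ) ^ (i - m) = (c : ℝ) := by rw [hc]; push_cast; rfl
  have hcm : m ≤ c := by
    have h1 : i - m < 2 ^ (i - m) := Nat.lt_two_pow_self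
    have h2 : 2 ^ (i - m) ≤ b ^ (i - m) := Nat.pow_le_pow_left hb _
    omega
  have hbc : b ^ m ≤ c := Nat.pow_le_pow_right (by omega) (by omega)
  have hKc : K.natAbs + 2 ≤ c := by omega
  rw [hcz, hcr]
  have hset : Ico (v * (c : ℤ)) ((v + 1) * c) = Ioc (v * c - 1) (v * c - 1 + c) := by
    ext x
    rw [mem_Ico, mem_Ioc]
    have : (v + 1) * (c : ℤ) = v * c + c := by ring
    omega
  rw [hset]
  have hN : |v * (c : ℤ) - 1| ≤ (c : ℤ) ^ 3 := by
    unfold box at hv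
    rw [mem_Ico] at hv
    have hbm : (1 : ℤ) ≤ (b : ℤ) ^ m := by
      have : 1 ≤ b ^ m := Nat.one_le_pow _ _ (by omega)
      exact_mod_cast this
    have hbcz : (b : ℤ) ^ m ≤ c := by exact_mod_cast hbc
    have hKz : |K| + 2 ≤ (c : ℤ) := by
      rw [Int.abs_eq_natAbs]
      exact_mod_cast hKc
    have hKa : |K| ≤ (c : ℤ) - 2 := by linarith
    have hK1 : -|K| ≤ K := neg_abs_le K
    have hK2 : K ≤ |K| := le_abs_self K
    have hK0 : 0 ≤ |K| := abs_nonneg K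
    have hv1 : |v| ≤ (|K| + 1) * (b : ℤ) ^ m := by
      rw [abs_le]
      constructor
      · nlinarith [hv.1]
      · nlinarith [hv.2]
    have hc0 : (0 : ℤ) ≤ c := by positivity
    have hv2 : |v| ≤ ((c : ℤ) - 1) * c := by
      refine hv1.trans ?_
      calc (|K| + 1) * (b : ℤ) ^ m ≤ ((c : ℤ) - 1) * (b : ℤ) ^ m := by
            apply mul_le_mul_of_nonneg_right _ (by linarith)
            linarith
        _ ≤ ((c : ℤ) - 1) * c := by
            apply mul_le_mul_of_nonneg_left hbcz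
            linarith
    have h5 : |v * (c : ℤ) - 1| ≤ |v| * c + 1 := by
      refine (abs_sub _ _).trans ?_
      rw [abs_mul, abs_one, abs_of_nonneg hc0]
    refine h5.trans ?_
    have hc2 : (2 : ℤ) ≤ c := by linarith
    nlinarith [mul_le_mul_of_nonneg_right hv2 hc0, sq_nonneg ((c : ℤ))]
  have h2 := hB (v * (c : ℤ) - 1) c (by omega) hN
  refine le_trans (le_of_eq ?_) h2
  unfold ind
  rw [sum_ite]
  simp

theorem cond_av {b : ℕ} (hb : 2 ≤ b) {m i n : ℕ} (h : 2 * m ≤ i) (hin : i ≤ n) {K : ℤ} {B : Set ℤ}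
    {p : ℝ} {M0 : ℕ} (hB : Dens B p M0) (hm : M0 + K.natAbs + 2 ≤ m) (g : ℤ → ℝ)
    (hg : ∀ u, 0 ≤ g u) :
    av K b n (fun u => g (u / (b : ℤ) ^ (n - m)) * ind B (u / (b : ℤ) ^ (n - i))) ≤
      p * av K b m g := by
  have hb0 : 0 < b := by omega
  have hbz : (0 : ℤ) < b := by exact_mod_cast hb0
  have hbr : (0 : ℝ) < b := by exact_mod_cast hb0
  have hmi : m ≤ i := by omega
  have h1 : (fun u : ℤ => g (u / (b : ℤ) ^ (n - m)) * ind B (u / (b : ℤ) ^ (n - i))) =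
      fun u : ℤ => (fun x : ℤ => g (x / (b : ℤ) ^ (i - m)) * ind B x) (u / (b : ℤ) ^ (n - i)) := by
    funext u
    have h2 : u / (b : ℤ) ^ (n - i) / (b : ℤ) ^ (i - m) = u / (b : ℤ) ^ (n - m) := by
      rw [Int.ediv_ediv_of_nonneg (by positivity), ← pow_add]
      congr 2
      omega
    simp only [h2]
  have h0 := av_lift hb0 hin K (fun x : ℤ => g (x / (b : ℤ) ^ (i - m)) * ind B x)
  rw [h1]
  refine (le_of_eq h0).trans ?_
  unfold av
  rw [sum_box hb0 hmi]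
  have hc : (0 : ℤ) < (b : ℤ) ^ (i - m) := by positivity
  have h3 : ∑ v ∈ box K b m, ∑ w ∈ Ico (v * (b : ℤ) ^ (i - m)) ((v + 1) * (b : ℤ) ^ (i - m)),
      g (w / (b : ℤ) ^ (i - m)) * ind B w ≤ ∑ v ∈ box K b m, g v * (p * (b : ℝ) ^ (i - m)) := by
    refine sum_le_sum fun v hv => ?_
    rw [sum_congr rfl (fun w hw => by rw [(ediv_eq_iff_mem hc w v).2 hw]), ← mul_sum]
    exact mul_le_mul_of_nonneg_left (cond_card hb h hB hm hv) (hg v)
  refine (div_le_div_of_nonneg_right h3 (by positivity)).trans (le_of_eq ?_)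
  rw [← sum_mul]
  have h4 : (b : ℝ) ^ i = (b : ℝ) ^ (i - m) * (b : ℝ) ^ m := by
    rw [← pow_add, Nat.sub_add_cancel hmi]
  rw [h4]
  field_simp

/-- the data of the blocks -/
structure Blocks where
  /-- levels -/
  a : ℕ → ℕ
  /-- the blocks -/
  T : ℕ → Finset ℕ
  /-- weights -/
  w : ℕ → ℕ → ℝ
  mono : ∀ k, a k ≤ a (k + 1)
  low : ∀ k, ∀ i ∈ T k, 2 * a k ≤ i
  high : ∀ k, ∀ i ∈ T k, i ≤ a (k + 1)
  nonneg : ∀ k i, 0 ≤ w k i
  sum_le : ∀ k, ∑ i ∈ T k, w k i ≤ 1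

namespace Blocks

variable (S : Blocks)

/-- total weight of a block -/
noncomputable def W (k : ℕ) : ℝ := ∑ i ∈ S.T k, S.w k i

/-- weight of the part of the block in `B` -/
noncomputable def Z (b : ℕ) (B : Set ℤ) (k : ℕ) (α : ℝ) : ℝ :=
  ∑ i ∈ S.T k, S.w k i * ind B (pre b i α)

/-- the same as a function of the number of the level `n` -/
noncomputable def Zf (b n : ℕ) (B : Set ℤ) (k : ℕ) (u : ℤ) : ℝ :=
  ∑ i ∈ S.T k, S.w k i * ind B (u / (b : ℤ) ^ (n - i))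

/-- the product -/
noncomputable def Q (b : ℕ) (B : Set ℤ) (θ : ℝ) : ℕ → ℤ → ℝ
  | 0, _ => 1
  | J + 1, u => Q b B θ J (u / (b : ℤ) ^ (S.a (J + 1) - S.a J)) *
      (1 + θ * S.Zf b (S.a (J + 1)) B J u)

theorem W_nonneg (k : ℕ) : 0 ≤ S.W k := sum_nonneg fun i _ => S.nonneg k i

theorem Z_nonneg (b : ℕ) (B : Set ℤ) (k : ℕ) (α : ℝ) : 0 ≤ S.Z b B k α :=
  sum_nonneg fun i _ => mul_nonneg (S.nonneg k i) (ind_nonneg _ _)

theorem Z_le (b : ℕ) (B : Set ℤ) (k : ℕ) (α : ℝ) : S.Z b B k α ≤ 1 := by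
  refine le_trans (sum_le_sum fun i _ => ?_) (S.sum_le k)
  exact mul_le_of_le_one_right (S.nonneg k i) (ind_le _ _)

theorem Zf_nonneg (b n : ℕ) (B : Set ℤ) (k : ℕ) (u : ℤ) : 0 ≤ S.Zf b n B k u :=
  sum_nonneg fun i _ => mul_nonneg (S.nonneg k i) (ind_nonneg _ _)

theorem Q_nonneg (b : ℕ) (B : Set ℤ) {θ : ℝ} (hθ : 0 ≤ θ) (J : ℕ) (u : ℤ) :
    0 ≤ S.Q b B θ J u := by
  induction J generalizing u with
  | zero => exact zero_le_one
  | succ J ih =>
    unfold Q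
    have := S.Zf_nonneg b (S.a (J + 1)) B J u
    exact mul_nonneg (ih _) (by positivity)

theorem Q_eq {b : ℕ} (hb : 0 < b) (B : Set ℤ) (θ : ℝ) (J : ℕ) (α : ℝ) :
    S.Q b B θ J (pre b (S.a J) α) = ∏ k ∈ range J, (1 + θ * S.Z b B k α) := by
  induction J with
  | zero => simp [Q]
  | succ J ih =>
    rw [prod_range_succ, ← ih]
    have h0 : S.Q b B θ (J + 1) (pre b (S.a (J + 1)) α) =
        S.Q b B θ J (pre b (S.a (J + 1)) α / (b : ℤ) ^ (S.a (J + 1) - S.a J)) *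
          (1 + θ * S.Zf b (S.a (J + 1)) B J (pre b (S.a (J + 1)) α)) := rfl
    rw [h0, ← pre_div hb (S.mono J)]
    have h1 : S.Zf b (S.a (J + 1)) B J (pre b (S.a (J + 1)) α) = S.Z b B J α := by
      unfold Blocks.Zf Blocks.Z
      refine sum_congr rfl fun i hi => ?_
      rw [← pre_div hb (S.high J i hi)]
    rw [h1]

theorem av_Q {b : ℕ} (hb : 2 ≤ b) {K : ℤ} {B : Set ℤ} {p : ℝ} {M0 : ℕ} (hB : Dens B p M0)
    (hm : ∀ k, M0 + K.natAbs + 2 ≤ S.a k) {θ : ℝ} (hθ : 0 ≤ θ) (J : ℕ) :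
    av K b (S.a J) (S.Q b B θ J) ≤ Real.exp (θ * (p * ∑ k ∈ range J, S.W k)) := by
  have hb0 : 0 < b := by omega
  have hp := dens_nonneg hB
  induction J with
  | zero =>
    have hbr : (0 : ℝ) < (b : ℝ) ^ S.a 0 := by positivity
    simp only [range_zero, sum_empty, mul_zero, Real.exp_zero]
    unfold av
    have h1 : ∑ u ∈ box K b (S.a 0), S.Q b B θ 0 u = (b : ℝ) ^ S.a 0 := by
      simp only [Q, sum_const, nsmul_eq_mul, mul_one]
      unfold box
      rw [Int.card_Ico]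
      have h2 : (K + 1) * (b : ℤ) ^ S.a 0 - K * (b : ℤ) ^ S.a 0 = ((b ^ S.a 0 : ℕ) : ℤ) := by
        push_cast
        ring
      rw [h2, Int.toNat_natCast]
      push_cast
      rfl
    rw [h1, div_self hbr.ne']
  | succ J ih =>
    set n := S.a (J + 1) with hn
    set m := S.a J with hmdef
    have hmn : m ≤ n := S.mono J
    have h1 : av K b n (S.Q b B θ (J + 1)) =
        av K b n (fun u => S.Q b B θ J (u / (b : ℤ) ^ (n - m))) +
        θ * ∑ i ∈ S.T J, S.w J i * av K b n (fun u => S.Q b B θ J (u / (b : ℤ) ^ (n - m)) *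
          ind B (u / (b : ℤ) ^ (n - i))) := by
      unfold av
      have h2 : ∀ u, S.Q b B θ (J + 1) u = S.Q b B θ J (u / (b : ℤ) ^ (n - m)) +
          θ * ∑ i ∈ S.T J, S.w J i * (S.Q b B θ J (u / (b : ℤ) ^ (n - m)) *
            ind B (u / (b : ℤ) ^ (n - i))) := by
        intro u
        change S.Q b B θ J (u / (b : ℤ) ^ (n - m)) * (1 + θ * S.Zf b n B J u) = _
        unfold Zf
        rw [mul_add, mul_one, mul_left_comm, mul_sum]
        congr 2
        exact sum_congr rfl fun i _ => by ring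
      rw [sum_congr rfl fun u _ => h2 u, sum_add_distrib, add_div, ← mul_sum, sum_comm]
      congr 1
      rw [mul_div_assoc, sum_div]
      congr 1
      refine sum_congr rfl fun i _ => ?_
      rw [← mul_sum, mul_div_assoc]
    rw [h1, av_lift hb0 hmn]
    have hA : 0 ≤ av K b m (S.Q b B θ J) :=
      div_nonneg (sum_nonneg fun u _ => S.Q_nonneg b B hθ J u) (by positivity)
    have h3 : ∑ i ∈ S.T J, S.w J i * av K b n (fun u => S.Q b B θ J (u / (b : ℤ) ^ (n - m)) *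
        ind B (u / (b : ℤ) ^ (n - i))) ≤ S.W J * (p * av K b m (S.Q b B θ J)) := by
      unfold W
      rw [sum_mul]
      refine sum_le_sum fun i hi => ?_
      refine mul_le_mul_of_nonneg_left ?_ (S.nonneg J i)
      exact cond_av hb (S.low J i hi) (S.high J i hi) hB (hm J) _ (S.Q_nonneg b B hθ J)
    have h4 : av K b m (S.Q b B θ J) + θ * (S.W J * (p * av K b m (S.Q b B θ J))) =
        av K b m (S.Q b B θ J) * (1 + θ * (p * S.W J)) := by ring
    refine (add_le_add_right (mul_le_mul_of_nonneg_left h3 hθ) _).trans ?_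
    have h7 : θ * (p * ∑ k ∈ range (J + 1), S.W k) =
        θ * (p * ∑ k ∈ range J, S.W k) + θ * (p * S.W J) := by
      rw [sum_range_succ]
      ring
    rw [h4, h7, Real.exp_add]
    have h5 : 1 + θ * (p * S.W J) ≤ Real.exp (θ * (p * S.W J)) := by
      rw [add_comm]
      exact Real.add_one_le_exp _
    have h6 : 0 ≤ 1 + θ * (p * S.W J) := by
      have := S.W_nonneg J
      positivity
    exact mul_le_mul ih h5 h6 (Real.exp_pos _).le

/-- almost every number of `[K, K + 1)`: all levels large -/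
theorem ae_large {b : ℕ} (hb : 2 ≤ b) {K : ℤ} {B : Set ℤ} {p : ℝ} {M0 : ℕ} (hB : Dens B p M0)
    (hm : ∀ k, M0 + K.natAbs + 2 ≤ S.a k) {θ : ℝ} (hθ : 0 < θ) :
    ∀ᵐ α : ℝ, α ∈ Set.Ico (K : ℝ) (K + 1) → ∀ᶠ J : ℕ in atTop,
      ∑ k ∈ range J, S.Z b B k α ≤ p * ∑ k ∈ range J, S.W k + 3 / 2 * θ * J := by
  classical
  have hb0 : 0 < b := by omega
  set x : ℕ → ℝ := fun J => Real.exp (θ * (p * ∑ k ∈ range J, S.W k) + θ ^ 2 * J) with hx
  set s : ℕ → Set ℝ := fun J => {α : ℝ | α ∈ Set.Ico (K : ℝ) (K + 1) ∧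
    x J ≤ S.Q b B θ J (pre b (S.a J) α)} with hs
  have hmeas : ∀ J, volume (s J) ≤ ENNReal.ofReal (Real.exp (-(θ ^ 2)) ^ J) := by
    intro J
    refine (vol_le hb0 (S.a J) K (fun u => x J ≤ S.Q b B θ J u)).trans
      (ENNReal.ofReal_le_ofReal ?_)
    have h1 := S.av_Q hb hB hm hθ.le J
    unfold av at h1
    have hbr : (0 : ℝ) < (b : ℝ) ^ S.a J := by positivity
    have hxp : 0 < x J := Real.exp_pos _
    have h2 : (((box K b (S.a J)).filter (fun u => x J ≤ S.Q b B θ J u)).card : ℝ) * x J ≤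
        ∑ u ∈ box K b (S.a J), S.Q b B θ J u := by
      rw [← nsmul_eq_mul]
      refine le_trans (card_nsmul_le_sum _ _ _ fun u hu => (mem_filter.1 hu).2) ?_
      exact sum_le_sum_of_subset_of_nonneg (filter_subset _ _)
        fun u _ _ => S.Q_nonneg b B hθ.le J u
    have h3 : ((((box K b (S.a J)).filter (fun u => x J ≤ S.Q b B θ J u)).card : ℝ) /
        (b : ℝ) ^ S.a J) * x J ≤ Real.exp (θ * (p * ∑ k ∈ range J, S.W k)) := by
      refine le_trans ?_ h1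
      rw [div_mul_eq_mul_div]
      exact div_le_div_of_nonneg_right h2 hbr.le
    rw [← le_div_iff₀ hxp] at h3
    refine h3.trans (le_of_eq ?_)
    rw [hx]
    simp only
    rw [← Real.exp_sub, ← Real.exp_nat_mul]
    congr 1
    ring
  have hsum : ∑' J, volume (s J) ≠ ⊤ := by
    have hr : Real.exp (-(θ ^ 2)) < 1 := by
      rw [Real.exp_lt_one_iff]
      have : 0 < θ ^ 2 := by positivity
      linarith
    have hsm : Summable (fun J : ℕ => Real.exp (-(θ ^ 2)) ^ J) :=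
      summable_geometric_of_lt_one (Real.exp_pos _).le hr
    refine ne_top_of_le_ne_top (hsm.tsum_ofReal_ne_top) ?_
    exact ENNReal.tsum_le_tsum hmeas
  filter_upwards [ae_eventually_notMem hsum] with α hα hK
  filter_upwards [hα] with J hJ
  have h1 : S.Q b B θ J (pre b (S.a J) α) < x J := by
    by_contra h
    push Not at h
    exact hJ ⟨hK, h⟩
  rw [S.Q_eq hb0] at h1
  have hpos : ∀ k ∈ range J, 0 < 1 + θ * S.Z b B k α := fun k _ => by
    have := S.Z_nonneg b B k α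
    positivity
  have h2 := Real.log_lt_log (prod_pos hpos) h1
  rw [Real.log_prod (fun k hk => (hpos k hk).ne'), hx] at h2
  simp only [Real.log_exp] at h2
  have h3 : ∀ k ∈ range J, θ * S.Z b B k α - θ ^ 2 / 2 ≤ Real.log (1 + θ * S.Z b B k α) := by
    intro k _
    have h4 := S.Z_nonneg b B k α
    have h5 := S.Z_le b B k α
    set y := θ * S.Z b B k α with hy
    have hy0 : 0 ≤ y := by positivity
    have hy1 : y ≤ θ := by
      rw [hy]
      exact mul_le_of_le_one_right hθ.le h5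
    refine le_trans ?_ (Real.le_log_one_add_of_nonneg hy0)
    rw [le_div_iff₀ (by linarith)]
    nlinarith [mul_nonneg hy0 hy0, mul_nonneg hy0 hθ.le, sq_nonneg (θ - y)]
  have h4 := sum_le_sum h3
  rw [sum_sub_distrib, ← mul_sum, sum_const, card_range, nsmul_eq_mul] at h4
  have h5 : θ * ∑ k ∈ range J, S.Z b B k α ≤
      θ * (p * ∑ k ∈ range J, S.W k + 3 / 2 * θ * J) := by nlinarith
  exact le_of_mul_le_mul_left h5 hθ

/-- shifted blocks -/
def shift (k0 : ℕ) : Blocks where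
  a k := S.a (k0 + k)
  T k := S.T (k0 + k)
  w k := S.w (k0 + k)
  mono k := S.mono (k0 + k)
  low k := S.low (k0 + k)
  high k := S.high (k0 + k)
  nonneg k := S.nonneg (k0 + k)
  sum_le k := S.sum_le (k0 + k)

/-- almost every real number -/
theorem ae_blocks (ha : ∀ k, k ≤ S.a k) {B : Set ℤ} {p : ℝ} {M0 : ℕ} (hB : Dens B p M0) :
    ∀ᵐ α : ℝ, ∀ b : ℕ, 2 ≤ b → ∀ ε : ℝ, 0 < ε → ∀ᶠ J : ℕ in atTop,
      ∑ k ∈ range J, S.Z b B k α ≤ p * ∑ k ∈ range J, S.W k + ε * J := by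
  have hp := dens_nonneg hB
  have h1 : ∀ᵐ α : ℝ, ∀ b : ℕ, 2 ≤ b → ∀ K : ℤ, ∀ q : ℕ, α ∈ Set.Ico (K : ℝ) (K + 1) →
      ∀ᶠ J : ℕ in atTop, ∑ k ∈ range J, (S.shift (M0 + K.natAbs + 2)).Z b B k α ≤
        p * ∑ k ∈ range J, (S.shift (M0 + K.natAbs + 2)).W k + 3 / 2 * (1 / ((q : ℝ) + 1)) * J := by
    rw [ae_all_iff]
    intro b
    by_cases hb : 2 ≤ b
    · simp only [hb, forall_true_left]
      rw [ae_all_iff]
      intro K
      rw [ae_all_iff]
      intro q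
      refine (S.shift (M0 + K.natAbs + 2)).ae_large hb hB (fun k => ?_) (by positivity)
      have := ha (M0 + K.natAbs + 2 + k)
      change M0 + K.natAbs + 2 ≤ S.a (M0 + K.natAbs + 2 + k)
      omega
    · exact Eventually.of_forall fun α h => absurd h hb
  filter_upwards [h1] with α hα b hb ε hε
  obtain ⟨q, hq⟩ := exists_nat_one_div_lt (show (0 : ℝ) < ε / 3 by positivity)
  set K : ℤ := ⌊α⌋ with hK
  set k0 := M0 + K.natAbs + 2 with hk0
  have h2 := hα b hb K q ⟨Int.floor_le α, Int.lt_floor_add_one α⟩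
  have hlin : ∀ᶠ J : ℕ in atTop, (k0 : ℝ) ≤ ε / 2 * J := by
    obtain ⟨n, hn⟩ := exists_nat_gt ((k0 : ℝ) / (ε / 2))
    filter_upwards [eventually_ge_atTop n] with J hJ
    rw [div_lt_iff₀ (by positivity)] at hn
    have : (n : ℝ) ≤ J := by exact_mod_cast hJ
    nlinarith
  obtain ⟨J1, hJ1⟩ := h2.exists_forall_of_atTop
  filter_upwards [hlin, eventually_ge_atTop (J1 + k0)] with J hJ hJ2
  obtain ⟨J', rfl⟩ : ∃ J', J = k0 + J' := ⟨J - k0, by omega⟩
  have h3 := hJ1 J' (by omega)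
  rw [sum_range_add _ k0 J', sum_range_add _ k0 J']
  have h4 : ∑ k ∈ range k0, S.Z b B k α ≤ k0 := by
    refine le_trans (sum_le_sum fun k _ => S.Z_le b B k α) ?_
    simp
  have h5 : 0 ≤ ∑ k ∈ range k0, S.W k := sum_nonneg fun k _ => S.W_nonneg k
  have h6 : ∑ k ∈ range J', S.Z b B (k0 + k) α ≤ p * ∑ k ∈ range J', S.W (k0 + k) +
      3 / 2 * (1 / ((q : ℝ) + 1)) * J' := h3
  have h7 : 3 / 2 * (1 / ((q : ℝ) + 1)) * (J' : ℝ) ≤ ε / 2 * ((k0 + J' : ℕ) : ℝ) := by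
    have h8 : 3 / 2 * (1 / ((q : ℝ) + 1)) ≤ ε / 2 := by linarith
    have h9 : (J' : ℝ) ≤ ((k0 + J' : ℕ) : ℝ) := by push_cast; linarith [Nat.cast_nonneg (α := ℝ) k0]
    exact mul_le_mul h8 h9 (by positivity) (by positivity)
  have h10 : 0 ≤ p * ∑ k ∈ range k0, S.W k := mul_nonneg hp h5
  rw [mul_add]
  linarith

end Blocks

end Pool.Agent.X257.AE
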