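import Pool.Agent.X257.AE.Log

/-!
# Functions of bounded mean in short intervals at the prefixes of almost every real number

`f ≥ 0` is a function on the integers, the mean of `f` over the intervals `(N, N + M]`, `|N| ≤ M ^ 3`,
`M` large, is at most `p`, and the means of `f²` are bounded. For almost every real `α` the
logarithmic means of `f (⌊α b ^ n⌋)` have the upper limit at most `p`.
-/

set_option autoImplicit false

open Finset MeasureTheory Filter Topology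

namespace Pool.Agent.X257.AE

/-- the mean of `f` over `(N, N + M]` is at most `p` if `|N| ≤ M ^ 3`, `M ≥ M0` -/
def Avg (f : ℤ → ℝ) (p : ℝ) (M0 : ℕ) : Prop := ∀ (N : ℤ) (M : ℕ), M0 ≤ M → |N| ≤ (M : ℤ) ^ 3 →
  ∑ t ∈ Ioc N (N + M), f t ≤ p * M

theorem avg_nonneg {f : ℤ → ℝ} (hf : ∀ u, 0 ≤ f u) {p : ℝ} {M0 : ℕ} (h : Avg f p M0) : 0 ≤ p := by
  have h1 := h 0 (M0 + 1) (by omega) (by simp; positivity)
  by_contra h2
  push Not at h2
  have h3 : p * ((M0 + 1 : ℕ) : ℝ) < 0 := mul_neg_of_neg_of_pos h2 (by positivity)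
  have h4 : 0 ≤ ∑ t ∈ Ioc (0 : ℤ) (0 + ((M0 + 1 : ℕ) : ℤ)), f t := sum_nonneg fun u _ => hf u
  linarith

theorem fcond_sum {b : ℕ} (hb : 2 ≤ b) {m i : ℕ} (h : 2 * m ≤ i) {K : ℤ} {f : ℤ → ℝ} {p : ℝ}
    {M0 : ℕ} (hB : Avg f p M0) (hm : M0 + K.natAbs + 2 ≤ m) {v : ℤ} (hv : v ∈ box K b m) :
    ∑ w ∈ Ico (v * (b : ℤ) ^ (i - m)) ((v + 1) * (b : ℤ) ^ (i - m)), f w ≤
      p * (b : ℝ) ^ (i - m) := by
  set c : ℕ := b ^ (i - m) with hc
  have hcz : (b : ℤ) ^ (i - m) = (c : ℤ) := by rw [hc]; push_cast; rfl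
  have hcr : (b : ℝ) ^ (i - m) = (c : ℝ) := by rw [hc]; push_cast; rfl
  have hcm : m ≤ c := by
    have h1 : i - m < 2 ^ (i - m) := Nat.lt_two_pow_self
    have h2 : 2 ^ (i - m) ≤ b ^ (i - m) := Nat.pow_le_pow_left hb _
    omega
  have hbc : b ^ m ≤ c := Nat.pow_le_pow_right (by omega) (by omega)
  have hKc : K.natAbs + 2 ≤ c := by omega
  rw [hcz, hcr]
  have hset : Ico (v * (c : ℤ)) ((v + 1) * c) = Ioc (v * c - 1) (v * c - 1 + c) := by
    ext x
    rw [mem_Ico, mem_Ioc]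
    have : (v + 1) * (c : ℤ) = v * c + c := by ring
    omega
  rw [hset]
  have hN : |v * (c : ℤ) - 1| ≤ (c : ℤ) ^ 3 := by
    unfold box at hv
    rw [mem_Ico] at hv
    have hbm : (1 : ℤ) ≤ (b : ℤ) ^ m := by
      have : 1 ≤ b ^ m := Nat.one_le_pow _ _ (by omega)
      exact_mod_cast this
    have hbcz : (b : ℤ) ^ m ≤ c := by exact_mod_cast hbc
    have hKz : |K| + 2 ≤ (c : ℤ) := by
      rw [Int.abs_eq_natAbs]
      exact_mod_cast hKc
    have hKa : |K| ≤ (c : ℤ) - 2 := by linarith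
    have hK1 : -|K| ≤ K := neg_abs_le K
    have hK2 : K ≤ |K| := le_abs_self K
    have hK0 : 0 ≤ |K| := abs_nonneg K
    have hv1 : |v| ≤ (|K| + 1) * (b : ℤ) ^ m := by
      rw [abs_le]
      constructor
      · nlinarith [hv.1]
      · nlinarith [hv.2]
    have hc0 : (0 : ℤ) ≤ c := by positivity
    have hv2 : |v| ≤ ((c : ℤ) - 1) * c := by
      refine hv1.trans ?_
      calc (|K| + 1) * (b : ℤ) ^ m ≤ ((c : ℤ) - 1) * (b : ℤ) ^ m := by
            apply mul_le_mul_of_nonneg_right _ (by linarith)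
            linarith
        _ ≤ ((c : ℤ) - 1) * c := by
            apply mul_le_mul_of_nonneg_left hbcz
            linarith
    have h5 : |v * (c : ℤ) - 1| ≤ |v| * c + 1 := by
      refine (abs_sub _ _).trans ?_
      rw [abs_mul, abs_one, abs_of_nonneg hc0]
    refine h5.trans ?_
    have hc2 : (2 : ℤ) ≤ c := by linarith
    nlinarith [mul_le_mul_of_nonneg_right hv2 hc0, sq_nonneg ((c : ℤ))]
  exact hB (v * (c : ℤ) - 1) c (by omega) hN

theorem fcond_av {b : ℕ} (hb : 2 ≤ b) {m i n : ℕ} (h : 2 * m ≤ i) (hin : i ≤ n) {K : ℤ}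
    {f : ℤ → ℝ} {p : ℝ} {M0 : ℕ} (hB : Avg f p M0) (hm : M0 + K.natAbs + 2 ≤ m) (g : ℤ → ℝ)
    (hg : ∀ u, 0 ≤ g u) :
    av K b n (fun u => g (u / (b : ℤ) ^ (n - m)) * f (u / (b : ℤ) ^ (n - i))) ≤
      p * av K b m g := by
  have hb0 : 0 < b := by omega
  have hbz : (0 : ℤ) < b := by exact_mod_cast hb0
  have hbr : (0 : ℝ) < b := by exact_mod_cast hb0
  have hmi : m ≤ i := by omega
  have h1 : (fun u : ℤ => g (u / (b : ℤ) ^ (n - m)) * f (u / (b : ℤ) ^ (n - i))) =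
      fun u : ℤ => (fun x : ℤ => g (x / (b : ℤ) ^ (i - m)) * f x) (u / (b : ℤ) ^ (n - i)) := by
    funext u
    have h2 : u / (b : ℤ) ^ (n - i) / (b : ℤ) ^ (i - m) = u / (b : ℤ) ^ (n - m) := by
      rw [Int.ediv_ediv_of_nonneg (by positivity), ← pow_add]
      congr 2
      omega
    simp only [h2]
  have h0 := av_lift hb0 hin K (fun x : ℤ => g (x / (b : ℤ) ^ (i - m)) * f x)
  rw [h1]
  refine (le_of_eq h0).trans ?_
  unfold av
  rw [sum_box hb0 hmi]
  have hc : (0 : ℤ) < (b : ℤ) ^ (i - m) := by positivity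
  have h3 : ∑ v ∈ box K b m, ∑ w ∈ Ico (v * (b : ℤ) ^ (i - m)) ((v + 1) * (b : ℤ) ^ (i - m)),
      g (w / (b : ℤ) ^ (i - m)) * f w ≤ ∑ v ∈ box K b m, g v * (p * (b : ℝ) ^ (i - m)) := by
    refine sum_le_sum fun v hv => ?_
    rw [sum_congr rfl (fun w hw => by rw [(ediv_eq_iff_mem hc w v).2 hw]), ← mul_sum]
    exact mul_le_mul_of_nonneg_left (fcond_sum hb h hB hm hv) (hg v)
  refine (div_le_div_of_nonneg_right h3 (by positivity)).trans (le_of_eq ?_)
  rw [← sum_mul]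
  have h4 : (b : ℝ) ^ i = (b : ℝ) ^ (i - m) * (b : ℝ) ^ m := by
    rw [← pow_add, Nat.sub_add_cancel hmi]
  rw [h4]
  field_simp

theorem av_one {b : ℕ} (hb : 0 < b) (K : ℤ) (n : ℕ) : av K b n (fun _ => 1) = 1 := by
  have hbr : (0 : ℝ) < (b : ℝ) ^ n := by positivity
  unfold av
  have h1 : ∑ u ∈ box K b n, (1 : ℝ) = (b : ℝ) ^ n := by
    simp only [sum_const, nsmul_eq_mul, mul_one]
    unfold box
    rw [Int.card_Ico]
    have h2 : (K + 1) * (b : ℤ) ^ n - K * (b : ℤ) ^ n = ((b ^ n : ℕ) : ℤ) := by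
      push_cast
      ring
    rw [h2, Int.toNat_natCast]
    push_cast
    rfl
  rw [h1, div_self hbr.ne']

namespace Blocks

variable (S : Blocks)

/-- weighted sum over a block -/
noncomputable def fZ (b : ℕ) (f : ℤ → ℝ) (k : ℕ) (α : ℝ) : ℝ :=
  ∑ i ∈ S.T k, S.w k i * f (pre b i α)

/-- the same as a function of the number of the level `n` -/
noncomputable def fZf (b n : ℕ) (f : ℤ → ℝ) (k : ℕ) (u : ℤ) : ℝ :=
  ∑ i ∈ S.T k, S.w k i * f (u / (b : ℤ) ^ (n - i))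

/-- the product -/
noncomputable def fQ (b : ℕ) (f : ℤ → ℝ) (θ : ℝ) : ℕ → ℤ → ℝ
  | 0, _ => 1
  | J + 1, u => fQ b f θ J (u / (b : ℤ) ^ (S.a (J + 1) - S.a J)) *
      (1 + θ * S.fZf b (S.a (J + 1)) f J u)

/-- the sum -/
noncomputable def fL (b : ℕ) (f : ℤ → ℝ) : ℕ → ℤ → ℝ
  | 0, _ => 0
  | J + 1, u => fL b f J (u / (b : ℤ) ^ (S.a (J + 1) - S.a J)) + S.fZf b (S.a (J + 1)) f J u

variable {f : ℤ → ℝ} (hf : ∀ u, 0 ≤ f u)

include hf in
theorem fZ_nonneg (b k : ℕ) (α : ℝ) : 0 ≤ S.fZ b f k α :=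
  sum_nonneg fun i _ => mul_nonneg (S.nonneg k i) (hf _)

include hf in
theorem fZf_nonneg (b n k : ℕ) (u : ℤ) : 0 ≤ S.fZf b n f k u :=
  sum_nonneg fun i _ => mul_nonneg (S.nonneg k i) (hf _)

include hf in
theorem fQ_nonneg (b : ℕ) {θ : ℝ} (hθ : 0 ≤ θ) (J : ℕ) (u : ℤ) : 0 ≤ S.fQ b f θ J u := by
  induction J generalizing u with
  | zero => exact zero_le_one
  | succ J ih =>
    unfold fQ
    have := S.fZf_nonneg hf b (S.a (J + 1)) J u
    exact mul_nonneg (ih _) (by positivity)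

include hf in
theorem fL_nonneg (b : ℕ) (J : ℕ) (u : ℤ) : 0 ≤ S.fL b f J u := by
  induction J generalizing u with
  | zero => exact le_rfl
  | succ J ih =>
    unfold fL
    have := S.fZf_nonneg hf b (S.a (J + 1)) J u
    exact add_nonneg (ih _) this

theorem fZf_eq {b : ℕ} (hb : 0 < b) (f : ℤ → ℝ) (J : ℕ) (α : ℝ) :
    S.fZf b (S.a (J + 1)) f J (pre b (S.a (J + 1)) α) = S.fZ b f J α := by
  unfold fZf fZ
  refine sum_congr rfl fun i hi => ?_
  rw [← pre_div hb (S.high J i hi)]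

theorem fQ_eq {b : ℕ} (hb : 0 < b) (f : ℤ → ℝ) (θ : ℝ) (J : ℕ) (α : ℝ) :
    S.fQ b f θ J (pre b (S.a J) α) = ∏ k ∈ range J, (1 + θ * S.fZ b f k α) := by
  induction J with
  | zero => simp [fQ]
  | succ J ih =>
    rw [prod_range_succ, ← ih]
    have h0 : S.fQ b f θ (J + 1) (pre b (S.a (J + 1)) α) =
        S.fQ b f θ J (pre b (S.a (J + 1)) α / (b : ℤ) ^ (S.a (J + 1) - S.a J)) *
          (1 + θ * S.fZf b (S.a (J + 1)) f J (pre b (S.a (J + 1)) α)) := rfl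
    rw [h0, ← pre_div hb (S.mono J), S.fZf_eq hb]

theorem fL_eq {b : ℕ} (hb : 0 < b) (f : ℤ → ℝ) (J : ℕ) (α : ℝ) :
    S.fL b f J (pre b (S.a J) α) = ∑ k ∈ range J, S.fZ b f k α := by
  induction J with
  | zero => simp [fL]
  | succ J ih =>
    rw [sum_range_succ, ← ih]
    have h0 : S.fL b f (J + 1) (pre b (S.a (J + 1)) α) =
        S.fL b f J (pre b (S.a (J + 1)) α / (b : ℤ) ^ (S.a (J + 1) - S.a J)) +
          S.fZf b (S.a (J + 1)) f J (pre b (S.a (J + 1)) α) := rfl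
    rw [h0, ← pre_div hb (S.mono J), S.fZf_eq hb]

include hf in
theorem av_fQ {b : ℕ} (hb : 2 ≤ b) {K : ℤ} {p : ℝ} {M0 : ℕ} (hB : Avg f p M0)
    (hm : ∀ k, M0 + K.natAbs + 2 ≤ S.a k) {θ : ℝ} (hθ : 0 ≤ θ) (J : ℕ) :
    av K b (S.a J) (S.fQ b f θ J) ≤ Real.exp (θ * (p * ∑ k ∈ range J, S.W k)) := by
  have hb0 : 0 < b := by omega
  have hp := avg_nonneg hf hB
  induction J with
  | zero =>
    simp only [range_zero, sum_empty, mul_zero, Real.exp_zero]
    exact le_of_eq (av_one hb0 K (S.a 0))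
  | succ J ih =>
    set n := S.a (J + 1) with hn
    set m := S.a J with hmdef
    have hmn : m ≤ n := S.mono J
    have h1 : av K b n (S.fQ b f θ (J + 1)) =
        av K b n (fun u => S.fQ b f θ J (u / (b : ℤ) ^ (n - m))) +
        θ * ∑ i ∈ S.T J, S.w J i * av K b n (fun u => S.fQ b f θ J (u / (b : ℤ) ^ (n - m)) *
          f (u / (b : ℤ) ^ (n - i))) := by
      unfold av
      have h2 : ∀ u, S.fQ b f θ (J + 1) u = S.fQ b f θ J (u / (b : ℤ) ^ (n - m)) +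
          θ * ∑ i ∈ S.T J, S.w J i * (S.fQ b f θ J (u / (b : ℤ) ^ (n - m)) *
            f (u / (b : ℤ) ^ (n - i))) := by
        intro u
        change S.fQ b f θ J (u / (b : ℤ) ^ (n - m)) * (1 + θ * S.fZf b n f J u) = _
        unfold fZf
        rw [mul_add, mul_one, mul_left_comm, mul_sum]
        congr 2
        exact sum_congr rfl fun i _ => by ring
      rw [sum_congr rfl fun u _ => h2 u, sum_add_distrib, add_div, ← mul_sum, sum_comm]
      congr 1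
      rw [mul_div_assoc, sum_div]
      congr 1
      refine sum_congr rfl fun i _ => ?_
      rw [← mul_sum, mul_div_assoc]
    rw [h1, av_lift hb0 hmn]
    have hA : 0 ≤ av K b m (S.fQ b f θ J) :=
      div_nonneg (sum_nonneg fun u _ => S.fQ_nonneg hf b hθ J u) (by positivity)
    have h3 : ∑ i ∈ S.T J, S.w J i * av K b n (fun u => S.fQ b f θ J (u / (b : ℤ) ^ (n - m)) *
        f (u / (b : ℤ) ^ (n - i))) ≤ S.W J * (p * av K b m (S.fQ b f θ J)) := by
      unfold W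
      rw [sum_mul]
      refine sum_le_sum fun i hi => ?_
      refine mul_le_mul_of_nonneg_left ?_ (S.nonneg J i)
      exact fcond_av hb (S.low J i hi) (S.high J i hi) hB (hm J) _ (S.fQ_nonneg hf b hθ J)
    have h4 : av K b m (S.fQ b f θ J) + θ * (S.W J * (p * av K b m (S.fQ b f θ J))) =
        av K b m (S.fQ b f θ J) * (1 + θ * (p * S.W J)) := by ring
    refine (add_le_add_right (mul_le_mul_of_nonneg_left h3 hθ) _).trans ?_
    have h7 : θ * (p * ∑ k ∈ range (J + 1), S.W k) =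
        θ * (p * ∑ k ∈ range J, S.W k) + θ * (p * S.W J) := by
      rw [sum_range_succ]
      ring
    rw [h4, h7, Real.exp_add]
    have h5 : 1 + θ * (p * S.W J) ≤ Real.exp (θ * (p * S.W J)) := by
      rw [add_comm]
      exact Real.add_one_le_exp _
    have h6 : 0 ≤ 1 + θ * (p * S.W J) := by
      have := S.W_nonneg J
      positivity
    exact mul_le_mul ih h5 h6 (Real.exp_pos _).le

include hf in
theorem av_fL {b : ℕ} (hb : 2 ≤ b) {K : ℤ} {p : ℝ} {M0 : ℕ} (hB : Avg f p M0)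
    (hm : ∀ k, M0 + K.natAbs + 2 ≤ S.a k) (J : ℕ) :
    av K b (S.a J) (S.fL b f J) ≤ p * J := by
  have hb0 : 0 < b := by omega
  have hp := avg_nonneg hf hB
  induction J with
  | zero =>
    unfold av
    simp [fL]
  | succ J ih =>
    set n := S.a (J + 1) with hn
    set m := S.a J with hmdef
    have hmn : m ≤ n := S.mono J
    have h1 : av K b n (S.fL b f (J + 1)) =
        av K b n (fun u => S.fL b f J (u / (b : ℤ) ^ (n - m))) +
        ∑ i ∈ S.T J, S.w J i * av K b n (fun u => (fun _ => (1 : ℝ)) (u / (b : ℤ) ^ (n - m)) *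
          f (u / (b : ℤ) ^ (n - i))) := by
      unfold av
      have h2 : ∀ u, S.fL b f (J + 1) u = S.fL b f J (u / (b : ℤ) ^ (n - m)) +
          ∑ i ∈ S.T J, S.w J i * ((fun _ => (1 : ℝ)) (u / (b : ℤ) ^ (n - m)) *
            f (u / (b : ℤ) ^ (n - i))) := by
        intro u
        change S.fL b f J (u / (b : ℤ) ^ (n - m)) + S.fZf b n f J u = _
        unfold fZf
        congr 1
        exact sum_congr rfl fun i _ => by ring
      rw [sum_congr rfl fun u _ => h2 u, sum_add_distrib, add_div, sum_comm]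
      congr 1
      rw [sum_div]
      refine sum_congr rfl fun i _ => ?_
      rw [← mul_sum, mul_div_assoc]
    rw [h1, av_lift hb0 hmn]
    have h3 : ∑ i ∈ S.T J, S.w J i * av K b n (fun u => (fun _ => (1 : ℝ)) (u / (b : ℤ) ^ (n - m)) *
        f (u / (b : ℤ) ^ (n - i))) ≤ ∑ i ∈ S.T J, S.w J i * p := by
      refine sum_le_sum fun i hi => ?_
      refine mul_le_mul_of_nonneg_left ?_ (S.nonneg J i)
      have h5 := fcond_av hb (S.low J i hi) (S.high J i hi) hB (hm J) (fun _ => (1 : ℝ))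
        (fun _ => zero_le_one)
      rw [av_one hb0, mul_one] at h5
      exact h5
    rw [← sum_mul] at h3
    have h4 : (∑ i ∈ S.T J, S.w J i) * p ≤ p := by
      have := S.sum_le J
      nlinarith
    push_cast
    linarith

theorem fZ_sq_le (b : ℕ) (f : ℤ → ℝ) (k : ℕ) (α : ℝ) :
    S.fZ b f k α ^ 2 ≤ S.fZ b (fun u => f u ^ 2) k α := by
  unfold fZ
  have h1 := sum_sq_le_sum_mul_sum_of_sq_le_mul (S.T k)
    (f := fun i => S.w k i) (g := fun i => S.w k i * f (pre b i α) ^ 2)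
    (r := fun i => S.w k i * f (pre b i α))
    (fun i _ => S.nonneg k i) (fun i _ => mul_nonneg (S.nonneg k i) (sq_nonneg _))
    (fun i _ => le_of_eq (by ring))
  refine h1.trans ?_
  have h2 := S.sum_le k
  have h3 : 0 ≤ ∑ i ∈ S.T k, S.w k i * f (pre b i α) ^ 2 :=
    sum_nonneg fun i _ => mul_nonneg (S.nonneg k i) (sq_nonneg _)
  nlinarith

/-- a bound for sums: almost every number of `[K, K + 1)` -/
theorem ae_sum_le {b : ℕ} (hb : 2 ≤ b) {K : ℤ} {g : ℤ → ℝ} (hg : ∀ u, 0 ≤ g u) {p : ℝ} {M0 : ℕ}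
    (hB : Avg g p M0) (hm : ∀ k, M0 + K.natAbs + 2 ≤ S.a k) :
    ∀ᵐ α : ℝ, α ∈ Set.Ico (K : ℝ) (K + 1) → ∀ᶠ j : ℕ in atTop,
      ∑ k ∈ range (4 ^ j), S.fZ b g k α ≤ 8 ^ j := by
  classical
  have hb0 : 0 < b := by omega
  have hp := avg_nonneg hg hB
  set s : ℕ → Set ℝ := fun j => {α : ℝ | α ∈ Set.Ico (K : ℝ) (K + 1) ∧
    (8 : ℝ) ^ j ≤ S.fL b g (4 ^ j) (pre b (S.a (4 ^ j)) α)} with hs
  have hmeas : ∀ j, volume (s j) ≤ ENNReal.ofReal (p * (1 / 2) ^ j) := by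
    intro j
    refine (vol_le hb0 (S.a (4 ^ j)) K (fun u => (8 : ℝ) ^ j ≤ S.fL b g (4 ^ j) u)).trans
      (ENNReal.ofReal_le_ofReal ?_)
    have h1 := S.av_fL hg hb hB hm (4 ^ j)
    unfold av at h1
    have hbr : (0 : ℝ) < (b : ℝ) ^ S.a (4 ^ j) := by positivity
    have h8 : (0 : ℝ) < 8 ^ j := by positivity
    have h2 : (((box K b (S.a (4 ^ j))).filter
        (fun u => (8 : ℝ) ^ j ≤ S.fL b g (4 ^ j) u)).card : ℝ) * 8 ^ j ≤
        ∑ u ∈ box K b (S.a (4 ^ j)), S.fL b g (4 ^ j) u := by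
      rw [← nsmul_eq_mul]
      refine le_trans (card_nsmul_le_sum _ _ _ fun u hu => (mem_filter.1 hu).2) ?_
      exact sum_le_sum_of_subset_of_nonneg (filter_subset _ _)
        fun u _ _ => S.fL_nonneg hg b (4 ^ j) u
    have h3 : ((((box K b (S.a (4 ^ j))).filter
        (fun u => (8 : ℝ) ^ j ≤ S.fL b g (4 ^ j) u)).card : ℝ) /
        (b : ℝ) ^ S.a (4 ^ j)) * 8 ^ j ≤ p * ((4 ^ j : ℕ) : ℝ) := by
      refine le_trans ?_ h1
      rw [div_mul_eq_mul_div]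
      exact div_le_div_of_nonneg_right h2 hbr.le
    rw [← le_div_iff₀ h8] at h3
    refine h3.trans (le_of_eq ?_)
    push_cast
    rw [mul_div_assoc, ← div_pow]
    norm_num
  have hsum : ∑' j, volume (s j) ≠ ⊤ := by
    have hsm : Summable (fun j : ℕ => p * (1 / 2 : ℝ) ^ j) :=
      (summable_geometric_of_lt_one (by norm_num) (by norm_num)).mul_left p
    refine ne_top_of_le_ne_top (hsm.tsum_ofReal_ne_top) ?_
    exact ENNReal.tsum_le_tsum hmeas
  filter_upwards [ae_eventually_notMem hsum] with α hα hK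
  filter_upwards [hα] with j hj
  have h1 : S.fL b g (4 ^ j) (pre b (S.a (4 ^ j)) α) < 8 ^ j := by
    by_contra h
    push Not at h
    exact hj ⟨hK, h⟩
  rw [S.fL_eq hb0] at h1
  exact h1.le

include hf in
/-- almost every number of `[K, K + 1)`: all levels large -/
theorem ae_flarge {b : ℕ} (hb : 2 ≤ b) {K : ℤ} {p q : ℝ} {M0 : ℕ} (hB : Avg f p M0)
    (hB2 : Avg (fun u => f u ^ 2) q M0)
    (hm : ∀ k, M0 + K.natAbs + 2 ≤ S.a k) {δ : ℝ} (hδ : 0 < δ) :
    ∀ᵐ α : ℝ, α ∈ Set.Ico (K : ℝ) (K + 1) → ∀ᶠ J : ℕ in atTop,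
      ∑ k ∈ range J, S.fZ b f k α ≤ p * ∑ k ∈ range J, S.W k + 2 * δ * J := by
  classical
  have hb0 : 0 < b := by omega
  set θ : ℕ → ℝ := fun J => 2 / δ * Real.log J / J with hθ
  have hθ0 : ∀ J, 0 ≤ θ J := fun J =>
    div_nonneg (mul_nonneg (by positivity) (Real.log_natCast_nonneg J)) (Nat.cast_nonneg J)
  have hθJ : ∀ J : ℕ, 1 ≤ J → θ J * J = 2 / δ * Real.log J := by
    intro J hJ
    have hJ0 : (J : ℝ) ≠ 0 := by
      have : J ≠ 0 := by omega
      exact_mod_cast this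
    rw [hθ]
    field_simp
  set x : ℕ → ℝ := fun J => Real.exp (θ J * (p * ∑ k ∈ range J, S.W k) + θ J * δ * J) with hx
  set s : ℕ → Set ℝ := fun J => {α : ℝ | α ∈ Set.Ico (K : ℝ) (K + 1) ∧
    x J ≤ S.fQ b f (θ J) J (pre b (S.a J) α)} with hs
  have hmeas : ∀ J, volume (s J) ≤ ENNReal.ofReal (Real.exp (-(θ J * δ * J))) := by
    intro J
    refine (vol_le hb0 (S.a J) K (fun u => x J ≤ S.fQ b f (θ J) J u)).trans
      (ENNReal.ofReal_le_ofReal ?_)
    have h1 := S.av_fQ hf hb hB hm (hθ0 J) J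
    unfold av at h1
    have hbr : (0 : ℝ) < (b : ℝ) ^ S.a J := by positivity
    have hxp : 0 < x J := Real.exp_pos _
    have h2 : (((box K b (S.a J)).filter (fun u => x J ≤ S.fQ b f (θ J) J u)).card : ℝ) * x J ≤
        ∑ u ∈ box K b (S.a J), S.fQ b f (θ J) J u := by
      rw [← nsmul_eq_mul]
      refine le_trans (card_nsmul_le_sum _ _ _ fun u hu => (mem_filter.1 hu).2) ?_
      exact sum_le_sum_of_subset_of_nonneg (filter_subset _ _)
        fun u _ _ => S.fQ_nonneg hf b (hθ0 J) J u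
    have h3 : ((((box K b (S.a J)).filter (fun u => x J ≤ S.fQ b f (θ J) J u)).card : ℝ) /
        (b : ℝ) ^ S.a J) * x J ≤ Real.exp (θ J * (p * ∑ k ∈ range J, S.W k)) := by
      refine le_trans ?_ h1
      rw [div_mul_eq_mul_div]
      exact div_le_div_of_nonneg_right h2 hbr.le
    rw [← le_div_iff₀ hxp] at h3
    refine h3.trans (le_of_eq ?_)
    rw [hx]
    simp only
    rw [← Real.exp_sub]
    congr 1
    ring
  have hsum : ∑' J, volume (s J) ≠ ⊤ := by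
    have hS : Summable (fun J : ℕ => 1 / (J : ℝ) ^ 2) :=
      Real.summable_one_div_nat_pow.2 (by norm_num)
    have hsm : Summable (fun J : ℕ => Real.exp (-(θ J * δ * J))) := by
      refine (summable_nat_add_iff 1).1 (((summable_nat_add_iff 1).2 hS).congr fun J => ?_)
      have hJ : (0 : ℝ) < ((J + 1 : ℕ) : ℝ) := by positivity
      have h1 : θ (J + 1) * δ * ((J + 1 : ℕ) : ℝ) = 2 * Real.log ((J + 1 : ℕ) : ℝ) := by
        have h2 := hθJ (J + 1) (by omega)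
        have h3 : θ (J + 1) * δ * ((J + 1 : ℕ) : ℝ) = δ * (θ (J + 1) * ((J + 1 : ℕ) : ℝ)) := by ring
        rw [h3, h2]
        field_simp
      rw [h1, Real.exp_neg, one_div]
      congr 1
      have h4 : (2 : ℝ) * Real.log ((J + 1 : ℕ) : ℝ) = ((2 : ℕ) : ℝ) * Real.log ((J + 1 : ℕ) : ℝ) := by
        norm_num
      rw [h4, Real.exp_nat_mul, Real.exp_log hJ]
    refine ne_top_of_le_ne_top (hsm.tsum_ofReal_ne_top) ?_
    exact ENNReal.tsum_le_tsum hmeas
  have hlog : ∀ᶠ J : ℕ in atTop, Real.log J ≤ δ ^ 2 / 8 * Real.sqrt J := by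
    have h1 := (isLittleO_log_rpow_atTop (show (0 : ℝ) < 1 / 2 by norm_num)).bound
      (show (0 : ℝ) < δ ^ 2 / 8 by positivity)
    filter_upwards [tendsto_natCast_atTop_atTop.eventually h1] with J hJ
    rw [Real.norm_eq_abs, Real.norm_eq_abs, abs_of_nonneg (Real.log_natCast_nonneg J),
      abs_of_nonneg (by positivity), ← Real.sqrt_eq_rpow] at hJ
    exact hJ
  filter_upwards [ae_eventually_notMem hsum,
    S.ae_sum_le hb (fun u => sq_nonneg (f u)) hB2 hm] with α hα hα2 hK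
  obtain ⟨j0, hj0⟩ := (hα2 hK).exists_forall_of_atTop
  filter_upwards [hα, hlog, eventually_ge_atTop (4 ^ j0), eventually_ge_atTop 2]
    with J hJ hJlog hJ0 hJ2
  have hJr : (0 : ℝ) < J := by
    have : 0 < J := by omega
    exact_mod_cast this
  have hθp : 0 < θ J := by
    have : (0 : ℝ) < Real.log J := Real.log_pos (by exact_mod_cast hJ2)
    rw [hθ]
    positivity
  have hsq : ∑ k ∈ range J, S.fZ b f k α ^ 2 ≤ 8 * (J * Real.sqrt J) := by
    set j := Nat.log 4 J with hj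
    have h1 : 4 ^ j ≤ J := Nat.pow_log_le_self 4 (by omega)
    have h2 : J < 4 ^ (j + 1) := Nat.lt_pow_succ_log_self (by norm_num) J
    have h3 : j0 ≤ j := Nat.le_log_of_pow_le (by norm_num) hJ0
    have h4 : ∑ k ∈ range J, S.fZ b f k α ^ 2 ≤
        ∑ k ∈ range (4 ^ (j + 1)), S.fZ b (fun u => f u ^ 2) k α := by
      refine (sum_le_sum fun k _ => S.fZ_sq_le b f k α).trans ?_
      refine sum_le_sum_of_subset_of_nonneg (range_subset_range.2 h2.le) fun k _ _ => ?_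
      exact S.fZ_nonneg (fun u => sq_nonneg (f u)) b k α
    refine h4.trans ((hj0 (j + 1) (by omega)).trans ?_)
    rw [pow_succ, mul_comm]
    refine mul_le_mul_of_nonneg_left ?_ (by norm_num)
    have h5 : (4 : ℝ) ^ j ≤ J := by exact_mod_cast h1
    have h6 : (2 : ℝ) ^ j ≤ Real.sqrt J := by
      apply Real.le_sqrt_of_sq_le
      rw [← pow_mul, mul_comm, pow_mul]
      norm_num
      exact h5
    have h7 : (8 : ℝ) ^ j = 4 ^ j * 2 ^ j := by
      rw [← mul_pow]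
      norm_num
    rw [h7]
    exact mul_le_mul h5 h6 (by positivity) hJr.le
  have h1 : S.fQ b f (θ J) J (pre b (S.a J) α) < x J := by
    by_contra h
    push Not at h
    exact hJ ⟨hK, h⟩
  rw [S.fQ_eq hb0] at h1
  have hZ0 : ∀ k, 0 ≤ S.fZ b f k α := fun k => S.fZ_nonneg hf b k α
  have hpos : ∀ k ∈ range J, 0 < 1 + θ J * S.fZ b f k α := fun k _ => by
    have := hZ0 k
    positivity
  have h2 := Real.log_lt_log (prod_pos hpos) h1
  rw [Real.log_prod (fun k hk => (hpos k hk).ne'), hx] at h2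
  simp only [Real.log_exp] at h2
  have h3 : ∀ k ∈ range J, θ J * S.fZ b f k α - θ J ^ 2 / 2 * S.fZ b f k α ^ 2 ≤
      Real.log (1 + θ J * S.fZ b f k α) := by
    intro k _
    have h4 := hZ0 k
    set y := θ J * S.fZ b f k α with hy
    have hy0 : 0 ≤ y := by positivity
    have hy2 : θ J ^ 2 / 2 * S.fZ b f k α ^ 2 = y ^ 2 / 2 := by
      rw [hy]
      ring
    rw [hy2]
    refine le_trans ?_ (Real.le_log_one_add_of_nonneg hy0)
    rw [le_div_iff₀ (by linarith)]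
    nlinarith [mul_nonneg hy0 (mul_nonneg hy0 hy0)]
  have h4 := sum_le_sum h3
  rw [sum_sub_distrib, ← mul_sum, ← mul_sum] at h4
  have h5 : θ J * ∑ k ∈ range J, S.fZ b f k α ≤
      θ J * (p * ∑ k ∈ range J, S.W k + δ * J + θ J / 2 * ∑ k ∈ range J, S.fZ b f k α ^ 2) := by
    have e1 : θ J * (p * ∑ k ∈ range J, S.W k + δ * J +
        θ J / 2 * ∑ k ∈ range J, S.fZ b f k α ^ 2) =
        θ J * (p * ∑ k ∈ range J, S.W k) + θ J * δ * J +
          θ J ^ 2 / 2 * ∑ k ∈ range J, S.fZ b f k α ^ 2 := by ring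
    rw [e1]
    linarith
  have h6 := le_of_mul_le_mul_left h5 hθp
  refine h6.trans ?_
  have h7 : θ J / 2 * ∑ k ∈ range J, S.fZ b f k α ^ 2 ≤ δ * J := by
    have h8 : θ J / 2 * ∑ k ∈ range J, S.fZ b f k α ^ 2 ≤ θ J / 2 * (8 * (J * Real.sqrt J)) :=
      mul_le_mul_of_nonneg_left hsq (by positivity)
    refine h8.trans ?_
    have h9 : θ J / 2 * (8 * (J * Real.sqrt J)) = 4 * (θ J * J) * Real.sqrt J := by ring
    rw [h9, hθJ J (by omega)]
    have h10 : Real.sqrt J * Real.sqrt J = J := Real.mul_self_sqrt hJr.le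
    have h11 : 4 * (2 / δ * Real.log J) * Real.sqrt J ≤
        4 * (2 / δ * (δ ^ 2 / 8 * Real.sqrt J)) * Real.sqrt J := by
      have : 0 ≤ Real.sqrt J := Real.sqrt_nonneg _
      gcongr
    refine h11.trans (le_of_eq ?_)
    have h12 : 4 * (2 / δ * (δ ^ 2 / 8 * Real.sqrt J)) * Real.sqrt J =
        4 * (2 / δ * (δ ^ 2 / 8)) * (Real.sqrt J * Real.sqrt J) := by ring
    rw [h12, h10]
    field_simp
    ring
  linarith

include hf in
/-- almost every real number -/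
theorem ae_fblocks (ha : ∀ k, k ≤ S.a k) {p q : ℝ} {M0 : ℕ} (hB : Avg f p M0)
    (hB2 : Avg (fun u => f u ^ 2) q M0) :
    ∀ᵐ α : ℝ, ∀ b : ℕ, 2 ≤ b → ∀ ε : ℝ, 0 < ε → ∀ᶠ J : ℕ in atTop,
      ∑ k ∈ range J, S.fZ b f k α ≤ p * ∑ k ∈ range J, S.W k + ε * J := by
  have hp := avg_nonneg hf hB
  have h1 : ∀ᵐ α : ℝ, ∀ b : ℕ, 2 ≤ b → ∀ K : ℤ, ∀ r : ℕ, α ∈ Set.Ico (K : ℝ) (K + 1) →
      ∀ᶠ J : ℕ in atTop, ∑ k ∈ range J, (S.shift (M0 + K.natAbs + 2)).fZ b f k α ≤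
        p * ∑ k ∈ range J, (S.shift (M0 + K.natAbs + 2)).W k + 2 * (1 / ((r : ℝ) + 1)) * J := by
    rw [ae_all_iff]
    intro b
    by_cases hb : 2 ≤ b
    · simp only [hb, forall_true_left]
      rw [ae_all_iff]
      intro K
      rw [ae_all_iff]
      intro r
      refine (S.shift (M0 + K.natAbs + 2)).ae_flarge hf hb hB hB2 (fun k => ?_) (by positivity)
      have := ha (M0 + K.natAbs + 2 + k)
      change M0 + K.natAbs + 2 ≤ S.a (M0 + K.natAbs + 2 + k)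
      omega
    · exact Eventually.of_forall fun α h => absurd h hb
  filter_upwards [h1] with α hα b hb ε hε
  obtain ⟨r, hr⟩ := exists_nat_one_div_lt (show (0 : ℝ) < ε / 4 by positivity)
  set K : ℤ := ⌊α⌋ with hK
  set k0 := M0 + K.natAbs + 2 with hk0
  have h2 := hα b hb K r ⟨Int.floor_le α, Int.lt_floor_add_one α⟩
  have hlin : ∀ᶠ J : ℕ in atTop, ∑ k ∈ range k0, S.fZ b f k α ≤ ε / 2 * J := by
    obtain ⟨n, hn⟩ := exists_nat_gt ((∑ k ∈ range k0, S.fZ b f k α) / (ε / 2))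
    filter_upwards [eventually_ge_atTop n] with J hJ
    rw [div_lt_iff₀ (by positivity)] at hn
    have : (n : ℝ) ≤ J := by exact_mod_cast hJ
    nlinarith
  obtain ⟨J1, hJ1⟩ := h2.exists_forall_of_atTop
  filter_upwards [hlin, eventually_ge_atTop (J1 + k0)] with J hJ hJ2
  obtain ⟨J', rfl⟩ : ∃ J', J = k0 + J' := ⟨J - k0, by omega⟩
  have h3 := hJ1 J' (by omega)
  rw [sum_range_add _ k0 J', sum_range_add _ k0 J']
  have h5 : 0 ≤ ∑ k ∈ range k0, S.W k := sum_nonneg fun k _ => S.W_nonneg k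
  have h6 : ∑ k ∈ range J', S.fZ b f (k0 + k) α ≤ p * ∑ k ∈ range J', S.W (k0 + k) +
      2 * (1 / ((r : ℝ) + 1)) * J' := h3
  have h7 : 2 * (1 / ((r : ℝ) + 1)) * (J' : ℝ) ≤ ε / 2 * ((k0 + J' : ℕ) : ℝ) := by
    have h8 : 2 * (1 / ((r : ℝ) + 1)) ≤ ε / 2 := by linarith
    have h9 : (J' : ℝ) ≤ ((k0 + J' : ℕ) : ℝ) := by push_cast; linarith [Nat.cast_nonneg (α := ℝ) k0]
    exact mul_le_mul h8 h9 (by positivity) (by positivity)
  have h10 : 0 ≤ p * ∑ k ∈ range k0, S.W k := mul_nonneg hp h5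
  rw [mul_add]
  linarith

end Blocks

/-- **Logarithmic means.** -/
theorem ae_flog {f : ℤ → ℝ} (hf : ∀ u, 0 ≤ f u) {p q : ℝ} {M0 : ℕ} (hB : Avg f p M0)
    (hB2 : Avg (fun u => f u ^ 2) q M0) :
    ∀ᵐ α : ℝ, ∀ b : ℕ, 2 ≤ b → ∀ ε : ℝ, 0 < ε → ∀ᶠ x : ℕ in atTop,
      ∑ n ∈ Icc 1 x, f (pre b n α) / (n : ℝ) ≤ (p + ε) * Real.log x := by
  have hp := avg_nonneg hf hB
  filter_upwards [(logBlocks 0).ae_fblocks hf (le_a 0) hB hB2,
    (logBlocks 1).ae_fblocks hf (le_a 1) hB hB2] with α h0 h1 b hb ε hε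
  have h2 := h0 b hb (ε / 8) (by positivity)
  have h3 := h1 b hb (ε / 8) (by positivity)
  obtain ⟨m1, hm1⟩ := (h2.and h3).exists_forall_of_atTop
  have hlog : Tendsto (fun x : ℕ => Real.log (x : ℝ)) atTop atTop :=
    Real.tendsto_log_atTop.comp tendsto_natCast_atTop_atTop
  filter_upwards [hlog.eventually_ge_atTop (2 * (f (pre b 1 α) + 2 * p + ε) / ε + 1),
    eventually_ge_atTop (2 ^ (2 * m1)), eventually_ge_atTop 2] with x hx1 hx2 hx3
  set m := Nat.log 2 x / 2 + 1 with hm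
  have hmm : m1 ≤ m := by
    have : 2 * m1 ≤ Nat.log 2 x := Nat.le_log_of_pow_le (by norm_num) hx2
    omega
  obtain ⟨h4, h5⟩ := hm1 m hmm
  have hxm : x ≤ 2 ^ (2 * m) := by
    have h6 : x < 2 ^ (Nat.log 2 x + 1) := Nat.lt_pow_succ_log_self (by norm_num) x
    have h7 : 2 ^ (Nat.log 2 x + 1) ≤ 2 ^ (2 * m) := Nat.pow_le_pow_right (by norm_num) (by omega)
    omega
  set F : ℕ → ℝ := fun i => 1 / (i : ℝ) * f (pre b i α) with hF
  have hZ := sum_blocks F m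
  have hW := sum_blocks (fun i => 1 / (i : ℝ)) m
  have hF0 : ∀ i, 0 ≤ F i := fun i => mul_nonneg (by positivity) (hf _)
  have h6 : ∑ n ∈ Icc 1 x, f (pre b n α) / (n : ℝ) ≤
      f (pre b 1 α) + ∑ i ∈ Ioc (1 : ℕ) (2 ^ (2 * m)), F i := by
    have h7 : ∑ n ∈ Icc 1 x, f (pre b n α) / (n : ℝ) = ∑ n ∈ Icc 1 x, F n := by
      refine sum_congr rfl fun n _ => ?_
      simp only [hF]
      ring
    rw [h7]
    have h8 : Icc 1 x ⊆ insert 1 (Ioc (1 : ℕ) (2 ^ (2 * m))) := by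
      intro i hi
      rw [mem_Icc] at hi
      rw [mem_insert, mem_Ioc]
      omega
    refine (sum_le_sum_of_subset_of_nonneg h8 fun i _ _ => hF0 i).trans ?_
    rw [sum_insert (by simp)]
    have h9 : F 1 = f (pre b 1 α) := by
      simp only [hF, Nat.cast_one, div_one, one_mul]
    linarith
  have h7 : ∑ i ∈ Ioc (1 : ℕ) (2 ^ (2 * m)), F i ≤
      p * ∑ i ∈ Ioc (1 : ℕ) (2 ^ (2 * m)), 1 / (i : ℝ) + ε / 4 * m := by
    rw [← hZ, ← hW, mul_add]
    have h8 : ∑ k ∈ range m, ∑ i ∈ Ioc ((2 : ℕ) ^ (2 * k + 0)) (2 ^ (2 * k + 0 + 1)), F i ≤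
        p * ∑ k ∈ range m, ∑ i ∈ Ioc ((2 : ℕ) ^ (2 * k + 0)) (2 ^ (2 * k + 0 + 1)), 1 / (i : ℝ) +
          ε / 8 * m := h4
    have h9 : ∑ k ∈ range m, ∑ i ∈ Ioc ((2 : ℕ) ^ (2 * k + 1)) (2 ^ (2 * k + 1 + 1)), F i ≤
        p * ∑ k ∈ range m, ∑ i ∈ Ioc ((2 : ℕ) ^ (2 * k + 1)) (2 ^ (2 * k + 1 + 1)), 1 / (i : ℝ) +
          ε / 8 * m := h5
    linarith
  have hx0 : (0 : ℝ) < x := by exact_mod_cast (by omega : 0 < x)
  have hl2 : 0 < Real.log 2 := Real.log_pos (by norm_num)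
  have hl2' : Real.log 2 < 0.6931471808 := Real.log_two_lt_d9
  have hl2'' : 0.6931471803 < Real.log 2 := Real.log_two_gt_d9
  have hL : ((Nat.log 2 x : ℕ) : ℝ) * Real.log 2 ≤ Real.log x := by
    have h8 : 2 ^ Nat.log 2 x ≤ x := Nat.pow_log_le_self 2 (by omega)
    have h9 : ((2 : ℝ)) ^ Nat.log 2 x ≤ x := by exact_mod_cast h8
    have h10 := Real.log_le_log (by positivity) h9
    rwa [Real.log_pow] at h10
  have hm2 : ((2 * m : ℕ) : ℝ) ≤ (Nat.log 2 x : ℝ) + 2 := by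
    have : 2 * m ≤ Nat.log 2 x + 2 := by omega
    exact_mod_cast this
  have h8 : ∑ i ∈ Ioc (1 : ℕ) (2 ^ (2 * m)), 1 / (i : ℝ) ≤ Real.log x + 2 := by
    have h9 := harmonic_le_one_add_log (2 ^ (2 * m))
    have h10 : (harmonic (2 ^ (2 * m)) : ℝ) = 1 + ∑ i ∈ Ioc (1 : ℕ) (2 ^ (2 * m)), 1 / (i : ℝ) := by
      rw [harmonic_eq_sum_Icc]
      have h11 : Icc 1 (2 ^ (2 * m)) = insert 1 (Ioc (1 : ℕ) (2 ^ (2 * m))) := by
        ext i
        have : 1 ≤ 2 ^ (2 * m) := Nat.one_le_two_pow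
        rw [mem_insert, mem_Icc, mem_Ioc]
        omega
      rw [h11, sum_insert (by simp)]
      push_cast
      simp [one_div]
    rw [h10] at h9
    have h12 : Real.log ((2 ^ (2 * m) : ℕ) : ℝ) = ((2 * m : ℕ) : ℝ) * Real.log 2 := by
      push_cast
      rw [Real.log_pow]
      push_cast
      ring
    rw [h12] at h9
    have h13 : ((2 * m : ℕ) : ℝ) * Real.log 2 ≤ ((Nat.log 2 x : ℝ) + 2) * Real.log 2 :=
      mul_le_mul_of_nonneg_right hm2 hl2.le
    nlinarith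
  have h9 : (m : ℝ) ≤ Real.log x + 1 := by
    have h10 : (Nat.log 2 x : ℝ) ≤ 2 * Real.log x := by
      have h11 : (0 : ℝ) ≤ (Nat.log 2 x : ℝ) := Nat.cast_nonneg _
      nlinarith
    push_cast at hm2
    linarith
  have h10 : 2 * (f (pre b 1 α) + 2 * p + ε) ≤ ε * (Real.log x - 1) := by
    have h11 : 2 * (f (pre b 1 α) + 2 * p + ε) / ε ≤ Real.log x - 1 := by linarith
    rw [div_le_iff₀ hε] at h11
    linarith
  have h11 : p * ∑ i ∈ Ioc (1 : ℕ) (2 ^ (2 * m)), 1 / (i : ℝ) ≤ p * (Real.log x + 2) :=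
    mul_le_mul_of_nonneg_left h8 hp
  have h12 : ε / 4 * (m : ℝ) ≤ ε / 4 * (Real.log x + 1) :=
    mul_le_mul_of_nonneg_left h9 (by positivity)
  have h13 := hf (pre b 1 α)
  nlinarith

/-- **Sparse sequences of levels**: ordinary means -/
theorem ae_fseq {f : ℤ → ℝ} (hf : ∀ u, 0 ≤ f u) {p q : ℝ} {M0 : ℕ} (hB : Avg f p M0)
    (hB2 : Avg (fun u => f u ^ 2) q M0) (n : ℕ → ℕ) (h0 : 1 ≤ n 0)
    (hn : ∀ k, 2 * n k ≤ n (k + 1)) :
    ∀ᵐ α : ℝ, ∀ b : ℕ, 2 ≤ b → ∀ ε : ℝ, 0 < ε → ∀ᶠ J : ℕ in atTop,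
      ∑ k ∈ range J, f (pre b (n k) α) ≤ (p + ε) * J := by
  have hpow : ∀ k, 2 ^ k ≤ n k := by
    intro k
    induction k with
    | zero => simpa using h0
    | succ k ih => rw [pow_succ]; have := hn k; omega
  have ha : ∀ k, k ≤ (seqBlocks n hn).a k := by
    intro k
    cases k with
    | zero => exact Nat.zero_le _
    | succ k =>
      change k + 1 ≤ n k
      have h1 : k < 2 ^ k := Nat.lt_two_pow_self
      have := hpow k
      omega
  filter_upwards [(seqBlocks n hn).ae_fblocks hf ha hB hB2] with α hα b hb ε hε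
  filter_upwards [hα b hb ε hε] with J hJ
  have h1 : ∑ k ∈ range J, (seqBlocks n hn).fZ b f k α = ∑ k ∈ range J, f (pre b (n k) α) := by
    refine sum_congr rfl fun k _ => ?_
    change ∑ i ∈ {n k}, (1 : ℝ) * f (pre b i α) = _
    rw [sum_singleton, one_mul]
  have h2 : ∑ k ∈ range J, (seqBlocks n hn).W k = J := by
    have h3 : ∀ k ∈ range J, (seqBlocks n hn).W k = 1 := by
      intro k _
      change ∑ i ∈ {n k}, (1 : ℝ) = 1
      simp
    rw [sum_congr rfl h3]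
    simp
  rw [h1, h2] at hJ
  linarith

end Pool.Agent.X257.AE
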