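import Pool.Agent.X257.AE.Point

/-!
# Functions of the prefixes which depend on the level

`f i ≥ 0` is a function on the integers (the prefixes `⌊α b ^ i⌋`), with conditional means at most `p`,
given a much shorter prefix, for `K ≤ α < K + 1`. For almost every such `α` the logarithmic means of
`f i (⌊α b ^ i⌋)` have the upper limit at most `p`, if the conditional means of `(f i)²` are bounded.
-/

set_option autoImplicit false

open Finset MeasureTheory Filter Topology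

namespace Pool.Agent.X257.AE

/-- the conditional mean of `f i` at the level `i`, given the level `m`, `R m ≤ i`, is at most `p` -/
def Cond (b : ℕ) (K : ℤ) (R : ℕ) (f : ℕ → ℤ → ℝ) (p : ℝ) (m0 : ℕ) : Prop :=
  ∀ m i : ℕ, m0 ≤ m → R * m ≤ i → ∀ v ∈ box K b m,
    ∑ w ∈ Ico (v * (b : ℤ) ^ (i - m)) ((v + 1) * (b : ℤ) ^ (i - m)), f i w ≤ p * (b : ℝ) ^ (i - m)

theorem lcond_av {b : ℕ} (hb : 2 ≤ b) {R : ℕ} {m i n : ℕ} (h : R * m ≤ i) (hmi : m ≤ i)
    (hin : i ≤ n) {K : ℤ}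
    {f : ℕ → ℤ → ℝ} {p : ℝ} {m0 : ℕ} (hB : Cond b K R f p m0) (hm : m0 ≤ m) (g : ℤ → ℝ)
    (hg : ∀ u, 0 ≤ g u) :
    av K b n (fun u => g (u / (b : ℤ) ^ (n - m)) * f i (u / (b : ℤ) ^ (n - i))) ≤
      p * av K b m g := by
  have hb0 : 0 < b := by omega
  have hbz : (0 : ℤ) < b := by exact_mod_cast hb0
  have hbr : (0 : ℝ) < b := by exact_mod_cast hb0
  have h1 : (fun u : ℤ => g (u / (b : ℤ) ^ (n - m)) * f i (u / (b : ℤ) ^ (n - i))) =
      fun u : ℤ => (fun x : ℤ => g (x / (b : ℤ) ^ (i - m)) * f i x) (u / (b : ℤ) ^ (n - i)) := by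
    funext u
    have h2 : u / (b : ℤ) ^ (n - i) / (b : ℤ) ^ (i - m) = u / (b : ℤ) ^ (n - m) := by
      rw [Int.ediv_ediv_of_nonneg (by positivity), ← pow_add]
      congr 2
      omega
    simp only [h2]
  have h0 := av_lift hb0 hin K (fun x : ℤ => g (x / (b : ℤ) ^ (i - m)) * f i x)
  rw [h1]
  refine (le_of_eq h0).trans ?_
  unfold av
  rw [sum_box hb0 hmi]
  have hc : (0 : ℤ) < (b : ℤ) ^ (i - m) := by positivity
  have h3 : ∑ v ∈ box K b m, ∑ w ∈ Ico (v * (b : ℤ) ^ (i - m)) ((v + 1) * (b : ℤ) ^ (i - m)),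
      g (w / (b : ℤ) ^ (i - m)) * f i w ≤ ∑ v ∈ box K b m, g v * (p * (b : ℝ) ^ (i - m)) := by
    refine sum_le_sum fun v hv => ?_
    rw [sum_congr rfl (fun w hw => by rw [(ediv_eq_iff_mem hc w v).2 hw]), ← mul_sum]
    exact mul_le_mul_of_nonneg_left (hB m i hm h v hv) (hg v)
  refine (div_le_div_of_nonneg_right h3 (by positivity)).trans (le_of_eq ?_)
  rw [← sum_mul]
  have h4 : (b : ℝ) ^ i = (b : ℝ) ^ (i - m) * (b : ℝ) ^ m := by
    rw [← pow_add, Nat.sub_add_cancel hmi]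
  rw [h4]
  field_simp

namespace Blocks

variable (S : Blocks)

/-- weighted sum over a block -/
noncomputable def lZ (b : ℕ) (f : ℕ → ℤ → ℝ) (k : ℕ) (α : ℝ) : ℝ :=
  ∑ i ∈ S.T k, S.w k i * f i (pre b i α)

/-- the same as a function of the number of the level `n` -/
noncomputable def lZf (b n : ℕ) (f : ℕ → ℤ → ℝ) (k : ℕ) (u : ℤ) : ℝ :=
  ∑ i ∈ S.T k, S.w k i * f i (u / (b : ℤ) ^ (n - i))

/-- the product -/
noncomputable def lQ (b : ℕ) (f : ℕ → ℤ → ℝ) (θ : ℝ) : ℕ → ℤ → ℝ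
  | 0, _ => 1
  | J + 1, u => lQ b f θ J (u / (b : ℤ) ^ (S.a (J + 1) - S.a J)) *
      (1 + θ * S.lZf b (S.a (J + 1)) f J u)

/-- the sum -/
noncomputable def lL (b : ℕ) (f : ℕ → ℤ → ℝ) : ℕ → ℤ → ℝ
  | 0, _ => 0
  | J + 1, u => lL b f J (u / (b : ℤ) ^ (S.a (J + 1) - S.a J)) + S.lZf b (S.a (J + 1)) f J u

variable {f : ℕ → ℤ → ℝ} (hf : ∀ i u, 0 ≤ f i u)

include hf in
theorem lZ_nonneg (b k : ℕ) (α : ℝ) : 0 ≤ S.lZ b f k α :=
  sum_nonneg fun i _ => mul_nonneg (S.nonneg k i) (hf _ _)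

include hf in
theorem lZf_nonneg (b n k : ℕ) (u : ℤ) : 0 ≤ S.lZf b n f k u :=
  sum_nonneg fun i _ => mul_nonneg (S.nonneg k i) (hf _ _)

include hf in
theorem lQ_nonneg (b : ℕ) {θ : ℝ} (hθ : 0 ≤ θ) (J : ℕ) (u : ℤ) : 0 ≤ S.lQ b f θ J u := by
  induction J generalizing u with
  | zero => exact zero_le_one
  | succ J ih =>
    unfold lQ
    have := S.lZf_nonneg hf b (S.a (J + 1)) J u
    exact mul_nonneg (ih _) (by positivity)

include hf in
theorem lL_nonneg (b : ℕ) (J : ℕ) (u : ℤ) : 0 ≤ S.lL b f J u := by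
  induction J generalizing u with
  | zero => exact le_rfl
  | succ J ih =>
    unfold lL
    have := S.lZf_nonneg hf b (S.a (J + 1)) J u
    exact add_nonneg (ih _) this

theorem lZf_eq {b : ℕ} (hb : 0 < b) (f : ℕ → ℤ → ℝ) (J : ℕ) (α : ℝ) :
    S.lZf b (S.a (J + 1)) f J (pre b (S.a (J + 1)) α) = S.lZ b f J α := by
  unfold lZf lZ
  refine sum_congr rfl fun i hi => ?_
  rw [← pre_div hb (S.high J i hi)]

theorem lQ_eq {b : ℕ} (hb : 0 < b) (f : ℕ → ℤ → ℝ) (θ : ℝ) (J : ℕ) (α : ℝ) :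
    S.lQ b f θ J (pre b (S.a J) α) = ∏ k ∈ range J, (1 + θ * S.lZ b f k α) := by
  induction J with
  | zero => simp [lQ]
  | succ J ih =>
    rw [prod_range_succ, ← ih]
    have h0 : S.lQ b f θ (J + 1) (pre b (S.a (J + 1)) α) =
        S.lQ b f θ J (pre b (S.a (J + 1)) α / (b : ℤ) ^ (S.a (J + 1) - S.a J)) *
          (1 + θ * S.lZf b (S.a (J + 1)) f J (pre b (S.a (J + 1)) α)) := rfl
    rw [h0, ← pre_div hb (S.mono J), S.lZf_eq hb]

theorem lL_eq {b : ℕ} (hb : 0 < b) (f : ℕ → ℤ → ℝ) (J : ℕ) (α : ℝ) :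
    S.lL b f J (pre b (S.a J) α) = ∑ k ∈ range J, S.lZ b f k α := by
  induction J with
  | zero => simp [lL]
  | succ J ih =>
    rw [sum_range_succ, ← ih]
    have h0 : S.lL b f (J + 1) (pre b (S.a (J + 1)) α) =
        S.lL b f J (pre b (S.a (J + 1)) α / (b : ℤ) ^ (S.a (J + 1) - S.a J)) +
          S.lZf b (S.a (J + 1)) f J (pre b (S.a (J + 1)) α) := rfl
    rw [h0, ← pre_div hb (S.mono J), S.lZf_eq hb]

include hf in
theorem av_lQ {b : ℕ} (hb : 2 ≤ b) {K : ℤ} {R : ℕ} (hR : ∀ k, ∀ i ∈ S.T k, R * S.a k ≤ i)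
    {p : ℝ} (hp : 0 ≤ p) {m0 : ℕ} (hB : Cond b K R f p m0)
    (hm : ∀ k, m0 ≤ S.a k) {θ : ℝ} (hθ : 0 ≤ θ) (J : ℕ) :
    av K b (S.a J) (S.lQ b f θ J) ≤ Real.exp (θ * (p * ∑ k ∈ range J, S.W k)) := by
  have hb0 : 0 < b := by omega
  induction J with
  | zero =>
    simp only [range_zero, sum_empty, mul_zero, Real.exp_zero]
    exact le_of_eq (av_one hb0 K (S.a 0))
  | succ J ih =>
    set n := S.a (J + 1) with hn
    set m := S.a J with hmdef
    have hmn : m ≤ n := S.mono J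
    have h1 : av K b n (S.lQ b f θ (J + 1)) =
        av K b n (fun u => S.lQ b f θ J (u / (b : ℤ) ^ (n - m))) +
        θ * ∑ i ∈ S.T J, S.w J i * av K b n (fun u => S.lQ b f θ J (u / (b : ℤ) ^ (n - m)) *
          f i (u / (b : ℤ) ^ (n - i))) := by
      unfold av
      have h2 : ∀ u, S.lQ b f θ (J + 1) u = S.lQ b f θ J (u / (b : ℤ) ^ (n - m)) +
          θ * ∑ i ∈ S.T J, S.w J i * (S.lQ b f θ J (u / (b : ℤ) ^ (n - m)) *
            f i (u / (b : ℤ) ^ (n - i))) := by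
        intro u
        change S.lQ b f θ J (u / (b : ℤ) ^ (n - m)) * (1 + θ * S.lZf b n f J u) = _
        unfold lZf
        rw [mul_add, mul_one, mul_left_comm, mul_sum]
        congr 2
        exact sum_congr rfl fun i _ => by ring
      rw [sum_congr rfl fun u _ => h2 u, sum_add_distrib, add_div, ← mul_sum, sum_comm]
      congr 1
      rw [mul_div_assoc, sum_div]
      congr 1
      refine sum_congr rfl fun i _ => ?_
      rw [← mul_sum, mul_div_assoc]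
    rw [h1, av_lift hb0 hmn]
    have hA : 0 ≤ av K b m (S.lQ b f θ J) :=
      div_nonneg (sum_nonneg fun u _ => S.lQ_nonneg hf b hθ J u) (by positivity)
    have h3 : ∑ i ∈ S.T J, S.w J i * av K b n (fun u => S.lQ b f θ J (u / (b : ℤ) ^ (n - m)) *
        f i (u / (b : ℤ) ^ (n - i))) ≤ S.W J * (p * av K b m (S.lQ b f θ J)) := by
      unfold W
      rw [sum_mul]
      refine sum_le_sum fun i hi => ?_
      refine mul_le_mul_of_nonneg_left ?_ (S.nonneg J i)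
      have h6 := S.low J i hi
      exact lcond_av hb (hR J i hi) (by omega) (S.high J i hi) hB (hm J) _
        (S.lQ_nonneg hf b hθ J)
    have h4 : av K b m (S.lQ b f θ J) + θ * (S.W J * (p * av K b m (S.lQ b f θ J))) =
        av K b m (S.lQ b f θ J) * (1 + θ * (p * S.W J)) := by ring
    refine (add_le_add_right (mul_le_mul_of_nonneg_left h3 hθ) _).trans ?_
    have h7 : θ * (p * ∑ k ∈ range (J + 1), S.W k) =
        θ * (p * ∑ k ∈ range J, S.W k) + θ * (p * S.W J) := by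
      rw [sum_range_succ]
      ring
    rw [h4, h7, Real.exp_add]
    have h5 : 1 + θ * (p * S.W J) ≤ Real.exp (θ * (p * S.W J)) := by
      rw [add_comm]
      exact Real.add_one_le_exp _
    have h6 : 0 ≤ 1 + θ * (p * S.W J) := by
      have := S.W_nonneg J
      positivity
    exact mul_le_mul ih h5 h6 (Real.exp_pos _).le

theorem av_lL {b : ℕ} (hb : 2 ≤ b) {K : ℤ} {R : ℕ} (hR : ∀ k, ∀ i ∈ S.T k, R * S.a k ≤ i)
    {p : ℝ} (hp : 0 ≤ p) {m0 : ℕ} (hB : Cond b K R f p m0)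
    (hm : ∀ k, m0 ≤ S.a k) (J : ℕ) :
    av K b (S.a J) (S.lL b f J) ≤ p * J := by
  have hb0 : 0 < b := by omega
  induction J with
  | zero =>
    unfold av
    simp [lL]
  | succ J ih =>
    set n := S.a (J + 1) with hn
    set m := S.a J with hmdef
    have hmn : m ≤ n := S.mono J
    have h1 : av K b n (S.lL b f (J + 1)) =
        av K b n (fun u => S.lL b f J (u / (b : ℤ) ^ (n - m))) +
        ∑ i ∈ S.T J, S.w J i * av K b n (fun u => (fun _ => (1 : ℝ)) (u / (b : ℤ) ^ (n - m)) *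
          f i (u / (b : ℤ) ^ (n - i))) := by
      unfold av
      have h2 : ∀ u, S.lL b f (J + 1) u = S.lL b f J (u / (b : ℤ) ^ (n - m)) +
          ∑ i ∈ S.T J, S.w J i * ((fun _ => (1 : ℝ)) (u / (b : ℤ) ^ (n - m)) *
            f i (u / (b : ℤ) ^ (n - i))) := by
        intro u
        change S.lL b f J (u / (b : ℤ) ^ (n - m)) + S.lZf b n f J u = _
        unfold lZf
        congr 1
        exact sum_congr rfl fun i _ => by ring
      rw [sum_congr rfl fun u _ => h2 u, sum_add_distrib, add_div, sum_comm]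
      congr 1
      rw [sum_div]
      refine sum_congr rfl fun i _ => ?_
      rw [← mul_sum, mul_div_assoc]
    rw [h1, av_lift hb0 hmn]
    have h3 : ∑ i ∈ S.T J, S.w J i * av K b n (fun u => (fun _ => (1 : ℝ)) (u / (b : ℤ) ^ (n - m)) *
        f i (u / (b : ℤ) ^ (n - i))) ≤ ∑ i ∈ S.T J, S.w J i * p := by
      refine sum_le_sum fun i hi => ?_
      refine mul_le_mul_of_nonneg_left ?_ (S.nonneg J i)
      have h6 := S.low J i hi
      have h5 := lcond_av hb (hR J i hi) (by omega) (S.high J i hi) hB (hm J) (fun _ => (1 : ℝ))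
        (fun _ => zero_le_one)
      rw [av_one hb0, mul_one] at h5
      exact h5
    rw [← sum_mul] at h3
    have h4 : (∑ i ∈ S.T J, S.w J i) * p ≤ p := by
      have := S.sum_le J
      nlinarith
    push_cast
    linarith

theorem lZ_sq_le (b : ℕ) (f : ℕ → ℤ → ℝ) (k : ℕ) (α : ℝ) :
    S.lZ b f k α ^ 2 ≤ S.lZ b (fun i u => f i u ^ 2) k α := by
  unfold lZ
  have h1 := sum_sq_le_sum_mul_sum_of_sq_le_mul (S.T k)
    (f := fun i => S.w k i) (g := fun i => S.w k i * f i (pre b i α) ^ 2)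
    (r := fun i => S.w k i * f i (pre b i α))
    (fun i _ => S.nonneg k i) (fun i _ => mul_nonneg (S.nonneg k i) (sq_nonneg _))
    (fun i _ => le_of_eq (by ring))
  refine h1.trans ?_
  have h2 := S.sum_le k
  have h3 : 0 ≤ ∑ i ∈ S.T k, S.w k i * f i (pre b i α) ^ 2 :=
    sum_nonneg fun i _ => mul_nonneg (S.nonneg k i) (sq_nonneg _)
  nlinarith

/-- a bound for sums: almost every number of `[K, K + 1)` -/
theorem ae_lsum_le {b : ℕ} (hb : 2 ≤ b) {K : ℤ} {R : ℕ} (hR : ∀ k, ∀ i ∈ S.T k, R * S.a k ≤ i)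
    {g : ℕ → ℤ → ℝ} (hg : ∀ i u, 0 ≤ g i u) {p : ℝ} (hp : 0 ≤ p) {m0 : ℕ}
    (hB : Cond b K R g p m0) (hm : ∀ k, m0 ≤ S.a k) :
    ∀ᵐ α : ℝ, α ∈ Set.Ico (K : ℝ) (K + 1) → ∀ᶠ j : ℕ in atTop,
      ∑ k ∈ range (4 ^ j), S.lZ b g k α ≤ 8 ^ j := by
  classical
  have hb0 : 0 < b := by omega
  set s : ℕ → Set ℝ := fun j => {α : ℝ | α ∈ Set.Ico (K : ℝ) (K + 1) ∧
    (8 : ℝ) ^ j ≤ S.lL b g (4 ^ j) (pre b (S.a (4 ^ j)) α)} with hs
  have hmeas : ∀ j, volume (s j) ≤ ENNReal.ofReal (p * (1 / 2) ^ j) := by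
    intro j
    refine (vol_le hb0 (S.a (4 ^ j)) K (fun u => (8 : ℝ) ^ j ≤ S.lL b g (4 ^ j) u)).trans
      (ENNReal.ofReal_le_ofReal ?_)
    have h1 := S.av_lL hb hR hp hB hm (4 ^ j)
    unfold av at h1
    have hbr : (0 : ℝ) < (b : ℝ) ^ S.a (4 ^ j) := by positivity
    have h8 : (0 : ℝ) < 8 ^ j := by positivity
    have h2 : (((box K b (S.a (4 ^ j))).filter
        (fun u => (8 : ℝ) ^ j ≤ S.lL b g (4 ^ j) u)).card : ℝ) * 8 ^ j ≤
        ∑ u ∈ box K b (S.a (4 ^ j)), S.lL b g (4 ^ j) u := by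
      rw [← nsmul_eq_mul]
      refine le_trans (card_nsmul_le_sum _ _ _ fun u hu => (mem_filter.1 hu).2) ?_
      exact sum_le_sum_of_subset_of_nonneg (filter_subset _ _)
        fun u _ _ => S.lL_nonneg hg b (4 ^ j) u
    have h3 : ((((box K b (S.a (4 ^ j))).filter
        (fun u => (8 : ℝ) ^ j ≤ S.lL b g (4 ^ j) u)).card : ℝ) /
        (b : ℝ) ^ S.a (4 ^ j)) * 8 ^ j ≤ p * ((4 ^ j : ℕ) : ℝ) := by
      refine le_trans ?_ h1
      rw [div_mul_eq_mul_div]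
      exact div_le_div_of_nonneg_right h2 hbr.le
    rw [← le_div_iff₀ h8] at h3
    refine h3.trans (le_of_eq ?_)
    push_cast
    rw [mul_div_assoc, ← div_pow]
    norm_num
  have hsum : ∑' j, volume (s j) ≠ ⊤ := by
    have hsm : Summable (fun j : ℕ => p * (1 / 2 : ℝ) ^ j) :=
      (summable_geometric_of_lt_one (by norm_num) (by norm_num)).mul_left p
    refine ne_top_of_le_ne_top (hsm.tsum_ofReal_ne_top) ?_
    exact ENNReal.tsum_le_tsum hmeas
  filter_upwards [ae_eventually_notMem hsum] with α hα hK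
  filter_upwards [hα] with j hj
  have h1 : S.lL b g (4 ^ j) (pre b (S.a (4 ^ j)) α) < 8 ^ j := by
    by_contra h
    push Not at h
    exact hj ⟨hK, h⟩
  rw [S.lL_eq hb0] at h1
  exact h1.le

include hf in
/-- almost every number of `[K, K + 1)`: all levels large -/
theorem ae_llarge {b : ℕ} (hb : 2 ≤ b) {K : ℤ} {R : ℕ} (hR : ∀ k, ∀ i ∈ S.T k, R * S.a k ≤ i)
    {p q : ℝ} (hp : 0 ≤ p) (hq : 0 ≤ q) {m0 : ℕ} (hB : Cond b K R f p m0)
    (hB2 : Cond b K R (fun i u => f i u ^ 2) q m0)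
    (hm : ∀ k, m0 ≤ S.a k) {δ : ℝ} (hδ : 0 < δ) :
    ∀ᵐ α : ℝ, α ∈ Set.Ico (K : ℝ) (K + 1) → ∀ᶠ J : ℕ in atTop,
      ∑ k ∈ range J, S.lZ b f k α ≤ p * ∑ k ∈ range J, S.W k + 2 * δ * J := by
  classical
  have hb0 : 0 < b := by omega
  set θ : ℕ → ℝ := fun J => 2 / δ * Real.log J / J with hθ
  have hθ0 : ∀ J, 0 ≤ θ J := fun J =>
    div_nonneg (mul_nonneg (by positivity) (Real.log_natCast_nonneg J)) (Nat.cast_nonneg J)
  have hθJ : ∀ J : ℕ, 1 ≤ J → θ J * J = 2 / δ * Real.log J := by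
    intro J hJ
    have hJ0 : (J : ℝ) ≠ 0 := by
      have : J ≠ 0 := by omega
      exact_mod_cast this
    rw [hθ]
    field_simp
  set x : ℕ → ℝ := fun J => Real.exp (θ J * (p * ∑ k ∈ range J, S.W k) + θ J * δ * J) with hx
  set s : ℕ → Set ℝ := fun J => {α : ℝ | α ∈ Set.Ico (K : ℝ) (K + 1) ∧
    x J ≤ S.lQ b f (θ J) J (pre b (S.a J) α)} with hs
  have hmeas : ∀ J, volume (s J) ≤ ENNReal.ofReal (Real.exp (-(θ J * δ * J))) := by
    intro J
    refine (vol_le hb0 (S.a J) K (fun u => x J ≤ S.lQ b f (θ J) J u)).trans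
      (ENNReal.ofReal_le_ofReal ?_)
    have h1 := S.av_lQ hf hb hR hp hB hm (hθ0 J) J
    unfold av at h1
    have hbr : (0 : ℝ) < (b : ℝ) ^ S.a J := by positivity
    have hxp : 0 < x J := Real.exp_pos _
    have h2 : (((box K b (S.a J)).filter (fun u => x J ≤ S.lQ b f (θ J) J u)).card : ℝ) * x J ≤
        ∑ u ∈ box K b (S.a J), S.lQ b f (θ J) J u := by
      rw [← nsmul_eq_mul]
      refine le_trans (card_nsmul_le_sum _ _ _ fun u hu => (mem_filter.1 hu).2) ?_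
      exact sum_le_sum_of_subset_of_nonneg (filter_subset _ _)
        fun u _ _ => S.lQ_nonneg hf b (hθ0 J) J u
    have h3 : ((((box K b (S.a J)).filter (fun u => x J ≤ S.lQ b f (θ J) J u)).card : ℝ) /
        (b : ℝ) ^ S.a J) * x J ≤ Real.exp (θ J * (p * ∑ k ∈ range J, S.W k)) := by
      refine le_trans ?_ h1
      rw [div_mul_eq_mul_div]
      exact div_le_div_of_nonneg_right h2 hbr.le
    rw [← le_div_iff₀ hxp] at h3
    refine h3.trans (le_of_eq ?_)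
    rw [hx]
    simp only
    rw [← Real.exp_sub]
    congr 1
    ring
  have hsum : ∑' J, volume (s J) ≠ ⊤ := by
    have hS : Summable (fun J : ℕ => 1 / (J : ℝ) ^ 2) :=
      Real.summable_one_div_nat_pow.2 (by norm_num)
    have hsm : Summable (fun J : ℕ => Real.exp (-(θ J * δ * J))) := by
      refine (summable_nat_add_iff 1).1 (((summable_nat_add_iff 1).2 hS).congr fun J => ?_)
      have hJ : (0 : ℝ) < ((J + 1 : ℕ) : ℝ) := by positivity
      have h1 : θ (J + 1) * δ * ((J + 1 : ℕ) : ℝ) = 2 * Real.log ((J + 1 : ℕ) : ℝ) := by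
        have h2 := hθJ (J + 1) (by omega)
        have h3 : θ (J + 1) * δ * ((J + 1 : ℕ) : ℝ) = δ * (θ (J + 1) * ((J + 1 : ℕ) : ℝ)) := by ring
        rw [h3, h2]
        field_simp
      rw [h1, Real.exp_neg, one_div]
      congr 1
      have h4 : (2 : ℝ) * Real.log ((J + 1 : ℕ) : ℝ) = ((2 : ℕ) : ℝ) * Real.log ((J + 1 : ℕ) : ℝ) := by
        norm_num
      rw [h4, Real.exp_nat_mul, Real.exp_log hJ]
    refine ne_top_of_le_ne_top (hsm.tsum_ofReal_ne_top) ?_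
    exact ENNReal.tsum_le_tsum hmeas
  have hlog : ∀ᶠ J : ℕ in atTop, Real.log J ≤ δ ^ 2 / 8 * Real.sqrt J := by
    have h1 := (isLittleO_log_rpow_atTop (show (0 : ℝ) < 1 / 2 by norm_num)).bound
      (show (0 : ℝ) < δ ^ 2 / 8 by positivity)
    filter_upwards [tendsto_natCast_atTop_atTop.eventually h1] with J hJ
    rw [Real.norm_eq_abs, Real.norm_eq_abs, abs_of_nonneg (Real.log_natCast_nonneg J),
      abs_of_nonneg (by positivity), ← Real.sqrt_eq_rpow] at hJ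
    exact hJ
  filter_upwards [ae_eventually_notMem hsum,
    S.ae_lsum_le hb hR (fun i u => sq_nonneg (f i u)) hq hB2 hm] with α hα hα2 hK
  obtain ⟨j0, hj0⟩ := (hα2 hK).exists_forall_of_atTop
  filter_upwards [hα, hlog, eventually_ge_atTop (4 ^ j0), eventually_ge_atTop 2]
    with J hJ hJlog hJ0 hJ2
  have hJr : (0 : ℝ) < J := by
    have : 0 < J := by omega
    exact_mod_cast this
  have hθp : 0 < θ J := by
    have : (0 : ℝ) < Real.log J := Real.log_pos (by exact_mod_cast hJ2)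
    rw [hθ]
    positivity
  have hsq : ∑ k ∈ range J, S.lZ b f k α ^ 2 ≤ 8 * (J * Real.sqrt J) := by
    set j := Nat.log 4 J with hj
    have h1 : 4 ^ j ≤ J := Nat.pow_log_le_self 4 (by omega)
    have h2 : J < 4 ^ (j + 1) := Nat.lt_pow_succ_log_self (by norm_num) J
    have h3 : j0 ≤ j := Nat.le_log_of_pow_le (by norm_num) hJ0
    have h4 : ∑ k ∈ range J, S.lZ b f k α ^ 2 ≤
        ∑ k ∈ range (4 ^ (j + 1)), S.lZ b (fun i u => f i u ^ 2) k α := by
      refine (sum_le_sum fun k _ => S.lZ_sq_le b f k α).trans ?_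
      refine sum_le_sum_of_subset_of_nonneg (range_subset_range.2 h2.le) fun k _ _ => ?_
      exact S.lZ_nonneg (fun i u => sq_nonneg (f i u)) b k α
    refine h4.trans ((hj0 (j + 1) (by omega)).trans ?_)
    rw [pow_succ, mul_comm]
    refine mul_le_mul_of_nonneg_left ?_ (by norm_num)
    have h5 : (4 : ℝ) ^ j ≤ J := by exact_mod_cast h1
    have h6 : (2 : ℝ) ^ j ≤ Real.sqrt J := by
      apply Real.le_sqrt_of_sq_le
      rw [← pow_mul, mul_comm, pow_mul]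
      norm_num
      exact h5
    have h7 : (8 : ℝ) ^ j = 4 ^ j * 2 ^ j := by
      rw [← mul_pow]
      norm_num
    rw [h7]
    exact mul_le_mul h5 h6 (by positivity) hJr.le
  have h1 : S.lQ b f (θ J) J (pre b (S.a J) α) < x J := by
    by_contra h
    push Not at h
    exact hJ ⟨hK, h⟩
  rw [S.lQ_eq hb0] at h1
  have hZ0 : ∀ k, 0 ≤ S.lZ b f k α := fun k => S.lZ_nonneg hf b k α
  have hpos : ∀ k ∈ range J, 0 < 1 + θ J * S.lZ b f k α := fun k _ => by
    have := hZ0 k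
    positivity
  have h2 := Real.log_lt_log (prod_pos hpos) h1
  rw [Real.log_prod (fun k hk => (hpos k hk).ne'), hx] at h2
  simp only [Real.log_exp] at h2
  have h3 : ∀ k ∈ range J, θ J * S.lZ b f k α - θ J ^ 2 / 2 * S.lZ b f k α ^ 2 ≤
      Real.log (1 + θ J * S.lZ b f k α) := by
    intro k _
    have h4 := hZ0 k
    set y := θ J * S.lZ b f k α with hy
    have hy0 : 0 ≤ y := by positivity
    have hy2 : θ J ^ 2 / 2 * S.lZ b f k α ^ 2 = y ^ 2 / 2 := by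
      rw [hy]
      ring
    rw [hy2]
    refine le_trans ?_ (Real.le_log_one_add_of_nonneg hy0)
    rw [le_div_iff₀ (by linarith)]
    nlinarith [mul_nonneg hy0 (mul_nonneg hy0 hy0)]
  have h4 := sum_le_sum h3
  rw [sum_sub_distrib, ← mul_sum, ← mul_sum] at h4
  have h5 : θ J * ∑ k ∈ range J, S.lZ b f k α ≤
      θ J * (p * ∑ k ∈ range J, S.W k + δ * J + θ J / 2 * ∑ k ∈ range J, S.lZ b f k α ^ 2) := by
    have e1 : θ J * (p * ∑ k ∈ range J, S.W k + δ * J +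
        θ J / 2 * ∑ k ∈ range J, S.lZ b f k α ^ 2) =
        θ J * (p * ∑ k ∈ range J, S.W k) + θ J * δ * J +
          θ J ^ 2 / 2 * ∑ k ∈ range J, S.lZ b f k α ^ 2 := by ring
    rw [e1]
    linarith
  have h6 := le_of_mul_le_mul_left h5 hθp
  refine h6.trans ?_
  have h7 : θ J / 2 * ∑ k ∈ range J, S.lZ b f k α ^ 2 ≤ δ * J := by
    have h8 : θ J / 2 * ∑ k ∈ range J, S.lZ b f k α ^ 2 ≤ θ J / 2 * (8 * (J * Real.sqrt J)) :=
      mul_le_mul_of_nonneg_left hsq (by positivity)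
    refine h8.trans ?_
    have h9 : θ J / 2 * (8 * (J * Real.sqrt J)) = 4 * (θ J * J) * Real.sqrt J := by ring
    rw [h9, hθJ J (by omega)]
    have h10 : Real.sqrt J * Real.sqrt J = J := Real.mul_self_sqrt hJr.le
    have h11 : 4 * (2 / δ * Real.log J) * Real.sqrt J ≤
        4 * (2 / δ * (δ ^ 2 / 8 * Real.sqrt J)) * Real.sqrt J := by
      have : 0 ≤ Real.sqrt J := Real.sqrt_nonneg _
      gcongr
    refine h11.trans (le_of_eq ?_)
    have h12 : 4 * (2 / δ * (δ ^ 2 / 8 * Real.sqrt J)) * Real.sqrt J =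
        4 * (2 / δ * (δ ^ 2 / 8)) * (Real.sqrt J * Real.sqrt J) := by ring
    rw [h12, h10]
    field_simp
    ring
  linarith

include hf in
/-- almost every number of `[K, K + 1)` -/
theorem ae_lblocks (ha : ∀ k, k ≤ S.a k) {b : ℕ} (hb : 2 ≤ b) {K : ℤ} {R : ℕ}
    (hR : ∀ k, ∀ i ∈ S.T k, R * S.a k ≤ i) {p q : ℝ} (hp : 0 ≤ p) (hq : 0 ≤ q) {m0 : ℕ}
    (hB : Cond b K R f p m0) (hB2 : Cond b K R (fun i u => f i u ^ 2) q m0) :
    ∀ᵐ α : ℝ, α ∈ Set.Ico (K : ℝ) (K + 1) → ∀ ε : ℝ, 0 < ε → ∀ᶠ J : ℕ in atTop,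
      ∑ k ∈ range J, S.lZ b f k α ≤ p * ∑ k ∈ range J, S.W k + ε * J := by
  have h1 : ∀ᵐ α : ℝ, ∀ r : ℕ, α ∈ Set.Ico (K : ℝ) (K + 1) →
      ∀ᶠ J : ℕ in atTop, ∑ k ∈ range J, (S.shift m0).lZ b f k α ≤
        p * ∑ k ∈ range J, (S.shift m0).W k + 2 * (1 / ((r : ℝ) + 1)) * J := by
    rw [ae_all_iff]
    intro r
    refine (S.shift m0).ae_llarge hf hb (R := R) (fun k => hR (m0 + k)) hp hq hB hB2
      (fun k => ?_) (by positivity)
    have := ha (m0 + k)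
    change m0 ≤ S.a (m0 + k)
    omega
  filter_upwards [h1] with α hα hαK ε hε
  obtain ⟨r, hr⟩ := exists_nat_one_div_lt (show (0 : ℝ) < ε / 4 by positivity)
  have h2 := hα r hαK
  have hlin : ∀ᶠ J : ℕ in atTop, ∑ k ∈ range m0, S.lZ b f k α ≤ ε / 2 * J := by
    obtain ⟨n, hn⟩ := exists_nat_gt ((∑ k ∈ range m0, S.lZ b f k α) / (ε / 2))
    filter_upwards [eventually_ge_atTop n] with J hJ
    rw [div_lt_iff₀ (by positivity)] at hn
    have : (n : ℝ) ≤ J := by exact_mod_cast hJ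
    nlinarith
  obtain ⟨J1, hJ1⟩ := h2.exists_forall_of_atTop
  filter_upwards [hlin, eventually_ge_atTop (J1 + m0)] with J hJ hJ2
  obtain ⟨J', rfl⟩ : ∃ J', J = m0 + J' := ⟨J - m0, by omega⟩
  have h3 := hJ1 J' (by omega)
  rw [sum_range_add _ m0 J', sum_range_add _ m0 J']
  have h5 : 0 ≤ ∑ k ∈ range m0, S.W k := sum_nonneg fun k _ => S.W_nonneg k
  have h6 : ∑ k ∈ range J', S.lZ b f (m0 + k) α ≤ p * ∑ k ∈ range J', S.W (m0 + k) +
      2 * (1 / ((r : ℝ) + 1)) * J' := h3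
  have h7 : 2 * (1 / ((r : ℝ) + 1)) * (J' : ℝ) ≤ ε / 2 * ((m0 + J' : ℕ) : ℝ) := by
    have h8 : 2 * (1 / ((r : ℝ) + 1)) ≤ ε / 2 := by linarith
    have h9 : (J' : ℝ) ≤ ((m0 + J' : ℕ) : ℝ) := by push_cast; linarith [Nat.cast_nonneg (α := ℝ) m0]
    exact mul_le_mul h8 h9 (by positivity) (by positivity)
  have h10 : 0 ≤ p * ∑ k ∈ range m0, S.W k := mul_nonneg hp h5
  rw [mul_add]
  linarith

end Blocks

/-- the blocks `(2 ^ (3 k + e), 2 ^ (3 k + e + 1)]` with the weights `1 / i`, `e ≤ 2` -/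
noncomputable def triBlocks (e : ℕ) : Blocks where
  a k := 2 ^ (3 * k + e) / 4
  T k := Ioc (2 ^ (3 * k + e)) (2 ^ (3 * k + e + 1))
  w _ i := 1 / (i : ℝ)
  mono k := Nat.div_le_div_right (Nat.pow_le_pow_right (by norm_num) (by omega))
  low k i hi := by
    have := (mem_Ioc.1 hi).1
    omega
  high k i hi := by
    have h1 := (mem_Ioc.1 hi).2
    have h2 : 2 ^ (3 * (k + 1) + e) = 4 * 2 ^ (3 * k + e + 1) := by ring
    rw [h2]
    omega
  nonneg k i := by positivity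
  sum_le k := by
    set c := 2 ^ (3 * k + e) with hc
    have hc0 : 0 < c := by positivity
    have h1 : ∀ i ∈ Ioc c (2 ^ (3 * k + e + 1)), 1 / (i : ℝ) ≤ 1 / (c : ℝ) := by
      intro i hi
      have h2 := (mem_Ioc.1 hi).1
      exact one_div_le_one_div_of_le (by exact_mod_cast hc0) (by exact_mod_cast h2.le)
    refine (sum_le_sum h1).trans ?_
    rw [sum_const, Nat.card_Ioc, nsmul_eq_mul]
    have h3 : 2 ^ (3 * k + e + 1) - c = c := by
      rw [pow_succ, ← hc]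
      omega
    rw [h3, mul_one_div, div_self]
    exact_mod_cast hc0.ne'

theorem tri_four (e k i : ℕ) (hi : i ∈ (triBlocks e).T k) : 4 * (triBlocks e).a k ≤ i := by
  have h1 : i ∈ Ioc (2 ^ (3 * k + e)) (2 ^ (3 * k + e + 1)) := hi
  rw [mem_Ioc] at h1
  change 4 * (2 ^ (3 * k + e) / 4) ≤ i
  omega

theorem tri_W (e k : ℕ) : (triBlocks e).W k ≤ 1 := (triBlocks e).sum_le k

theorem tri_a (e k : ℕ) : k ≤ (triBlocks e).a k := by
  change k ≤ 2 ^ (3 * k + e) / 4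
  rw [Nat.le_div_iff_mul_le (by norm_num)]
  rcases Nat.eq_zero_or_pos k with rfl | hk
  · simp
  have h1 : k < 2 ^ k := Nat.lt_two_pow_self
  have h2 : 2 ^ (3 * k) ≤ 2 ^ (3 * k + e) := Nat.pow_le_pow_right (by norm_num) (by omega)
  have h3 : 2 ^ (3 * k) = 2 ^ k * 2 ^ (2 * k) := by rw [← pow_add]; congr 1; ring
  have h4 : 4 ≤ 2 ^ (2 * k) := by
    calc 4 = 2 ^ 2 := by norm_num
      _ ≤ 2 ^ (2 * k) := Nat.pow_le_pow_right (by norm_num) (by omega)
  calc k * 4 ≤ 2 ^ k * 2 ^ (2 * k) := Nat.mul_le_mul h1.le h4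
    _ = 2 ^ (3 * k) := h3.symm
    _ ≤ _ := h2

theorem sum_tri (f : ℕ → ℝ) (m : ℕ) :
    ∑ k ∈ range m, (∑ i ∈ Ioc (2 ^ (3 * k + 0)) (2 ^ (3 * k + 0 + 1)), f i) +
      ∑ k ∈ range m, (∑ i ∈ Ioc (2 ^ (3 * k + 1)) (2 ^ (3 * k + 1 + 1)), f i) +
      ∑ k ∈ range m, (∑ i ∈ Ioc (2 ^ (3 * k + 2)) (2 ^ (3 * k + 2 + 1)), f i) =
    ∑ i ∈ Ioc 1 (2 ^ (3 * m)), f i := by
  induction m with
  | zero => simp
  | succ m ih =>
    rw [sum_range_succ, sum_range_succ, sum_range_succ]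
    have h1 : 2 ^ (3 * (m + 1)) = 2 ^ (3 * m + 2 + 1) := by ring
    have h2 : (1 : ℕ) ≤ 2 ^ (3 * m) := Nat.one_le_two_pow
    have h3 : 2 ^ (3 * m) ≤ 2 ^ (3 * m + 1) := Nat.pow_le_pow_right (by norm_num) (by omega)
    have h4 : 2 ^ (3 * m + 1) ≤ 2 ^ (3 * m + 2) := Nat.pow_le_pow_right (by norm_num) (by omega)
    have h5 : 2 ^ (3 * m + 2) ≤ 2 ^ (3 * m + 2 + 1) :=
      Nat.pow_le_pow_right (by norm_num) (by omega)
    rw [h1, ← sum_Ioc_consecutive f h2 (h3.trans (h4.trans h5)), ← ih,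
      ← sum_Ioc_consecutive f h3 (h4.trans h5), ← sum_Ioc_consecutive f h4 h5]
    simp only [add_zero]
    ring

/-- **Logarithmic sums**, with a small error -/
theorem ae_lev_eps {f : ℕ → ℤ → ℝ} (hf : ∀ i u, 0 ≤ f i u) {b : ℕ} (hb : 2 ≤ b) {K : ℤ}
    {p q : ℝ} (hp : 0 ≤ p) (hq : 0 ≤ q) {m0 : ℕ}
    (hB : Cond b K 4 f p m0) (hB2 : Cond b K 4 (fun i u => f i u ^ 2) q m0) :
    ∀ᵐ α : ℝ, α ∈ Set.Ico (K : ℝ) (K + 1) → ∀ ε : ℝ, 0 < ε → ∀ᶠ x : ℕ in atTop,
      ∑ i ∈ Icc 1 x, f i (pre b i α) / (i : ℝ) ≤ (2 * p + 2 * ε) * Real.log x := by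
  filter_upwards [(triBlocks 0).ae_lblocks hf (tri_a 0) hb (tri_four 0) hp hq hB hB2,
    (triBlocks 1).ae_lblocks hf (tri_a 1) hb (tri_four 1) hp hq hB hB2,
    (triBlocks 2).ae_lblocks hf (tri_a 2) hb (tri_four 2) hp hq hB hB2] with α h0 h1 h2 hK ε hε
  obtain ⟨m1, hm1⟩ := ((h0 hK ε hε).and ((h1 hK ε hε).and
    (h2 hK ε hε))).exists_forall_of_atTop
  have hlog : Tendsto (fun x : ℕ => Real.log (x : ℝ)) atTop atTop :=
    Real.tendsto_log_atTop.comp tendsto_natCast_atTop_atTop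
  filter_upwards [hlog.eventually_ge_atTop (4 * (f 1 (pre b 1 α) + 3 * (p + ε)) / ε),
    eventually_ge_atTop (2 ^ (3 * m1)), eventually_ge_atTop 2] with x hx1 hx2 hx3
  set m := Nat.log 2 x / 3 + 1 with hm
  have hmm : m1 ≤ m := by
    have : 3 * m1 ≤ Nat.log 2 x := Nat.le_log_of_pow_le (by norm_num) hx2
    omega
  obtain ⟨h4, h5, h6⟩ := hm1 m hmm
  have hxm : x ≤ 2 ^ (3 * m) := by
    have h6 : x < 2 ^ (Nat.log 2 x + 1) := Nat.lt_pow_succ_log_self (by norm_num) x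
    have h7 : 2 ^ (Nat.log 2 x + 1) ≤ 2 ^ (3 * m) := Nat.pow_le_pow_right (by norm_num) (by omega)
    omega
  set F : ℕ → ℝ := fun i => 1 / (i : ℝ) * f i (pre b i α) with hF
  have hZ := sum_tri F m
  have hF0 : ∀ i, 0 ≤ F i := fun i => mul_nonneg (by positivity) (hf _ _)
  have h7 : ∑ n ∈ Icc 1 x, f n (pre b n α) / (n : ℝ) ≤
      f 1 (pre b 1 α) + ∑ i ∈ Ioc (1 : ℕ) (2 ^ (3 * m)), F i := by
    have h7 : ∑ n ∈ Icc 1 x, f n (pre b n α) / (n : ℝ) = ∑ n ∈ Icc 1 x, F n := by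
      refine sum_congr rfl fun n _ => ?_
      simp only [hF]
      ring
    rw [h7]
    have h8 : Icc 1 x ⊆ insert 1 (Ioc (1 : ℕ) (2 ^ (3 * m))) := by
      intro i hi
      rw [mem_Icc] at hi
      rw [mem_insert, mem_Ioc]
      omega
    refine (sum_le_sum_of_subset_of_nonneg h8 fun i _ _ => hF0 i).trans ?_
    rw [sum_insert (by simp)]
    have h9 : F 1 = f 1 (pre b 1 α) := by
      simp only [hF, Nat.cast_one, div_one, one_mul]
    linarith
  have hW : ∀ e, ∑ k ∈ range m, (triBlocks e).W k ≤ m := by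
    intro e
    refine (sum_le_sum fun k _ => tri_W e k).trans ?_
    simp
  have h8 : ∑ i ∈ Ioc (1 : ℕ) (2 ^ (3 * m)), F i ≤ 3 * (p + ε) * m := by
    rw [← hZ]
    have e0 : ∑ k ∈ range m, ∑ i ∈ Ioc ((2 : ℕ) ^ (3 * k + 0)) (2 ^ (3 * k + 0 + 1)), F i ≤
        p * ∑ k ∈ range m, (triBlocks 0).W k + ε * m := h4
    have e1 : ∑ k ∈ range m, ∑ i ∈ Ioc ((2 : ℕ) ^ (3 * k + 1)) (2 ^ (3 * k + 1 + 1)), F i ≤
        p * ∑ k ∈ range m, (triBlocks 1).W k + ε * m := h5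
    have e2 : ∑ k ∈ range m, ∑ i ∈ Ioc ((2 : ℕ) ^ (3 * k + 2)) (2 ^ (3 * k + 2 + 1)), F i ≤
        p * ∑ k ∈ range m, (triBlocks 2).W k + ε * m := h6
    have w0 := mul_le_mul_of_nonneg_left (hW 0) hp
    have w1 := mul_le_mul_of_nonneg_left (hW 1) hp
    have w2 := mul_le_mul_of_nonneg_left (hW 2) hp
    linarith
  have hx0 : (0 : ℝ) < x := by exact_mod_cast (by omega : 0 < x)
  have hl2 : 0 < Real.log 2 := Real.log_pos (by norm_num)
  have hl2'' : 0.6931471803 < Real.log 2 := Real.log_two_gt_d9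
  have hL : ((Nat.log 2 x : ℕ) : ℝ) * Real.log 2 ≤ Real.log x := by
    have h8 : 2 ^ Nat.log 2 x ≤ x := Nat.pow_log_le_self 2 (by omega)
    have h9 : ((2 : ℝ)) ^ Nat.log 2 x ≤ x := by exact_mod_cast h8
    have h10 := Real.log_le_log (by positivity) h9
    rwa [Real.log_pow] at h10
  have hm3 : ((3 * m : ℕ) : ℝ) ≤ (Nat.log 2 x : ℝ) + 3 := by
    have : 3 * m ≤ Nat.log 2 x + 3 := by omega
    exact_mod_cast this
  have h9 : (3 : ℝ) * m ≤ 3 / 2 * Real.log x + 3 := by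
    have h10 : (Nat.log 2 x : ℝ) ≤ 3 / 2 * Real.log x := by
      have h11 : (0 : ℝ) ≤ (Nat.log 2 x : ℝ) := Nat.cast_nonneg _
      nlinarith
    push_cast at hm3
    linarith
  have h10 : 3 * (p + ε) * m ≤ (p + ε) * (3 / 2 * Real.log x + 3) := by
    have : 3 * (p + ε) * (m : ℝ) = (p + ε) * (3 * m) := by ring
    rw [this]
    exact mul_le_mul_of_nonneg_left h9 (by linarith)
  have h11 : 0 ≤ Real.log x := Real.log_natCast_nonneg x
  have h12 := hf 1 (pre b 1 α)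
  rw [div_le_iff₀ hε] at hx1
  nlinarith [mul_nonneg hp h11]

/-- **Logarithmic sums.** -/
theorem ae_lev {f : ℕ → ℤ → ℝ} (hf : ∀ i u, 0 ≤ f i u) {b : ℕ} (hb : 2 ≤ b) {K : ℤ}
    {p q : ℝ} (hp : 0 ≤ p) (hq : 0 ≤ q) {m0 : ℕ}
    (hB : Cond b K 4 f p m0) (hB2 : Cond b K 4 (fun i u => f i u ^ 2) q m0) :
    ∀ᵐ α : ℝ, α ∈ Set.Ico (K : ℝ) (K + 1) → ∀ᶠ x : ℕ in atTop,
      ∑ i ∈ Icc 1 x, f i (pre b i α) / (i : ℝ) ≤ 2 * (p + 1) * Real.log x := by
  filter_upwards [ae_lev_eps hf hb hp hq hB hB2] with α h hK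
  filter_upwards [h hK 1 one_pos] with x hx
  refine hx.trans (le_of_eq ?_)
  ring

/-- **Single values.** -/
theorem ae_lev_point {f : ℕ → ℤ → ℝ} (hf : ∀ i u, 0 ≤ f i u) {b : ℕ} (hb : 2 ≤ b) {K : ℤ}
    {p : ℝ} (hp : 0 ≤ p) {m0 : ℕ} (hB : Cond b K 4 f p m0)
    (y : ℕ → ℝ) (hy : ∀ n, 1 ≤ n → 0 < y n) (hs : Summable (fun n => 1 / y n)) :
    ∀ᵐ α : ℝ, α ∈ Set.Ico (K : ℝ) (K + 1) → ∀ᶠ n : ℕ in atTop, f n (pre b n α) ≤ y n := by
  classical
  set m := 4 * m0 + 1 with hm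
  set s : ℕ → Set ℝ := fun n => if n < m then ∅ else
    {α : ℝ | α ∈ Set.Ico (K : ℝ) (K + 1) ∧ y n < f n (pre b n α)} with hsdef
  have hmeas : ∀ n, volume (s n) ≤ ENNReal.ofReal (p * |1 / y n|) := by
    intro n
    by_cases hn : n < m
    · have : s n = ∅ := if_pos hn
      rw [this, measure_empty]
      exact zero_le
    · have h2 : s n = {α : ℝ | α ∈ Set.Ico (K : ℝ) (K + 1) ∧ y n < f n (pre b n α)} := if_neg hn
      push Not at hn
      have hyn : 0 < y n := hy n (by omega)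
      rw [h2]
      refine (vol_le (by omega) n K (fun u => y n < f n u)).trans (ENNReal.ofReal_le_ofReal ?_)
      have h3 : av K b n (f n) ≤ p := by
        have h1 := lcond_av hb (show 4 * m0 ≤ n by omega) (by omega) le_rfl hB le_rfl
          (fun _ => (1 : ℝ)) (fun _ => zero_le_one)
        rw [av_one (by omega), mul_one] at h1
        refine le_trans (le_of_eq ?_) h1
        congr 1
        funext u
        simp
      unfold av at h3
      have hbr : (0 : ℝ) < (b : ℝ) ^ n := by positivity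
      have h4 : (((box K b n).filter (fun u => y n < f n u)).card : ℝ) * y n ≤
          ∑ u ∈ box K b n, f n u := by
        rw [← nsmul_eq_mul]
        refine le_trans (card_nsmul_le_sum _ _ _ fun u hu => (mem_filter.1 hu).2.le) ?_
        exact sum_le_sum_of_subset_of_nonneg (filter_subset _ _) fun u _ _ => hf n u
      have h5 : ((((box K b n).filter (fun u => y n < f n u)).card : ℝ) / (b : ℝ) ^ n) * y n ≤
          p := by
        refine le_trans ?_ h3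
        rw [div_mul_eq_mul_div]
        exact div_le_div_of_nonneg_right h4 hbr.le
      rw [← le_div_iff₀ hyn] at h5
      rw [abs_of_pos (by positivity), mul_one_div]
      exact h5
  have hsum : ∑' n, volume (s n) ≠ ⊤ := by
    have hsm : Summable (fun n : ℕ => p * |1 / y n|) := (hs.abs).mul_left p
    refine ne_top_of_le_ne_top (hsm.tsum_ofReal_ne_top) ?_
    exact ENNReal.tsum_le_tsum hmeas
  filter_upwards [ae_eventually_notMem hsum] with α hα hK
  filter_upwards [hα, eventually_ge_atTop m] with n hn hnm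
  by_contra hc
  push Not at hc
  apply hn
  have h2 : s n = {α : ℝ | α ∈ Set.Ico (K : ℝ) (K + 1) ∧ y n < f n (pre b n α)} :=
    if_neg (by omega)
  rw [h2]
  exact ⟨hK, hc⟩

end Pool.Agent.X257.AE
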