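import Pool.Agent.Y667.SX.Main
import Pool.Agent.TH841.PT.Fin1
import Pool.Agent.TH639.SL.Twist
import Pool.Agent.X257.AE.Fun
import Pool.Agent.X257.AE.Pencil

/-!
# 2-Selmer groups of the twists by the values of a polynomial: moments in short intervals
-/

set_option autoImplicit false

open Finset Polynomial Filter MeasureTheory

namespace Pool.Agent.X257.AE

open Pool.Agent.TH841.SH.D (Sha)

open Pool.Agent.Y667.SX (Sel2H)

/-- the quadratic twist `y² = x³ + d² A x + d³ B` over `ℚ` -/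
def Tw (A B d : ℤ) : WeierstrassCurve ℚ := ⟨0, 0, 0, ((d ^ 2 * A : ℤ) : ℚ), ((d ^ 3 * B : ℤ) : ℚ)⟩

theorem sel_one {A B e1 e2 e3 : ℤ} (hE : 4 * A ^ 3 + 27 * B ^ 2 ≠ 0)
    (he : ∀ x : ℤ, x ^ 3 + A * x + B = (x - e1) * (x - e2) * (x - e3)) {d : ℤ} (hd : d ≠ 0) :
    Finite (Sel2H (Tw A B d)) ∧
    Nat.card (Sel2H (Tw A B d)) = (Pool.Agent.W307.SE.SelR (d ^ 2 * A) (d ^ 3 * B)).ncard ∧
    Finite {x : Sha (Tw A B d) // x + x = 0} ∧
    2 ^ (Module.finrank ℤ (Tw A B d).toAffine.Point + 2) *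
      Nat.card {x : Sha (Tw A B d) // x + x = 0} = Nat.card (Sel2H (Tw A B d)) := by
  have hD := Pool.Agent.TH639.SL.disc_tw hd hE
  have hr := Pool.Agent.TH639.SL.roots_tw he d
  have hS := (Pool.Agent.TH639.SL.sel_tw hE he hd).1
  obtain ⟨h1, h2⟩ := Pool.Agent.Z864.SX.SELH _ _ _ _ _ hD hr hS
  obtain ⟨h3, h4⟩ := Pool.Agent.Y214.SX.RKSHA _ _ _ _ _ hD hr h1
  obtain ⟨h5⟩ := Pool.Agent.Y833.SX.SEL2 _ _ _ _ _ hD hr
  have h6 := Nat.card_congr h5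
  exact ⟨Finite.of_equiv _ h5.symm, h6.trans h2, h3, h4.trans h6.symm⟩

open Classical in
/-- the order of the 2-Selmer group of the twist by `D(t)`, zero if `D(t) = 0` -/
noncomputable def ord (A B : ℤ) (D : ℤ[X]) (t : ℤ) : ℕ :=
  if D.eval t = 0 then 0 else Nat.card (Sel2H (Tw A B (D.eval t)))

theorem avg_ord {A B e1 e2 e3 : ℤ} (hE : 4 * A ^ 3 + 27 * B ^ 2 ≠ 0)
    (he : ∀ x : ℤ, x ^ 3 + A * x + B = (x - e1) * (x - e2) * (x - e3)) (D : ℤ[X]) (hD : D ≠ 0)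
    (k : ℕ) (hk : 1 ≤ k) : ∃ C : ℝ, Avg (fun t => (ord A B D t : ℝ) ^ k) C 1 := by
  classical
  obtain ⟨C, hC⟩ := Pool.Agent.TH841.PT.sel_poly Pool.Agent.TH841.PT.avsq hE he D hD k 3
  refine ⟨C, fun N M hM hN => le_trans (le_of_eq ?_) (hC N M hM hN)⟩
  rw [sum_filter]
  refine sum_congr rfl fun t _ => ?_
  unfold ord
  beta_reduce
  by_cases ht : D.eval t = 0
  · rw [if_pos ht, if_neg (not_not.2 ht), Nat.cast_zero, zero_pow (by omega)]
  · rw [if_neg ht, if_pos ht, (sel_one hE he ht).2.1]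

end Pool.Agent.X257.AE
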