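import Pool.Agent.W307.RG.MqTw
import Pool.Agent.W402.FK.RKS
import Pool.Agent.X257.AE.Twist
import Pool.Agent.X257.AE.Mean

/-!
# Ranks over multiquadratic fields of the twists by the values of a polynomial
-/

set_option autoImplicit false

open Finset Polynomial Filter MeasureTheory

namespace Pool.Agent.X257.AE

open Pool.Agent.W307.RT (Sh)
open Pool.Agent.W307.RS (ShK mq2)

/-- the sum of the ranks of the twists over `ℚ` -/
noncomputable def rs {r : ℕ} (d : Fin r → ℤ) (A B : ℤ) (D : ℤ[X]) (t : ℤ) : ℕ :=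
  ∑ T : Finset (Fin r), Module.finrank ℤ
    (Sh ((∏ i ∈ T, d i) ^ 2 * ((D.eval t) ^ 2 * A))
      ((∏ i ∈ T, d i) ^ 3 * ((D.eval t) ^ 3 * B))).toAffine.Point

open Classical in
/-- `2 ^` the sum of the ranks, zero if `D(t) = 0` -/
noncomputable def G {r : ℕ} (d : Fin r → ℤ) (A B : ℤ) (D : ℤ[X]) (t : ℤ) : ℝ :=
  if D.eval t = 0 then 0 else 2 ^ rs d A B D t

theorem G_nonneg {r : ℕ} (d : Fin r → ℤ) (A B : ℤ) (D : ℤ[X]) (t : ℤ) : 0 ≤ G d A B D t := by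
  unfold G
  split_ifs <;> positivity

theorem sh_eq (A B c e : ℤ) : Sh (c ^ 2 * (e ^ 2 * A)) (c ^ 3 * (e ^ 3 * B)) =
    Sh ((c * e) ^ 2 * A) ((c * e) ^ 3 * B) := by
  congr 1 <;> ring

theorem avg_multi {A B e1 e2 e3 : ℤ} (hE : 4 * A ^ 3 + 27 * B ^ 2 ≠ 0)
    (he : ∀ x : ℤ, x ^ 3 + A * x + B = (x - e1) * (x - e2) * (x - e3)) (D : ℤ[X]) (hD : D ≠ 0)
    {r : ℕ} (d : Fin r → ℤ) (hd : ∀ i, d i ≠ 0) (k : ℕ) (hk : 1 ≤ k) :
    ∃ C : ℝ, Avg (fun t => G d A B D t ^ k) C 1 := by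
  classical
  have hdT : ∀ T : Finset (Fin r), (∏ i ∈ T, d i) ≠ 0 := fun T =>
    prod_ne_zero_iff.2 fun i _ => hd i
  have hDT : ∀ T : Finset (Fin r), C (∏ i ∈ T, d i) * D ≠ 0 := fun T =>
    mul_ne_zero (C_ne_zero.2 (hdT T)) hD
  choose Ct hCt using fun T : Finset (Fin r) => Pool.Agent.TH841.PT.sel_poly
    Pool.Agent.TH841.PT.avsq hE he (C (∏ i ∈ T, d i) * D) (hDT T) (2 ^ r * k) 3
  refine ⟨∑ T, Ct T, fun N M hM hN => ?_⟩
  rw [sum_mul]
  refine le_trans ?_ (sum_le_sum fun T _ => hCt T N M hM hN)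
  have hev : ∀ (T : Finset (Fin r)) (t : ℤ), (C (∏ i ∈ T, d i) * D).eval t =
      (∏ i ∈ T, d i) * D.eval t := fun T t => by rw [eval_mul, eval_C]
  have hfil : ∀ T : Finset (Fin r), (Ioc N (N + M)).filter
      (fun t => (∏ i ∈ T, d i) * D.eval t ≠ 0) =
      (Ioc N (N + M)).filter (fun t => D.eval t ≠ 0) := by
    intro T
    refine filter_congr fun t _ => ?_
    rw [mul_ne_zero_iff]
    exact ⟨fun h => h.2, fun h => ⟨hdT T, h⟩⟩
  simp only [hev]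
  simp only [hfil]
  rw [sum_comm]
  rw [sum_filter]
  refine sum_le_sum fun t _ => ?_
  beta_reduce
  unfold G
  by_cases ht : D.eval t = 0
  · rw [if_pos ht, if_neg (not_not.2 ht), zero_pow (by omega)]
  · rw [if_neg ht, if_pos ht]
    refine (Pool.Agent.W307.RG.pow_le_sum_pow (ι := Finset (Fin r)) _ (2 ^ r)
      (by rw [Fintype.card_finset, Fintype.card_fin]) (rs d A B D t) k le_rfl).trans ?_
    refine sum_le_sum fun T _ => ?_
    refine pow_le_pow_left₀ (by positivity) ?_ _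
    have hc : (∏ i ∈ T, d i) * D.eval t ≠ 0 := mul_ne_zero (hdT T) ht
    have h1 := Pool.Agent.W402.FK.rks _ _ _ _ _ (Pool.Agent.TH639.SL.disc_tw hc hE)
      (Pool.Agent.TH639.SL.roots_tw he _) (Pool.Agent.TH639.SL.sel_tw hE he hc).1
    rw [sh_eq]
    exact_mod_cast h1

open Classical in
/-- the rank over the multiquadratic field -/
theorem rank_le_rs (F : Type) [Field F] [CharZero F] [Algebra ℚ F] {r : ℕ} (x : Fin r → F)
    (d : Fin r → ℤ) (hx : ∀ i, x i ^ 2 = (d i : F)) (hd : ∀ i, d i ≠ 0)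
    (hgen : IntermediateField.adjoin ℚ (Set.range x) = ⊤)
    {A B e1 e2 e3 : ℤ} (hE : 4 * A ^ 3 + 27 * B ^ 2 ≠ 0)
    (he : ∀ x : ℤ, x ^ 3 + A * x + B = (x - e1) * (x - e2) * (x - e3)) (D : ℤ[X]) (t : ℤ)
    (ht : D.eval t ≠ 0) :
    Module.finrank ℤ (ShK ((((D.eval t) ^ 2 * A : ℤ) : F)) ((((D.eval t) ^ 3 * B : ℤ) : F))).toAffine.Point
      ≤ rs d A B D t := by
  have hdT : ∀ T : Finset (Fin r), (∏ i ∈ T, d i) ≠ 0 := fun T =>
    prod_ne_zero_iff.2 fun i _ => hd i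
  have h1 := mq2 F r x d hx hd hgen ((D.eval t) ^ 2 * A) ((D.eval t) ^ 3 * B)
    (Pool.Agent.TH639.SL.disc_tw ht hE)
  have hfin : ∀ T : Finset (Fin r), Module.Finite ℤ
      (Sh ((∏ i ∈ T, d i) ^ 2 * ((D.eval t) ^ 2 * A))
        ((∏ i ∈ T, d i) ^ 3 * ((D.eval t) ^ 3 * B))).toAffine.Point := by
    intro T
    rw [sh_eq]
    exact Pool.Agent.W307.RG.fin_tw hE he (mul_ne_zero (hdT T) ht)
  have h2 : ∀ T : Finset (Fin r), Module.rank ℤ
      (Sh ((∏ i ∈ T, d i) ^ 2 * ((D.eval t) ^ 2 * A))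
        ((∏ i ∈ T, d i) ^ 3 * ((D.eval t) ^ 3 * B))).toAffine.Point =
      ((Module.finrank ℤ (Sh ((∏ i ∈ T, d i) ^ 2 * ((D.eval t) ^ 2 * A))
        ((∏ i ∈ T, d i) ^ 3 * ((D.eval t) ^ 3 * B))).toAffine.Point : ℕ) : Cardinal) := by
    intro T
    have := hfin T
    exact (Module.finrank_eq_rank ℤ _).symm
  rw [sum_congr rfl fun T _ => h2 T, ← Nat.cast_sum] at h1
  exact Module.finrank_le_of_rank_le h1

end Pool.Agent.X257.AE
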