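import Pool.Agent.X257.AE.Lev

/-!
# Functions on the coprime pairs of bounded mean in squares, at the good rational approximations
-/

set_option autoImplicit false

open Finset MeasureTheory Filter Topology

namespace Pool.Agent.X257.AE

/-- the mean of `F` over the squares `(U, U + X] × (V, V + X]`, `|U|, |V| ≤ X ^ 4`, `X ≥ X0`, is at most
`p` -/
def BoxAvg (F : ℤ × ℤ → ℝ) (p : ℝ) (X0 : ℕ) : Prop := ∀ (X : ℕ) (U V : ℤ), X0 ≤ X →
  |U| ≤ (X : ℤ) ^ 4 → |V| ≤ (X : ℤ) ^ 4 → ∑ t ∈ Ioc U (U + X) ×ˢ Ioc V (V + X), F t ≤ p * (X : ℝ) ^ 2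

open Classical in
/-- coprime pairs `(u, v)` with `2 ^ j < v ≤ 2 ^ (j + 1)` and `|u / v - w / 4 ^ j| ≤ (c + 1) / 4 ^ j` -/
noncomputable def Pr (c j : ℕ) (w : ℤ) : Finset (ℤ × ℤ) :=
  (Icc (-((|w| + c + 1) * 2 ^ (j + 1))) ((|w| + c + 1) * 2 ^ (j + 1)) ×ˢ
    Ioc ((2 : ℤ) ^ j) (2 ^ (j + 1))).filter
    (fun t => IsCoprime t.1 t.2 ∧ |4 ^ j * t.1 - w * t.2| ≤ (c + 1) * t.2)

theorem mem_Pr {c j : ℕ} {w : ℤ} {t : ℤ × ℤ} : t ∈ Pr c j w ↔ ((2 : ℤ) ^ j < t.2 ∧ t.2 ≤ 2 ^ (j + 1)) ∧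
    IsCoprime t.1 t.2 ∧ |4 ^ j * t.1 - w * t.2| ≤ (c + 1) * t.2 := by
  unfold Pr
  rw [mem_filter, mem_product, mem_Icc, mem_Ioc]
  refine ⟨fun h => ⟨h.1.2, h.2⟩, fun h => ⟨⟨?_, h.1⟩, h.2⟩⟩
  obtain ⟨⟨h1, h2⟩, -, h3⟩ := h
  rw [← abs_le]
  have h4 : (0 : ℤ) < 2 ^ j := by positivity
  have h5 : |4 ^ j * t.1| ≤ (|w| + c + 1) * t.2 := by
    have h6 : (4 : ℤ) ^ j * t.1 = (4 ^ j * t.1 - w * t.2) + w * t.2 := by ring
    rw [h6]
    refine (abs_add_le _ _).trans ?_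
    rw [abs_mul, abs_of_pos (by linarith : 0 < t.2)]
    nlinarith
  rw [abs_mul, abs_of_pos (by positivity : (0 : ℤ) < 4 ^ j)] at h5
  have h6 : |t.1| ≤ 4 ^ j * |t.1| := by
    have : (1 : ℤ) ≤ 4 ^ j := one_le_pow₀ (by norm_num)
    nlinarith [abs_nonneg t.1]
  refine h6.trans (h5.trans ?_)
  exact mul_le_mul_of_nonneg_left h2 (by positivity)

/-- there are few coprime pairs -/
theorem card_Pr (c j : ℕ) (w : ℤ) : (Pr c j w).card ≤ 8 * c + 9 := by
  have h1 : ∀ t ∈ Pr c j w, (4 ^ (j + 1) * t.1) / t.2 ∈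
      Icc (4 * (w - c - 1)) (4 * (w + c + 1)) := by
    intro t ht
    obtain ⟨⟨h1, h2⟩, -, h3⟩ := mem_Pr.1 ht
    have hv : 0 < t.2 := lt_trans (by positivity) h1
    rw [abs_le] at h3
    have e : (4 : ℤ) ^ (j + 1) = 4 * 4 ^ j := by ring
    rw [mem_Icc]
    constructor
    · rw [Int.le_ediv_iff_mul_le hv, e]
      nlinarith [h3.1]
    · have h4 : (4 ^ (j + 1) * t.1) / t.2 * t.2 ≤ 4 ^ (j + 1) * t.1 := Int.ediv_mul_le _ hv.ne'
      have h5 : 4 ^ (j + 1) * t.1 ≤ 4 * (w + c + 1) * t.2 := by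
        rw [e]
        nlinarith [h3.2]
      exact le_of_mul_le_mul_right (h4.trans h5) hv
  have h2 : Set.InjOn (fun t : ℤ × ℤ => (4 ^ (j + 1) * t.1) / t.2) (Pr c j w : Set (ℤ × ℤ)) := by
    intro t ht t' ht' he
    obtain ⟨⟨h1, h2⟩, h3, -⟩ := mem_Pr.1 (mem_coe.1 ht)
    obtain ⟨⟨h1', h2'⟩, h3', -⟩ := mem_Pr.1 (mem_coe.1 ht')
    have hv : 0 < t.2 := lt_trans (by positivity) h1
    have hv' : 0 < t'.2 := lt_trans (by positivity) h1'
    change (4 ^ (j + 1) * t.1) / t.2 = (4 ^ (j + 1) * t'.1) / t'.2 at he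
    set q := (4 ^ (j + 1) * t.1) / t.2 with hq
    have e1 := Int.emod_add_mul_ediv (4 ^ (j + 1) * t.1) t.2
    have e2 := Int.emod_add_mul_ediv (4 ^ (j + 1) * t'.1) t'.2
    have r1 := Int.emod_nonneg (4 ^ (j + 1) * t.1) hv.ne'
    have r2 := Int.emod_lt_of_pos (4 ^ (j + 1) * t.1) hv
    have r1' := Int.emod_nonneg (4 ^ (j + 1) * t'.1) hv'.ne'
    have r2' := Int.emod_lt_of_pos (4 ^ (j + 1) * t'.1) hv'
    rw [← hq] at e1
    rw [← he] at e2
    set a := (4 ^ (j + 1) * t.1) % t.2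
    set a' := (4 ^ (j + 1) * t'.1) % t'.2
    have h5 : (4 : ℤ) ^ (j + 1) * (t.1 * t'.2 - t'.1 * t.2) = a * t'.2 - a' * t.2 := by
      linear_combination t'.2 * (-e1) + t.2 * e2
    have h6 : t.2 * t'.2 ≤ 4 ^ (j + 1) := by
      have : (4 : ℤ) ^ (j + 1) = 2 ^ (j + 1) * 2 ^ (j + 1) := by
        rw [← mul_pow]
        norm_num
      rw [this]
      exact mul_le_mul h2 h2' hv'.le (by positivity)
    have h7 : a * t'.2 - a' * t.2 < 4 ^ (j + 1) := by nlinarith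
    have h8 : -4 ^ (j + 1) < a * t'.2 - a' * t.2 := by nlinarith
    have h9 : t.1 * t'.2 = t'.1 * t.2 := by
      have h10 : (0 : ℤ) < 4 ^ (j + 1) := by positivity
      rw [← h5] at h7 h8
      have h11 : t.1 * t'.2 - t'.1 * t.2 < 1 := by
        by_contra hc
        push Not at hc
        nlinarith
      have h12 : -1 < t.1 * t'.2 - t'.1 * t.2 := by
        by_contra hc
        push Not at hc
        nlinarith
      omega
    have d1 : t.2 ∣ t'.2 := by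
      have : t.2 ∣ t.1 * t'.2 := by rw [h9]; exact dvd_mul_left _ _
      exact (h3.symm).dvd_of_dvd_mul_left this
    have d2 : t'.2 ∣ t.2 := by
      have : t'.2 ∣ t'.1 * t.2 := by rw [← h9]; exact dvd_mul_left _ _
      exact (h3'.symm).dvd_of_dvd_mul_left this
    have h10 : t.2 = t'.2 := Int.dvd_antisymm hv.le hv'.le d1 d2
    rw [h10] at h9
    exact Prod.ext (mul_right_cancel₀ hv'.ne' h9) h10
  have h3 := card_le_card_of_injOn _ h1 h2
  refine h3.trans (le_of_eq ?_)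
  rw [Int.card_Icc]
  omega

/-- the sum over the pairs -/
noncomputable def lf (F : ℤ × ℤ → ℝ) (c j : ℕ) (w : ℤ) : ℝ := ∑ t ∈ Pr c j w, F t

theorem lf_nonneg {F : ℤ × ℤ → ℝ} (hF : ∀ t, 0 ≤ F t) (c j : ℕ) (w : ℤ) : 0 ≤ lf F c j w :=
  sum_nonneg fun t _ => hF t

theorem lf_sq_le {F : ℤ × ℤ → ℝ} (c j : ℕ) (w : ℤ) :
    lf F c j w ^ 2 ≤ (8 * c + 9 : ℝ) * lf (fun t => F t ^ 2) c j w := by
  have h1 := sq_sum_le_card_mul_sum_sq (s := Pr c j w) (f := F)
  refine h1.trans (mul_le_mul_of_nonneg_right ?_ (sum_nonneg fun t _ => sq_nonneg _))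
  exact_mod_cast card_Pr c j w

theorem sum_biUnion_le' {ι : Type} [DecidableEq ι] {τ : Type} [DecidableEq τ] (s : Finset ι)
    (g : ι → Finset τ) {F : τ → ℝ} (hF : ∀ t, 0 ≤ F t) :
    ∑ t ∈ s.biUnion g, F t ≤ ∑ x ∈ s, ∑ t ∈ g x, F t := by
  induction s using Finset.induction_on with
  | empty => simp
  | insert a s ha ih =>
    rw [biUnion_insert, sum_insert ha]
    have h1 := sum_union_inter (s₁ := g a) (s₂ := s.biUnion g) (f := F)
    have h2 : 0 ≤ ∑ t ∈ g a ∩ s.biUnion g, F t := sum_nonneg fun t _ => hF t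
    linarith

/-- the number of the `w` -/
theorem card_w (c j : ℕ) (t : ℤ × ℤ) (s : Finset ℤ) :
    (s.filter (fun w => t ∈ Pr c j w)).card ≤ 2 * c + 3 := by
  have h1 : s.filter (fun w => t ∈ Pr c j w) ⊆
      Icc ((4 ^ j * t.1) / t.2 - (c + 1)) ((4 ^ j * t.1) / t.2 + (c + 1)) := by
    intro w hw
    obtain ⟨⟨h1, -⟩, -, h3⟩ := mem_Pr.1 (mem_filter.1 hw).2
    have hv : 0 < t.2 := lt_trans (by positivity) h1
    rw [abs_le] at h3
    rw [mem_Icc]
    constructor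
    · have h4 : (4 ^ j * t.1) / t.2 * t.2 ≤ 4 ^ j * t.1 := Int.ediv_mul_le _ hv.ne'
      have h5 : ((4 ^ j * t.1) / t.2 - (c + 1)) * t.2 ≤ w * t.2 := by nlinarith [h3.2]
      exact le_of_mul_le_mul_right h5 hv
    · have h5 : w - (c + 1) ≤ (4 ^ j * t.1) / t.2 := by
        rw [Int.le_ediv_iff_mul_le hv]
        nlinarith [h3.1]
      linarith
  refine (card_le_card h1).trans (le_of_eq ?_)
  rw [Int.card_Icc]
  omega

theorem cond_lf_lin {F : ℤ × ℤ → ℝ} (hF : ∀ t, 0 ≤ F t) {p : ℝ} {X0 : ℕ}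
    (hB : BoxAvg F p X0) (K : ℤ) (c : ℕ) : ∃ m0 : ℕ,
      Cond 4 K 4 (lf F c)
        ((2 * c + 3 : ℝ) * ((2 * ((2 * (c + 2) + K.natAbs + 1 : ℕ) : ℝ) + 2) * p)) m0 := by
  classical
  set H : ℕ := 2 * (c + 2) + K.natAbs + 1 with hH
  refine ⟨2 * K.natAbs + H + 4 + X0, fun m j hm hmj w0 hw0 => ?_⟩
  set X : ℕ := 2 ^ (j - 2 * m) with hX
  have hX1 : 1 ≤ X := Nat.one_le_two_pow
  have hXz : (1 : ℤ) ≤ X := by exact_mod_cast hX1
  have hXj : 4 ^ m * X = 2 ^ j := by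
    rw [hX, show (4 : ℕ) = 2 ^ 2 by norm_num, ← pow_mul, ← pow_add]
    congr 1
    omega
  have hXjz : (4 : ℤ) ^ m * X = 2 ^ j := by exact_mod_cast hXj
  have hbig : 2 ^ j ≤ X ^ 2 := by
    rw [hX, ← pow_mul]
    exact Nat.pow_le_pow_right (by norm_num) (by omega)
  have hj1 : j < 2 ^ j := Nat.lt_two_pow_self
  set I : Finset ℤ := Ico (w0 * ((4 : ℕ) : ℤ) ^ (j - m)) ((w0 + 1) * ((4 : ℕ) : ℤ) ^ (j - m)) with hI
  set Big : Finset (ℤ × ℤ) := I.biUnion (Pr c j) with hBig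
  set V : ℕ → ℤ := fun l => 2 ^ j + l * X with hV
  set U : ℕ → ℤ → ℤ := fun l r => (w0 * V l) / 4 ^ m + r * X with hU
  set Bx : ℕ → ℤ → Finset (ℤ × ℤ) := fun l r => Ioc (U l r) (U l r + X) ×ˢ Ioc (V l) (V l + X)
    with hBx
  have hKz : |K| = (K.natAbs : ℤ) := Int.abs_eq_natAbs K
  have hw : |w0| ≤ (|K| + 1) * 4 ^ m := by
    unfold box at hw0
    rw [mem_Ico] at hw0
    push_cast at hw0
    have h4 : (0 : ℤ) < 4 ^ m := by positivity
    have k1 := neg_abs_le K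
    have k2 := le_abs_self K
    rw [abs_le]
    constructor
    · nlinarith [hw0.1]
    · nlinarith [hw0.2]
  have hVb : ∀ l : ℕ, l < 4 ^ m → V l + X ≤ 2 ^ (j + 1) ∧ 0 < V l := by
    intro l hl
    have h1 : (l : ℤ) + 1 ≤ 4 ^ m := by exact_mod_cast hl
    have h2 : ((l : ℤ) + 1) * X ≤ 4 ^ m * X := mul_le_mul_of_nonneg_right h1 (by positivity)
    rw [hXjz] at h2
    have h3 : (0 : ℤ) < 2 ^ j := by positivity
    refine ⟨?_, by positivity⟩
    rw [pow_succ]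
    change 2 ^ j + (l : ℤ) * X + X ≤ 2 ^ j * 2
    linarith
  -- the covering
  have hcov : Big ⊆ (range (4 ^ m)).biUnion
      (fun l => (Ico (-((H : ℤ) + 1)) (H + 1)).biUnion (fun r => Bx l r)) := by
    intro t ht
    rw [hBig, mem_biUnion] at ht
    obtain ⟨w, hwI, ht⟩ := ht
    obtain ⟨⟨h1, h2⟩, -, h3⟩ := mem_Pr.1 ht
    rw [hI, mem_Ico] at hwI
    push_cast at hwI
    have hXp : (0 : ℤ) < X := by linarith
    -- the number l
    have hl0 : 0 ≤ (t.2 - 1 - 2 ^ j) / (X : ℤ) := Int.ediv_nonneg (by linarith) hXp.le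
    set l : ℕ := ((t.2 - 1 - 2 ^ j) / (X : ℤ)).toNat with hl
    have hlz : (l : ℤ) = (t.2 - 1 - 2 ^ j) / (X : ℤ) := Int.toNat_of_nonneg hl0
    have hl1 : (l : ℤ) * X ≤ t.2 - 1 - 2 ^ j := by rw [hlz]; exact Int.ediv_mul_le _ hXp.ne'
    have hl2 : t.2 - 1 - 2 ^ j < ((l : ℤ) + 1) * X := by
      rw [hlz]; exact Int.lt_ediv_add_one_mul_self _ hXp
    have hlm : l < 4 ^ m := by
      have h4 : (l : ℤ) * X < 4 ^ m * X := by
        rw [hXjz]
        rw [pow_succ] at h2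
        linarith
      have h5 : (l : ℤ) < 4 ^ m := lt_of_mul_lt_mul_right h4 hXp.le
      exact_mod_cast h5
    -- the key inequality
    have hv : 0 < t.2 := lt_trans (by positivity) h1
    have h4m : (0 : ℤ) < 4 ^ m := by positivity
    have h4jm : (1 : ℤ) ≤ 4 ^ (j - m) := one_le_pow₀ (by norm_num)
    have e4 : (4 : ℤ) ^ j = 4 ^ m * 4 ^ (j - m) := by rw [← pow_add]; congr 1; omega
    have h5 : |4 ^ m * t.1 - w0 * t.2| ≤ (c + 2) * t.2 := by
      rw [abs_le] at h3 ⊢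
      rw [e4] at h3
      set y : ℤ := 4 ^ (j - m) with hy
      have hy0 : 0 < y := by linarith
      constructor
      · have h6 : y * (-((c + 2) * t.2)) ≤ y * (4 ^ m * t.1 - w0 * t.2) := by
          have h7 : w0 * y * t.2 ≤ w * t.2 := mul_le_mul_of_nonneg_right hwI.1 hv.le
          have h8 : (c + 1 : ℤ) * t.2 ≤ y * ((c + 2) * t.2) := by
            have h9 : (0 : ℤ) ≤ (c + 2) * t.2 := by positivity
            nlinarith
          nlinarith [h3.1]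
        exact le_of_mul_le_mul_left h6 hy0
      · have h6 : y * (4 ^ m * t.1 - w0 * t.2) ≤ y * ((c + 2) * t.2) := by
          have h7 : w * t.2 ≤ (w0 + 1) * y * t.2 := mul_le_mul_of_nonneg_right hwI.2.le hv.le
          have h8 : (c + 1 : ℤ) * t.2 ≤ y * ((c + 1) * t.2) := by
            have h9 : (0 : ℤ) ≤ (c + 1) * t.2 := by positivity
            nlinarith
          nlinarith [h3.2]
        exact le_of_mul_le_mul_left h6 hy0
    have h6 : |4 ^ m * t.1 - w0 * V l| ≤ H * (4 ^ m * X) := by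
      have e5 : (4 : ℤ) ^ m * t.1 - w0 * V l = (4 ^ m * t.1 - w0 * t.2) + w0 * (t.2 - V l) := by ring
      rw [e5]
      refine (abs_add_le _ _).trans ?_
      rw [abs_mul]
      have h7 : |t.2 - V l| ≤ X := by
        rw [abs_le]
        change -(X : ℤ) ≤ t.2 - (2 ^ j + l * X) ∧ t.2 - (2 ^ j + l * X) ≤ X
        constructor <;> nlinarith
      have h8 : |w0| * |t.2 - V l| ≤ (|K| + 1) * 4 ^ m * X :=
        mul_le_mul hw h7 (abs_nonneg _) (by positivity)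
      have h9 : (c + 2 : ℤ) * t.2 ≤ (c + 2) * (2 * (4 ^ m * X)) := by
        rw [hXjz]
        rw [pow_succ] at h2
        exact mul_le_mul_of_nonneg_left (by linarith) (by positivity)
      have h10 : (H : ℤ) = 2 * (c + 2) + |K| + 1 := by
        rw [hH, hKz]
        push_cast
        ring
      rw [h10]
      nlinarith
    -- the number r
    set U0 : ℤ := (w0 * V l) / 4 ^ m with hU0
    have u1 : U0 * 4 ^ m ≤ w0 * V l := Int.ediv_mul_le _ h4m.ne'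
    have u2 : w0 * V l < (U0 + 1) * 4 ^ m := Int.lt_ediv_add_one_mul_self _ h4m
    rw [abs_le] at h6
    have u3 : U0 - H * X ≤ t.1 := by
      have : (4 : ℤ) ^ m * (U0 - H * X) ≤ 4 ^ m * t.1 := by nlinarith [h6.1]
      exact le_of_mul_le_mul_left this h4m
    have u4 : t.1 < U0 + 1 + H * X := by
      have : (4 : ℤ) ^ m * t.1 < 4 ^ m * (U0 + 1 + H * X) := by nlinarith [h6.2]
      exact lt_of_mul_lt_mul_left this h4m.le
    set r : ℤ := (t.1 - 1 - U0) / (X : ℤ) with hr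
    have r1 : r * X ≤ t.1 - 1 - U0 := Int.ediv_mul_le _ hXp.ne'
    have r2 : t.1 - 1 - U0 < (r + 1) * X := Int.lt_ediv_add_one_mul_self _ hXp
    have r3 : -((H : ℤ) + 1) ≤ r := by
      rw [hr, Int.le_ediv_iff_mul_le hXp]
      nlinarith
    have r4 : r < H + 1 := by
      have : r * X < (H + 1) * X := by nlinarith
      exact lt_of_mul_lt_mul_right this hXp.le
    rw [mem_biUnion]
    refine ⟨l, mem_range.2 hlm, ?_⟩
    rw [mem_biUnion]
    refine ⟨r, mem_Ico.2 ⟨r3, r4⟩, ?_⟩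
    change t ∈ Ioc (U0 + r * X) (U0 + r * X + X) ×ˢ Ioc (2 ^ j + (l : ℤ) * X) (2 ^ j + l * X + X)
    rw [mem_product, mem_Ioc, mem_Ioc]
    refine ⟨⟨by linarith, by linarith⟩, ⟨by linarith, by linarith⟩⟩
  -- the squares
  have hbox : ∀ l ∈ range (4 ^ m), ∀ r ∈ Ico (-((H : ℤ) + 1)) (H + 1),
      ∑ t ∈ Bx l r, F t ≤ p * (X : ℝ) ^ 2 := by
    intro l hl r hr
    rw [mem_range] at hl
    rw [mem_Ico] at hr
    obtain ⟨v1, v2⟩ := hVb l hl
    have hbz : (2 : ℤ) ^ j ≤ (X : ℤ) ^ 2 := by exact_mod_cast hbig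
    have hXX : (X : ℤ) ≤ 2 ^ j := by
      rw [← hXjz]
      have : (1 : ℤ) ≤ 4 ^ m := one_le_pow₀ (by norm_num)
      nlinarith
    have hjm : 2 * K.natAbs + H + 4 + X0 ≤ j := by omega
    have hj2 : ((2 * K.natAbs + H + 4 : ℕ) : ℤ) ≤ 2 ^ j := by
      have : 2 * K.natAbs + H + 4 ≤ 2 ^ j := by omega
      exact_mod_cast this
    push_cast at hj2
    have h2j : (0 : ℤ) < 2 ^ j := by positivity
    have hX4 : (2 : ℤ) ^ j * 2 ^ j ≤ (X : ℤ) ^ 4 := by
      have : (X : ℤ) ^ 4 = (X : ℤ) ^ 2 * (X : ℤ) ^ 2 := by ring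
      rw [this]
      exact mul_le_mul hbz hbz h2j.le (by positivity)
    refine hB X (U l r) (V l) ?_ ?_ ?_
    · have h1 : j ≤ 2 ^ (j - 2 * m) * 2 := by
        have h2 : j - 2 * m < 2 ^ (j - 2 * m) := Nat.lt_two_pow_self
        omega
      have h3 : j - 2 * m < X := Nat.lt_two_pow_self
      omega
    · refine le_trans ?_ hX4
      have h4m : (0 : ℤ) < 4 ^ m := by positivity
      set U0 : ℤ := (w0 * V l) / 4 ^ m with hU0
      have u1 : U0 * 4 ^ m ≤ w0 * V l := Int.ediv_mul_le _ h4m.ne'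
      have u2 : w0 * V l < (U0 + 1) * 4 ^ m := Int.lt_ediv_add_one_mul_self _ h4m
      have hVle : V l ≤ 2 * 2 ^ j := by
        rw [pow_succ] at v1
        linarith
      have hwV : |w0 * V l| ≤ (|K| + 1) * (2 * 2 ^ j) * 4 ^ m := by
        rw [abs_mul, abs_of_pos v2]
        calc |w0| * V l ≤ ((|K| + 1) * 4 ^ m) * (2 * 2 ^ j) :=
              mul_le_mul hw hVle v2.le (by positivity)
          _ = _ := by ring
      rw [abs_le] at hwV
      have a1 : -((|K| + 1) * (2 * 2 ^ j)) - 1 ≤ U0 := by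
        have : (-((|K| + 1) * (2 * 2 ^ j)) - 1) * 4 ^ m ≤ (U0) * 4 ^ m := by
          nlinarith [hwV.1]
        exact le_of_mul_le_mul_right this h4m
      have a2 : U0 ≤ (|K| + 1) * (2 * 2 ^ j) := by
        have : U0 * 4 ^ m ≤ ((|K| + 1) * (2 * 2 ^ j)) * 4 ^ m := u1.trans hwV.2
        exact le_of_mul_le_mul_right this h4m
      have b1 : |r * (X : ℤ)| ≤ (H + 1) * 2 ^ j := by
        rw [abs_mul, abs_of_nonneg (by linarith : (0 : ℤ) ≤ X)]
        refine mul_le_mul ?_ hXX (by linarith) (by positivity)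
        rw [abs_le]
        constructor <;> linarith [hr.1, hr.2]
      rw [abs_le] at b1
      change |U0 + r * X| ≤ 2 ^ j * 2 ^ j
      have c1 : ((|K| + 1) * 2 + 1 + (H + 1)) * (2 : ℤ) ^ j ≤ 2 ^ j * 2 ^ j := by
        refine mul_le_mul_of_nonneg_right ?_ h2j.le
        linarith
      rw [abs_le]
      constructor
      · nlinarith [b1.1]
      · nlinarith [b1.2]
    · refine le_trans ?_ hX4
      rw [abs_of_pos v2]
      have : V l ≤ 2 * 2 ^ j := by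
        rw [pow_succ] at v1
        linarith
      refine this.trans (mul_le_mul_of_nonneg_right ?_ h2j.le)
      have : (0 : ℤ) ≤ (K.natAbs : ℤ) := by positivity
      have : (0 : ℤ) ≤ (H : ℤ) := by positivity
      linarith
  -- the sums
  have hs1 : ∑ w ∈ I, lf F c j w ≤ (2 * c + 3 : ℝ) * ∑ t ∈ Big, F t := by
    have h1 : ∑ w ∈ I, lf F c j w = ∑ t ∈ Big, ∑ w ∈ I.filter (fun w => t ∈ Pr c j w), F t := by
      unfold lf
      refine sum_comm' fun w t => ?_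
      rw [hBig, mem_biUnion, mem_filter]
      exact ⟨fun h => ⟨⟨h.1, h.2⟩, w, h.1, h.2⟩, fun h => h.1⟩
    rw [h1, mul_sum]
    refine sum_le_sum fun t _ => ?_
    rw [sum_const, nsmul_eq_mul]
    refine mul_le_mul_of_nonneg_right ?_ (hF t)
    exact_mod_cast card_w c j t I
  have hs2 : ∑ t ∈ Big, F t ≤ (2 * H + 2 : ℝ) * p * (4 : ℝ) ^ (j - m) := by
    refine (sum_le_sum_of_subset_of_nonneg hcov fun t _ _ => hF t).trans ?_
    refine (sum_biUnion_le' _ _ hF).trans ?_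
    have h1 : ∀ l ∈ range (4 ^ m), ∑ t ∈ (Ico (-((H : ℤ) + 1)) (H + 1)).biUnion (fun r => Bx l r), F t ≤
        (2 * H + 2 : ℝ) * (p * (X : ℝ) ^ 2) := by
      intro l hl
      refine (sum_biUnion_le' _ _ hF).trans ((sum_le_sum (hbox l hl)).trans (le_of_eq ?_))
      rw [sum_const, Int.card_Ico, nsmul_eq_mul]
      congr 1
      have : ((H : ℤ) + 1 - -((H : ℤ) + 1)) = ((2 * H + 2 : ℕ) : ℤ) := by
        push_cast
        ring
      rw [this, Int.toNat_natCast]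
      push_cast
      ring
    refine (sum_le_sum h1).trans (le_of_eq ?_)
    rw [sum_const, card_range, nsmul_eq_mul]
    have e1 : (X : ℝ) ^ 2 * (4 : ℝ) ^ m = 4 ^ (j - m) := by
      rw [hX]
      push_cast
      rw [← pow_mul, show (4 : ℝ) = 2 ^ 2 by norm_num, ← pow_mul, ← pow_mul, ← pow_add]
      congr 1
      omega
    push_cast
    rw [← e1]
    ring
  refine hs1.trans ((mul_le_mul_of_nonneg_left hs2 (by positivity)).trans (le_of_eq ?_))
  push_cast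
  ring

theorem cond_lf {F : ℤ × ℤ → ℝ} (hF : ∀ t, 0 ≤ F t) {p : ℝ} (hp : 0 ≤ p) {X0 : ℕ}
    (hB : BoxAvg F p X0) (K : ℤ) (c : ℕ) : ∃ p' : ℝ, 0 ≤ p' ∧ ∃ m0 : ℕ,
      Cond 4 K 4 (lf F c) p' m0 := by
  obtain ⟨m0, h⟩ := cond_lf_lin hF hB K c
  exact ⟨_, by positivity, m0, h⟩

end Pool.Agent.X257.AE
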